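import Mathlib

/-!
# [H67 PS CMB] The combinatorial lemma

`e : Fin 8 → ℕ`, `1 <= lo`, `lo^3 <= hi^2`, `lo <= 2^(Σ e)`: either some `J` has `lo <= 2^(Σ_J e) <= hi`, or one factor is `> hi`, or two factors
`i ≠ j` have product `> hi`. PROOF: Let there be no such `J`. A minimal set `J` with `2^(Σ_J e) > hi` (`univ` is one): let `m ∈ J` have the least
exponent. `2^(Σ_{J∖m})` is not `> hi` (minimality), so it is `< lo`. If `|J| >= 3`, `2^(2 e m) <= 2^(Σ_{J∖m})`, so
`(2^(Σ_J))^2 <= (2^(Σ_{J∖m}))^3 < lo^3 <= hi^2`.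
-/

namespace Pool.Agent.H67.PS

open Finset

theorem cmb (e : Fin 8 → ℕ) (lo hi : ℝ) (h1 : 1 ≤ lo) (h0 : 0 ≤ hi) (h3 : lo ^ 3 ≤ hi ^ 2)
    (hlo : lo ≤ (2 : ℝ) ^ (∑ i, e i)) :
    (∃ J : Finset (Fin 8), lo ≤ (2 : ℝ) ^ (∑ i ∈ J, e i) ∧ (2 : ℝ) ^ (∑ i ∈ J, e i) ≤ hi) ∨
      (∃ i, hi < (2 : ℝ) ^ (e i)) ∨
      ∃ i j, i ≠ j ∧ e j ≤ e i ∧ hi < (2 : ℝ) ^ (e i + e j) := by
  by_contra hcon
  rw [not_or, not_or] at hcon
  obtain ⟨c1, c2, c3⟩ := hcon
  push Not at c1 c2 c3
  have hhi1 : 1 ≤ hi := by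
    by_contra hc
    have h4 : hi ^ 2 < 1 := by nlinarith
    have h5 : 1 ≤ lo ^ 3 := one_le_pow₀ h1
    linarith
  -- a minimal winning set
  have hne : ∃ J : Finset (Fin 8), hi < (2 : ℝ) ^ (∑ i ∈ J, e i) := ⟨univ, c1 univ hlo⟩
  obtain ⟨J, hJ⟩ := hne
  induction J using Finset.strongInduction with
  | H J ih =>
    -- J is nonempty
    have hJne : J.Nonempty := by
      rw [Finset.nonempty_iff_ne_empty]
      rintro rfl
      rw [Finset.sum_empty, pow_zero] at hJ
      linarith
    obtain ⟨m, hm, hmin⟩ := Finset.exists_min_image J e hJne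
    have hlt : J.erase m ⊂ J := Finset.erase_ssubset hm
    by_cases hw : hi < (2 : ℝ) ^ (∑ i ∈ J.erase m, e i)
    · exact ih _ hlt hw
    · rw [not_lt] at hw
      have hl : (2 : ℝ) ^ (∑ i ∈ J.erase m, e i) < lo := by
        by_contra hc
        rw [not_lt] at hc
        have := c1 _ hc
        linarith
      have hsum : ∑ i ∈ J, e i = e m + ∑ i ∈ J.erase m, e i := (Finset.add_sum_erase J e hm).symm
      rcases Nat.lt_or_ge (J.erase m).card 2 with hcard | hcard
      · -- at most two elements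
        rcases Nat.lt_or_ge (J.erase m).card 1 with hc0 | hc1
        · have hemp : J.erase m = ∅ := Finset.card_eq_zero.1 (by omega)
          rw [hsum, hemp, Finset.sum_empty, add_zero] at hJ
          have := c2 m
          linarith
        · obtain ⟨i, hi'⟩ := Finset.card_eq_one.1 (by omega : (J.erase m).card = 1)
          have himem : i ∈ J.erase m := by rw [hi']; exact Finset.mem_singleton_self i
          rw [hsum, hi', Finset.sum_singleton] at hJ
          have hne' : i ≠ m := Finset.ne_of_mem_erase himem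
          have hle := hmin i (Finset.mem_of_mem_erase himem)
          have := c3 i m hne' hle
          rw [add_comm] at hJ
          linarith
      · -- at least three elements
        have h2 : 2 * e m ≤ ∑ i ∈ J.erase m, e i := by
          calc 2 * e m ≤ (J.erase m).card * e m := Nat.mul_le_mul_right _ hcard
            _ = ∑ _i ∈ J.erase m, e m := by rw [Finset.sum_const, smul_eq_mul]
            _ ≤ ∑ i ∈ J.erase m, e i :=
                Finset.sum_le_sum fun i hi' => hmin i (Finset.mem_of_mem_erase hi')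
        have h4 : (2 : ℝ) ^ (2 * ∑ i ∈ J, e i) ≤ (2 : ℝ) ^ (3 * ∑ i ∈ J.erase m, e i) :=
          pow_le_pow_right₀ (by norm_num) (by omega)
        have h5 : ((2 : ℝ) ^ (∑ i ∈ J.erase m, e i)) ^ 3 < lo ^ 3 :=
          pow_lt_pow_left₀ hl (by positivity) (by norm_num)
        have h6 : hi ^ 2 < ((2 : ℝ) ^ (∑ i ∈ J, e i)) ^ 2 :=
          pow_lt_pow_left₀ hJ h0 (by norm_num)
        rw [← pow_mul, mul_comm] at h5 h6
        linarith

end Pool.Agent.H67.PS
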