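import Pool.Agent.H67.PS.Poly
import Pool.Agent.H98.PK.Coj

/-!
# [H67 PS COJ] Coefficients of partial products of the eight factors

As `H98.PK.Coj`.
-/

namespace Pool.Agent.H67.PS

open Finset
open Pool.Agent.H43.SI (af pol)
open Pool.Agent.H98.PK (ex c1)

private theorem coj_tau (j : ℕ) : ∀ n : ℕ, n ≠ 0 →
    ((ArithmeticFunction.zeta : ArithmeticFunction ℕ) ^ j) n ≤ n.divisors.card ^ j := by
  induction j with
  | zero =>
    intro n hn
    rw [pow_zero, pow_zero]
    by_cases h : n = 1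
    · subst h; simp
    · rw [ArithmeticFunction.one_apply_ne h]; simp
  | succ j ih =>
    intro n hn
    rw [pow_succ' (ArithmeticFunction.zeta : ArithmeticFunction ℕ), ArithmeticFunction.mul_apply]
    calc ∑ x ∈ n.divisorsAntidiagonal, (ArithmeticFunction.zeta x.1) *
          ((ArithmeticFunction.zeta : ArithmeticFunction ℕ) ^ j) x.2
        ≤ ∑ _x ∈ n.divisorsAntidiagonal, n.divisors.card ^ j := by
          refine Finset.sum_le_sum fun x hx => ?_
          obtain ⟨h1, h2⟩ := Nat.mem_divisorsAntidiagonal.1 hx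
          have hx1 : x.1 ≠ 0 := by
            rintro h0
            rw [h0, zero_mul] at h1
            exact h2 h1.symm
          have hx2 : x.2 ≠ 0 := by
            rintro h0
            rw [h0, mul_zero] at h1
            exact h2 h1.symm
          rw [ArithmeticFunction.zeta_apply_ne hx1, one_mul]
          refine (ih x.2 hx2).trans (Nat.pow_le_pow_left ?_ j)
          apply Finset.card_le_card
          exact Nat.divisors_subset_of_dvd hn ⟨x.1, by rw [← h1, mul_comm]⟩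
      _ = n.divisors.card ^ (j + 1) := by
          rw [Finset.sum_const, smul_eq_mul, pow_succ']
          congr 1
          rw [← Nat.map_div_right_divisors, Finset.card_map]

private theorem coj_cpow (n : ℕ) (hn : n ≠ 0) (t : ℝ) :
    (n : ℂ) ^ (-(1 + (t : ℂ) * Complex.I)) = (n : ℂ)⁻¹ * ex (-(t * Real.log n)) := by
  have hn0 : (n : ℂ) ≠ 0 := Nat.cast_ne_zero.2 hn
  rw [neg_add, Complex.cpow_add _ _ hn0, Complex.cpow_neg_one]
  congr 1
  rw [Complex.cpow_def_of_ne_zero hn0, ← Complex.natCast_log]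
  unfold ex
  congr 1
  push_cast
  ring

theorem coj (ε : ℝ) (hε : 0 < ε) : ∃ C : ℝ, 0 < C ∧ ∀ (e : Fin 8 → ℕ) (J : Finset (Fin 8)),
    ∃ a : ℕ → ℂ, (∀ n ∈ Icc 1 (2 ^ (∑ i ∈ J, e i)), ‖a n‖ ≤ C * ((2 : ℝ) ^ (∑ i ∈ J, e i)) ^ (ε - 1)) ∧
      ∀ t : ℝ, ∏ i ∈ J, pol (cf c1 i) (e i) t =
        ∑ n ∈ Icc 1 (2 ^ (∑ i ∈ J, e i)), a n * ex (-(t * Real.log n)) := by
  obtain ⟨C0, hC0, hdiv⟩ := H5.W.divisor_bound (ε / 16) (by positivity)
  set C1 : ℝ := max C0 1 with hC1
  have hC11 : 1 ≤ C1 := le_max_right _ _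
  set κ : ℝ := ε / 16 * Real.log 2 with hκ
  have hlog2 : 0 < Real.log 2 := Real.log_pos (by norm_num)
  have hκ0 : 0 < κ := by positivity
  set C3 : ℝ := 1 + 1 / κ with hC3
  have hC31 : 1 ≤ C3 := by
    have : 0 < 1 / κ := by positivity
    linarith
  refine ⟨256 * C1 ^ 8 * C3 ^ 8, by positivity, ?_⟩
  intro e J
  set S : ℕ := ∑ i ∈ J, e i with hS
  set g := ∏ i ∈ J, af (cf c1 i) (e i) with hg
  have hr : J.card ≤ 8 := by
    have := J.card_le_univ
    simpa using this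
  have hX : (0 : ℝ) < 2 ^ S := by positivity
  have hX1 : (1 : ℝ) ≤ 2 ^ S := one_le_pow₀ (by norm_num)
  set Y : ℝ := ((2 : ℝ) ^ S) ^ (ε / 16) with hY
  have hY1 : 1 ≤ Y := Real.one_le_rpow hX1 (by positivity)
  have hYe : Y = Real.exp ((S : ℝ) * κ) := by
    rw [hY, Real.rpow_def_of_pos hX, Real.log_pow, hκ]
    congr 1
    ring
  have hSY : 1 + (S : ℝ) ≤ C3 * Y := by
    have h1 : (S : ℝ) * κ + 1 ≤ Y := by
      rw [hYe]
      exact Real.add_one_le_exp _
    have hS0 : (0 : ℝ) ≤ S := Nat.cast_nonneg S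
    calc 1 + (S : ℝ) ≤ C3 * ((S : ℝ) * κ + 1) := by
          rw [hC3]
          have : (1 + 1 / κ) * ((S : ℝ) * κ + 1) = 1 + (S : ℝ) + (S : ℝ) * κ + 1 / κ := by
            field_simp
            ring
          rw [this]
          have h2 : 0 ≤ (S : ℝ) * κ := by positivity
          have h3 : 0 < 1 / κ := by positivity
          linarith
      _ ≤ C3 * Y := mul_le_mul_of_nonneg_left h1 (by linarith)
  refine ⟨fun n => g n * (n : ℂ)⁻¹, ?_, ?_⟩
  · intro n hn
    rw [mem_Icc] at hn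
    have hnp : (0 : ℝ) < n := by exact_mod_cast hn.1
    have hn0 : n ≠ 0 := by omega
    show ‖g n * (n : ℂ)⁻¹‖ ≤ _
    by_cases h0 : g n = 0
    · rw [h0, zero_mul, norm_zero]
      positivity
    · obtain ⟨a1, a2, a3⟩ := mvp_supp c1 e J n h0
      have h4 : ((n : ℝ))⁻¹ ≤ 256 / 2 ^ S := by
        rw [inv_le_comm₀ hnp (by positivity), inv_div, div_le_iff₀ (by norm_num)]
        have h5 : (2 : ℝ) ^ S ≤ 2 ^ J.card * n := by exact_mod_cast a3
        have h6 : (2 : ℝ) ^ J.card ≤ 2 ^ 8 := pow_le_pow_right₀ (by norm_num) hr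
        calc (2 : ℝ) ^ S ≤ 2 ^ J.card * n := h5
          _ ≤ 2 ^ 8 * n := mul_le_mul_of_nonneg_right h6 hnp.le
          _ = n * 256 := by ring
      have h7 := mvp_bound c1 e J n
      rw [← hg, ← hS] at h7
      have hd : (n.divisors.card : ℝ) ≤ C1 * Y := by
        refine (hdiv n hn.1).trans ?_
        have hn2 : (n : ℝ) ≤ 2 ^ S := by exact_mod_cast hn.2
        calc C0 * (n : ℝ) ^ (ε / 16) ≤ C1 * (n : ℝ) ^ (ε / 16) :=
              mul_le_mul_of_nonneg_right (le_max_left _ _) (by positivity)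
          _ ≤ C1 * Y := by
              apply mul_le_mul_of_nonneg_left _ (by linarith)
              exact Real.rpow_le_rpow hnp.le hn2 (by positivity)
      have h1CY : 1 ≤ C1 * Y := one_le_mul_of_one_le_of_one_le hC11 hY1
      have h1C3Y : 1 ≤ C3 * Y := one_le_mul_of_one_le_of_one_le hC31 hY1
      have hτ : ((((ArithmeticFunction.zeta : ArithmeticFunction ℕ) ^ J.card) n : ℕ) : ℝ) ≤
          (C1 * Y) ^ 8 := by
        calc ((((ArithmeticFunction.zeta : ArithmeticFunction ℕ) ^ J.card) n : ℕ) : ℝ)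
            ≤ ((n.divisors.card ^ J.card : ℕ) : ℝ) := by exact_mod_cast coj_tau J.card n hn0
          _ = (n.divisors.card : ℝ) ^ J.card := by push_cast; rfl
          _ ≤ (C1 * Y) ^ J.card := pow_le_pow_left₀ (Nat.cast_nonneg _) hd _
          _ ≤ (C1 * Y) ^ 8 := pow_le_pow_right₀ h1CY hr
      have hS6 : (1 + (S : ℝ)) ^ J.card ≤ (C3 * Y) ^ 8 := by
        calc (1 + (S : ℝ)) ^ J.card ≤ (C3 * Y) ^ J.card :=
              pow_le_pow_left₀ (by positivity) hSY _
          _ ≤ (C3 * Y) ^ 8 := pow_le_pow_right₀ h1C3Y hr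
      have h8 : ‖g n‖ ≤ (C3 * Y) ^ 8 * (C1 * Y) ^ 8 :=
        h7.trans (mul_le_mul hS6 hτ (Nat.cast_nonneg _) (by positivity))
      have hY16 : Y ^ 16 = ((2 : ℝ) ^ S) ^ ε := by
        rw [hY, ← Real.rpow_natCast, ← Real.rpow_mul hX.le]
        congr 1
        push_cast
        ring
      rw [norm_mul, norm_inv, Complex.norm_natCast]
      calc ‖g n‖ * (n : ℝ)⁻¹ ≤ ((C3 * Y) ^ 8 * (C1 * Y) ^ 8) * (256 / 2 ^ S) :=
            mul_le_mul h8 h4 (by positivity) (by positivity)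
        _ = 256 * C1 ^ 8 * C3 ^ 8 * (Y ^ 16 / 2 ^ S) := by ring
        _ = 256 * C1 ^ 8 * C3 ^ 8 * ((2 : ℝ) ^ S) ^ (ε - 1) := by
            rw [hY16, Real.rpow_sub hX, Real.rpow_one]
  · intro t
    rw [mvp_series]
    refine sum_congr rfl fun n hn => ?_
    rw [mem_Icc] at hn
    rw [coj_cpow n (by omega) t, ← mul_assoc]

end Pool.Agent.H67.PS
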