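import Pool.Agent.H67.PS.Hb
import Pool.Agent.H43.SI.Poly
import Pool.Agent.H43.SI.Mvp
import Pool.Agent.H98.PK.Smo

/-!
# [H67 PS POLY] The box functions (eight factors) and their Dirichlet polynomials

As `H43.SI.Poly`, `H43.SI.Mvp`, with eight factors. `cf χ i` is one of the functions `SI.cf χ j` (`ph`), so the bounds for one factor carry over.
-/

namespace Pool.Agent.H67.PS

open Finset
open Pool.Agent.H43.SI (PolyS polyS_mul polyS_af poly_summable poly_LSeries poly_af af pol mvp_ls mvp_af_supp mvp_pol)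
open Pool.Agent.H98.PK (c1)

/-- the corresponding index of the identity with six factors -/
def ph (i : Fin 8) : Fin 6 := if (i : ℕ) < 4 then 0 else if (i : ℕ) = 4 then 3 else 4

theorem cf_eq {q : ℕ} (χ : DirichletCharacter ℂ q) (i : Fin 8) : cf χ i = H43.SI.cf χ (ph i) := by
  funext n
  unfold cf H43.SI.cf ph
  by_cases h1 : (i : ℕ) < 4
  · simp [h1]
  · by_cases h2 : (i : ℕ) = 4
    · simp [h2]
    · simp [h1, h2]

theorem ph_smooth (i : Fin 8) (hi : 4 ≤ (i : ℕ)) : 3 ≤ ((ph i : Fin 6) : ℕ) := by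
  unfold ph
  rw [if_neg (by omega)]
  split_ifs <;> decide

theorem polyS_bf {q : ℕ} (χ : DirichletCharacter ℂ q) (e : Fin 8 → ℕ) :
    PolyS (bf χ e) 256 (2 ^ (∑ i, e i)) := by
  have h := polyS_mul (polyS_mul (polyS_mul (polyS_mul (polyS_mul (polyS_mul (polyS_mul
    (polyS_af (cf χ 0) (e 0)) (polyS_af (cf χ 1) (e 1))) (polyS_af (cf χ 2) (e 2)))
    (polyS_af (cf χ 3) (e 3))) (polyS_af (cf χ 4) (e 4))) (polyS_af (cf χ 5) (e 5)))
    (polyS_af (cf χ 6) (e 6))) (polyS_af (cf χ 7) (e 7))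
  rw [← pow_add, ← pow_add, ← pow_add, ← pow_add, ← pow_add, ← pow_add, ← pow_add] at h
  rw [Fin.sum_univ_eight]
  exact h

theorem bf_supp {q : ℕ} (χ : DirichletCharacter ℂ q) (e : Fin 8 → ℕ) (n : ℕ)
    (h : bf χ e n ≠ 0) : 1 ≤ n ∧ n ≤ 2 ^ (∑ i, e i) ∧ 2 ^ (∑ i, e i) ≤ 256 * n :=
  polyS_bf χ e n h

theorem bf_poly {q : ℕ} (χ : DirichletCharacter ℂ q) (e : Fin 8 → ℕ) (t : ℝ) :
    ∑ n ∈ Icc 1 (2 ^ (∑ i, e i)), bf χ e n * (n : ℂ) ^ (-(1 + (t : ℂ) * Complex.I)) =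
      bp χ e t := by
  rw [← poly_LSeries (polyS_bf χ e)]
  unfold bp bf
  have s0 := polyS_af (cf χ 0) (e 0)
  have s1 := polyS_mul s0 (polyS_af (cf χ 1) (e 1))
  have s2 := polyS_mul s1 (polyS_af (cf χ 2) (e 2))
  have s3 := polyS_mul s2 (polyS_af (cf χ 3) (e 3))
  have s4 := polyS_mul s3 (polyS_af (cf χ 4) (e 4))
  have s5 := polyS_mul s4 (polyS_af (cf χ 5) (e 5))
  have s6 := polyS_mul s5 (polyS_af (cf χ 6) (e 6))
  rw [ArithmeticFunction.LSeries_mul' (poly_summable s6 _)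
      (poly_summable (polyS_af (cf χ 7) (e 7)) _),
    ArithmeticFunction.LSeries_mul' (poly_summable s5 _)
      (poly_summable (polyS_af (cf χ 6) (e 6)) _),
    ArithmeticFunction.LSeries_mul' (poly_summable s4 _)
      (poly_summable (polyS_af (cf χ 5) (e 5)) _),
    ArithmeticFunction.LSeries_mul' (poly_summable s3 _)
      (poly_summable (polyS_af (cf χ 4) (e 4)) _),
    ArithmeticFunction.LSeries_mul' (poly_summable s2 _)
      (poly_summable (polyS_af (cf χ 3) (e 3)) _),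
    ArithmeticFunction.LSeries_mul' (poly_summable s1 _)
      (poly_summable (polyS_af (cf χ 2) (e 2)) _),
    ArithmeticFunction.LSeries_mul' (poly_summable s0 _)
      (poly_summable (polyS_af (cf χ 1) (e 1)) _), Fin.prod_univ_eight]
  simp only [poly_af]

theorem mvp_supp {q : ℕ} (χ : DirichletCharacter ℂ q) (e : Fin 8 → ℕ) (s : Finset (Fin 8)) :
    ∀ n, (∏ i ∈ s, af (cf χ i) (e i)) n ≠ 0 →
      1 ≤ n ∧ n ≤ 2 ^ (∑ i ∈ s, e i) ∧ 2 ^ (∑ i ∈ s, e i) ≤ 2 ^ s.card * n := by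
  induction s using Finset.induction_on with
  | empty =>
    intro n hn
    rw [Finset.prod_empty] at hn
    have : n = 1 := by
      by_contra h
      exact hn (ArithmeticFunction.one_apply_ne h)
    subst this
    simp
  | insert i s hi ih =>
    intro n hn
    rw [Finset.prod_insert hi, ArithmeticFunction.mul_apply] at hn
    obtain ⟨x, hx, hx0⟩ := Finset.exists_ne_zero_of_sum_ne_zero hn
    obtain ⟨h1, h2⟩ := Nat.mem_divisorsAntidiagonal.1 hx
    obtain ⟨a1, a2, a3⟩ := mvp_af_supp _ _ _ (left_ne_zero_of_mul hx0)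
    obtain ⟨b1, b2, b3⟩ := ih _ (right_ne_zero_of_mul hx0)
    rw [Finset.sum_insert hi, Finset.card_insert_of_notMem hi, ← h1]
    refine ⟨Nat.mul_pos a1 b1, ?_, ?_⟩
    · rw [pow_add]
      exact Nat.mul_le_mul a2 b2
    · calc 2 ^ (e i + ∑ i ∈ s, e i) = 2 ^ e i * 2 ^ (∑ i ∈ s, e i) := pow_add _ _ _
        _ ≤ (2 * x.1) * (2 ^ s.card * x.2) := Nat.mul_le_mul a3 b3
        _ = 2 ^ (s.card + 1) * (x.1 * x.2) := by rw [pow_succ]; ring


theorem mvp_series {q : ℕ} (χ : DirichletCharacter ℂ q) (e : Fin 8 → ℕ) (s : Finset (Fin 8))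
    (t : ℝ) : ∏ i ∈ s, pol (cf χ i) (e i) t =
      ∑ n ∈ Icc 1 (2 ^ (∑ i ∈ s, e i)), (∏ i ∈ s, af (cf χ i) (e i)) n *
        (n : ℂ) ^ (-(1 + (t : ℂ) * Complex.I)) := by
  have key : ∏ i ∈ s, pol (cf χ i) (e i) t =
      LSeries (fun n => (∏ i ∈ s, af (cf χ i) (e i)) n) (1 + (t : ℂ) * Complex.I) := by
    induction s using Finset.induction_on with
    | empty =>
      rw [Finset.prod_empty, Finset.prod_empty]
      rw [(mvp_ls 1 1 (fun n hn => by
        by_contra h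
        exact hn (ArithmeticFunction.one_apply_ne (by omega))) _).2]
      simp
    | insert i s hi ih =>
      rw [Finset.prod_insert hi, Finset.prod_insert hi, ih, mvp_pol]
      have h1 := (mvp_ls (af (cf χ i) (e i)) (2 ^ e i)
        (fun n hn => (mvp_af_supp _ _ n hn).2.1) (1 + (t : ℂ) * Complex.I)).1
      have h2 := (mvp_ls (∏ i ∈ s, af (cf χ i) (e i)) (2 ^ (∑ i ∈ s, e i))
        (fun n hn => (mvp_supp χ e s n hn).2.1) (1 + (t : ℂ) * Complex.I)).1
      exact (ArithmeticFunction.LSeries_mul' h1 h2).symm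
  rw [key, (mvp_ls _ (2 ^ (∑ i ∈ s, e i)) (fun n hn => (mvp_supp χ e s n hn).2.1) _).2]


theorem mvp_cf {q : ℕ} (χ : DirichletCharacter ℂ q) (i : Fin 8) (a n : ℕ) (hn : 1 ≤ n)
    (hna : n ≤ 2 ^ a) : ‖cf χ i n‖ ≤ 1 + a := by
  have hχ : ‖χ n‖ ≤ 1 := χ.norm_le_one _
  have ha : (0 : ℝ) ≤ a := Nat.cast_nonneg a
  unfold cf
  split_ifs with h1 h2
  · rw [norm_mul]
    have h3 : ‖((ArithmeticFunction.moebius n : ℤ) : ℂ)‖ ≤ 1 := by
      rw [Complex.norm_intCast]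
      exact_mod_cast ArithmeticFunction.abs_moebius_le_one
    calc _ ≤ 1 * 1 := mul_le_mul h3 hχ (norm_nonneg _) zero_le_one
      _ ≤ 1 + (a : ℝ) := by linarith
  · rw [norm_mul, Complex.norm_real, Real.norm_eq_abs]
    have h3 : 0 ≤ Real.log n := Real.log_nonneg (by exact_mod_cast hn)
    have h4 : Real.log n ≤ a := by
      calc Real.log n ≤ Real.log (2 ^ a) := Real.log_le_log (by exact_mod_cast hn)
            (by exact_mod_cast hna)
        _ = a * Real.log 2 := Real.log_pow _ _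
        _ ≤ a * 1 := mul_le_mul_of_nonneg_left (by
            have := Real.log_two_lt_d9; linarith) ha
        _ = a := mul_one _
    rw [abs_of_nonneg h3]
    calc ‖χ n‖ * Real.log n ≤ 1 * a := mul_le_mul hχ h4 h3 zero_le_one
      _ ≤ 1 + (a : ℝ) := by linarith
  · linarith


theorem mvp_bound {q : ℕ} (χ : DirichletCharacter ℂ q) (e : Fin 8 → ℕ) (s : Finset (Fin 8)) :
    ∀ n, ‖(∏ i ∈ s, af (cf χ i) (e i)) n‖ ≤ (1 + ((∑ i ∈ s, e i : ℕ) : ℝ)) ^ s.card *
      ((((ArithmeticFunction.zeta : ArithmeticFunction ℕ) ^ s.card) n : ℕ) : ℝ) := by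
  induction s using Finset.induction_on with
  | empty =>
    intro n
    rw [Finset.prod_empty, Finset.card_empty, pow_zero, pow_zero, one_mul]
    by_cases h : n = 1
    · subst h; simp
    · rw [ArithmeticFunction.one_apply_ne h, ArithmeticFunction.one_apply_ne h]; simp
  | insert i s hi ih =>
    intro n
    rw [Finset.prod_insert hi, ArithmeticFunction.mul_apply, Finset.card_insert_of_notMem hi,
      pow_succ' (ArithmeticFunction.zeta : ArithmeticFunction ℕ), ArithmeticFunction.mul_apply,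
      Finset.sum_insert hi]
    push_cast
    rw [Finset.mul_sum]
    refine (norm_sum_le _ _).trans (Finset.sum_le_sum fun x hx => ?_)
    obtain ⟨h1, h2⟩ := Nat.mem_divisorsAntidiagonal.1 hx
    have hx1 : x.1 ≠ 0 := by
      rintro h0
      rw [h0, zero_mul] at h1
      exact h2 h1.symm
    rw [norm_mul, ArithmeticFunction.zeta_apply_ne hx1, Nat.cast_one, one_mul]
    set S : ℝ := ∑ i ∈ s, (e i : ℝ) with hS
    have hS0 : 0 ≤ S := Finset.sum_nonneg fun _ _ => Nat.cast_nonneg _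
    have he0 : (0 : ℝ) ≤ e i := Nat.cast_nonneg _
    have hA : ‖af (cf χ i) (e i) x.1‖ ≤ 1 + ((e i : ℝ) + S) := by
      show ‖(if x.1 ∈ Ioc (2 ^ e i / 2) (2 ^ e i) then cf χ i x.1 else 0)‖ ≤ _
      split_ifs with h
      · rw [Finset.mem_Ioc] at h
        have := mvp_cf χ i (e i) x.1 (Nat.pos_of_ne_zero hx1) h.2
        linarith
      · rw [norm_zero]; linarith
    have hB := ih x.2
    push_cast at hB
    rw [← hS] at hB
    have hz : (0 : ℝ) ≤ ((((ArithmeticFunction.zeta : ArithmeticFunction ℕ) ^ s.card) x.2 : ℕ) : ℝ) :=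
      Nat.cast_nonneg _
    calc ‖af (cf χ i) (e i) x.1‖ * ‖(∏ i ∈ s, af (cf χ i) (e i)) x.2‖
        ≤ (1 + ((e i : ℝ) + S)) * ((1 + S) ^ s.card *
          ((((ArithmeticFunction.zeta : ArithmeticFunction ℕ) ^ s.card) x.2 : ℕ) : ℝ)) :=
          mul_le_mul hA hB (norm_nonneg _) (by linarith)
      _ ≤ (1 + ((e i : ℝ) + S)) * ((1 + ((e i : ℝ) + S)) ^ s.card *
          ((((ArithmeticFunction.zeta : ArithmeticFunction ℕ) ^ s.card) x.2 : ℕ) : ℝ)) := by
          gcongr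
          linarith
      _ = _ := by rw [pow_succ]; ring


theorem pw_triv8 {q : ℕ} (χ : DirichletCharacter ℂ q) (i : Fin 8) (a : ℕ) (t : ℝ) :
    ‖pol (cf χ i) a t‖ ≤ 1 + a := by
  rw [cf_eq]
  exact H43.SI.pw_triv χ (ph i) a t

theorem smo8 : ∃ C : ℝ, 0 < C ∧ ∀ (i : Fin 8) (a : ℕ) (t : ℝ), 4 ≤ (i : ℕ) → 1 ≤ |t| →
    |t| ≤ (2 : ℝ) ^ a / 2 → ‖pol (cf c1 i) a t‖ ≤ C * (1 + a) / |t| := by
  obtain ⟨C, hC, h⟩ := H98.PK.smo
  refine ⟨C, hC, fun i a t hi h1 h2 => ?_⟩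
  rw [cf_eq]
  exact h (ph i) a t (ph_smooth i hi) h1 h2

end Pool.Agent.H67.PS
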