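import Pool.Agent.H98.PR.Par
import Pool.Agent.H67.PS.Poly

/-!
# Primes behind the points `λ m^κ`, range `X^(3/5)/M` (H67/PS): definitions and plan

Version of H98/PR with Heath-Brown's identity with `K = 4` (eight factors). `κ > 0` real, `λ > 0` real, `X = λ M^κ ∈ [M^(1+δ), M^A]`. THEOREM
(`Fin`): for `M^ε max((X/M)^(1/2), X^(3/5)/M) <= H <= X` at least `c M` of the `m <= M` have at least `c H/log M` primes in
`(λ m^κ, λ m^κ + H]`.

NOTATION as in H98/PR. `V = vv δ M X = min((X M^(1-δ/2))^(1/2), X^(2/5) M^(1-δ/8))`, `C1 = cc k0 r = 2^(k0(r+2)+11)`, identity up to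
`Nm = 2^(4b)`, `b = bh k0 r X`, `C1 X <= Nm <= 16 C1 X`. Boxes `e` with `2^S` outside `[X/C1, C1 X]` are far away (`Far`). For the others, with
`lo = V M^(-1+δ/8) <= X^(2/5)`, `hi = X M^(1-δ/8)/V >= X^(3/5)`:
* some `J` has `lo <= 2^(S_J) <= hi`: `Tii`;
* a smooth factor is `> hi`: `Ti`;
* otherwise (`Cmb`) three factors `i, j, k` have all pairs `> hi`; then `2^(e_i), 2^(e_j) > X^(3/10)` are smooth (`Tri`, with the mean square
  of the product of two smooth polynomials, `Fz`).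
-/

namespace Pool.Agent.H67.PS

open Finset

/-- the constant `C1` -/
def cc (k0 r : ℕ) : ℕ := 2 ^ (k0 * (r + 2) + 11)

/-- the size of the two groups -/
noncomputable def vv (δ : ℝ) (M : ℕ) (X : ℝ) : ℝ :=
  min (Real.sqrt (X * (M : ℝ) ^ (1 - δ / 2))) (X ^ ((2 : ℝ) / 5) * (M : ℝ) ^ (1 - δ / 8))

/-- the exponent in Heath-Brown's identity -/
noncomputable def bh (k0 r : ℕ) (X : ℝ) : ℕ := ⌈Real.logb 2 ((cc k0 r : ℝ) * X) / 4⌉₊

end Pool.Agent.H67.PS
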