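import Pool.Agent.H67.PS.Ti
import Pool.Agent.H98.PR.Far

/-!
# [H67 PS FAR] Boxes far from the points `λ m^κ`

As `H98.PR.Far`, eight factors.
-/

namespace Pool.Agent.H67.PS

open Finset
open Pool.Agent.H98.PK (ex tup mv Bx c1 qd tup_card mv_bounds far_aux far_T)
open Pool.Agent.H98.PR (Px cp cpx rng W tl exp_small)

private theorem far_zeta (k : ℕ) : ∀ n,
    ((ArithmeticFunction.zeta : ArithmeticFunction ℕ) ^ k) n ≤ n ^ k := by
  induction k with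
  | zero =>
    intro n
    rw [pow_zero, pow_zero]
    by_cases h : n = 1
    · subst h; simp
    · rw [ArithmeticFunction.one_apply_ne h]; exact Nat.zero_le _
  | succ k ih =>
    intro n
    rw [pow_succ' (ArithmeticFunction.zeta : ArithmeticFunction ℕ), ArithmeticFunction.mul_apply]
    have h1 : ∀ x ∈ n.divisorsAntidiagonal, ArithmeticFunction.zeta x.1 *
        ((ArithmeticFunction.zeta : ArithmeticFunction ℕ) ^ k) x.2 ≤ n ^ k := by
      intro x hx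
      obtain ⟨h1, h2⟩ := Nat.mem_divisorsAntidiagonal.1 hx
      have hx1 : x.1 ≠ 0 := by
        rintro h0
        rw [h0, zero_mul] at h1
        exact h2 h1.symm
      rw [ArithmeticFunction.zeta_apply_ne hx1, one_mul]
      refine (ih x.2).trans (Nat.pow_le_pow_left ?_ k)
      rw [← h1]
      exact Nat.le_mul_of_pos_left _ (Nat.pos_of_ne_zero hx1)
    refine (sum_le_card_nsmul _ _ _ h1).trans ?_
    rw [smul_eq_mul, pow_succ, mul_comm]
    refine Nat.mul_le_mul_left _ ?_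
    refine le_trans (card_le_card_of_injOn (fun x : ℕ × ℕ => x.1) (t := n.divisors) ?_ ?_)
      (Nat.card_divisors_le_self n)
    · intro x hx
      exact Nat.fst_mem_divisors_of_mem_antidiagonal hx
    · intro x hx y hy hxy
      rw [mem_coe, Nat.mem_divisorsAntidiagonal] at hx hy
      dsimp only at hxy
      have hx1 : x.1 ≠ 0 := by
        intro h0
        rw [h0, zero_mul] at hx
        exact hx.2 hx.1.symm
      refine Prod.ext hxy (Nat.eq_of_mul_eq_mul_left (Nat.pos_of_ne_zero hx1) ?_)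
      rw [hx.1, hxy, hy.1]

theorem far_bf (e : Fin 8 → ℕ) (n : ℕ) :
    ‖bf c1 e n‖ ≤ (1 + ((∑ i, e i : ℕ) : ℝ)) ^ 8 * (n : ℝ) ^ 8 := by
  have h1 := mvp_bound c1 e univ n
  rw [Fin.prod_univ_eight, card_univ, Fintype.card_fin] at h1
  refine h1.trans (mul_le_mul_of_nonneg_left ?_
    (pow_nonneg (add_nonneg zero_le_one (Nat.cast_nonneg _)) 8))
  exact_mod_cast far_zeta 8 n

private theorem far_xi {κ β δ : ℝ} {k0 D r M N : ℕ} {X : ℝ} {F : Fin r → ℕ} {P : Fin r → Finset ℕ}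
    (hX : Px κ δ k0 D M X) (hδ : 0 ≤ δ)
    (h : Bx β M N F P) (x : ℕ × (Fin r → ℕ)) (hx : x ∈ tup N P) {n S : ℕ} (hn : 1 ≤ n)
    (hn1 : n ≤ 2 ^ S) (hn2 : 2 ^ S ≤ 256 * n) (hS : ¬ (X ≤ cc k0 r * 2 ^ S ∧
      2 ^ S ≤ cc k0 r * X)) {τ : ℝ} (h0 : tl κ M X ≤ τ) (h1 : τ ≤ tl κ M X + 1) :
    1 ≤ |Real.log n - κ * Real.log (mv x) - τ| := by
  obtain ⟨hm1, hm2, hm3⟩ := mv_bounds h x hx
  obtain ⟨m, hm⟩ : ∃ m, m = mv x := ⟨_, rfl⟩
  rw [← hm] at hm1 hm2 hm3 ⊢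
  have hM1 : 1 ≤ M := hm1.trans hm3
  have hX1 : 1 ≤ X := hX.X1 hM1 hδ
  have hn0 : (0 : ℝ) < n := by exact_mod_cast hn
  have hm0 : (0 : ℝ) < m := by exact_mod_cast hm1
  have hM0 : (0 : ℝ) < M := by exact_mod_cast hM1
  have hl2 := Real.log_two_gt_d9
  have hk := hX.k1
  have hk2 := hX.k2
  unfold tl at h0 h1
  -- `log(M/m)`
  have hlm : Real.log m ≤ Real.log M := Real.log_le_log hm0 (by exact_mod_cast hm3)
  have hlm2 : Real.log M ≤ (r + 2) * Real.log 2 + Real.log m := by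
    have h2 : (M : ℝ) ≤ 2 ^ (r + 2) * m := by exact_mod_cast hm2
    have h3 := Real.log_le_log hM0 h2
    rw [Real.log_mul (by positivity) hm0.ne', Real.log_pow] at h3
    push_cast at h3
    exact h3
  have e1 : κ * Real.log m ≤ κ * Real.log M := mul_le_mul_of_nonneg_left hlm hk.le
  have e2 : κ * Real.log M - κ * Real.log m ≤ k0 * ((r + 2) * Real.log 2) := by
    rw [← mul_sub]
    refine mul_le_mul hk2 (by linarith) (by linarith) (Nat.cast_nonneg _)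
  have hlc : Real.log (cc k0 r) = (k0 * (r + 2) + 11) * Real.log 2 := by
    unfold cc
    push_cast
    rw [Real.log_pow]
    push_cast
    ring
  have hc0 : (0 : ℝ) < cc k0 r := by
    have := cc_pos k0 r
    linarith
  rw [not_and_or, not_le, not_le] at hS
  rcases hS with hS | hS
  · have h3 : (cc k0 r : ℝ) * n ≤ X := by
      refine le_trans (mul_le_mul_of_nonneg_left ?_ hc0.le) hS.le
      exact_mod_cast hn1
    have h4 := Real.log_le_log (by positivity) h3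
    rw [Real.log_mul hc0.ne' hn0.ne', hlc] at h4
    rw [abs_of_nonpos (by nlinarith)]
    nlinarith
  · have h3 : (cc k0 r : ℝ) * X ≤ 256 * n := by
      refine hS.le.trans ?_
      exact_mod_cast hn2
    have h4 := Real.log_le_log (by positivity) h3
    have h256 : Real.log 256 = 8 * Real.log 2 := by
      rw [show (256 : ℝ) = 2 ^ 8 by norm_num, Real.log_pow]
      norm_num
    rw [Real.log_mul hc0.ne' (by linarith), hlc, Real.log_mul (by norm_num) hn0.ne', h256] at h4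
    have h5 : 0 ≤ (k0 : ℝ) * (r + 2) * Real.log 2 := by positivity
    rw [abs_of_nonneg (by nlinarith)]
    nlinarith

private theorem far_W {κ β δ : ℝ} {k0 D r M N : ℕ} {X : ℝ} {F : Fin r → ℕ} {P : Fin r → Finset ℕ}
    (hX : Px κ δ k0 D M X) (hδ : 0 ≤ δ)
    (h : Bx β M N F P) (e : Fin 8 → ℕ) (Nm S : ℕ) (hSe : ∑ i, e i = S)
    (hS : ¬ (X ≤ cc k0 r * 2 ^ S ∧ 2 ^ S ≤ cc k0 r * X))
    {T τ : ℝ} (hT : 0 ≤ T) (h0 : tl κ M X ≤ τ) (h1 : τ ≤ tl κ M X + 1) :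
    ‖(T : ℂ) * W κ (fun n => bf c1 e n) Nm N P T τ‖ ≤
      T * ((Nm : ℝ) * ((1 + (S : ℝ)) ^ 8 * (Nm : ℝ) ^ 8 *
        (M * Real.exp (-T ^ 2)))) := by
  have hS0 : (0 : ℝ) ≤ 1 + (S : ℝ) := by positivity
  have hM0 : (0 : ℝ) ≤ M * Real.exp (-T ^ 2) := by positivity
  rw [norm_mul, Complex.norm_real, Real.norm_of_nonneg hT]
  refine mul_le_mul_of_nonneg_left ?_ hT
  unfold W
  refine (norm_sum_le _ _).trans ?_
  have hcard : ((Icc 1 Nm).card : ℝ) = Nm := by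
    rw [Nat.card_Icc, Nat.add_sub_cancel]
  rw [← hcard, ← nsmul_eq_mul, hcard]
  refine sum_le_card_nsmul _ _ _ fun n hn => ?_
  rw [mem_Icc] at hn
  have hn0 : (1 : ℝ) ≤ n := by exact_mod_cast hn.1
  dsimp only
  by_cases hb : bf c1 e n = 0
  · rw [hb, zero_div, zero_mul, norm_zero]
    exact mul_nonneg (mul_nonneg (pow_nonneg hS0 8) (pow_nonneg (Nat.cast_nonneg _) 8)) hM0
  obtain ⟨hb1, hb2, hb3⟩ := bf_supp c1 e n hb
  rw [hSe] at hb2 hb3
  rw [norm_mul, norm_div, Complex.norm_natCast]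
  refine mul_le_mul ?_ ?_ (norm_nonneg _)
    (mul_nonneg (pow_nonneg hS0 8) (pow_nonneg (Nat.cast_nonneg _) 8))
  · have hbf := far_bf e n
    rw [hSe] at hbf
    refine (div_le_self (norm_nonneg _) hn0).trans (hbf.trans ?_)
    refine mul_le_mul_of_nonneg_left (pow_le_pow_left₀ (Nat.cast_nonneg _) ?_ 8)
      (pow_nonneg hS0 8)
    exact_mod_cast hn.2
  · refine (norm_sum_le _ _).trans ?_
    have h2 : ∀ x ∈ tup N P, ‖(Real.exp (-(T * (Real.log n - κ * Real.log (mv x) - τ)) ^ 2) : ℂ)‖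
        ≤ Real.exp (-T ^ 2) := by
      intro x hx
      have hxi := far_xi hX hδ h x hx hb1 hb2 hb3 hS h0 h1
      rw [Complex.norm_real, Real.norm_of_nonneg (Real.exp_pos _).le]
      exact far_aux hxi
    refine (sum_le_card_nsmul _ _ _ h2).trans ?_
    rw [nsmul_eq_mul]
    refine mul_le_mul_of_nonneg_right ?_ (Real.exp_pos _).le
    have h3 := tup_card h
    rw [← h3.1] at h3
    exact_mod_cast h3.2

theorem boxes_sum (b : ℕ) (e : Fin 8 → ℕ) (he : e ∈ boxes b (4 * b)) : ∑ i, e i ≤ 20 * b := by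
  have h2 : ∀ i, e i ≤ if (i : ℕ) < 4 then b else 4 * b := by
    intro i
    have h3 := Fintype.mem_piFinset.1 he i
    split_ifs with h4
    · rw [if_pos h4, mem_range] at h3
      omega
    · rw [if_neg h4, mem_range] at h3
      omega
  have h5 := sum_le_sum fun (i : Fin 8) (_ : i ∈ univ) => h2 i
  rw [Fin.sum_univ_eight (fun i : Fin 8 => if (i : ℕ) < 4 then b else 4 * b)] at h5
  norm_num at h5
  omega

theorem far (κ β δ : ℝ) (k0 D r : ℕ) (hβ : 0 < β) (hδ : 0 ≤ δ) :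
    ∃ M1 : ℕ, ∀ M : ℕ, M1 ≤ M → ∀ X : ℝ, Px κ δ k0 D M X →
    ∀ (N : ℕ) (F : Fin r → ℕ) (P : Fin r → Finset ℕ), Bx β M N F P →
    ∀ e ∈ boxes (bh k0 r X) (4 * bh k0 r X), ¬ (X ≤ cc k0 r * 2 ^ (∑ i, e i) ∧
      2 ^ (∑ i, e i) ≤ cc k0 r * X) → ∀ T : ℝ, (M : ℝ) ^ (β / 4) ≤ T →
    ∀ τ : ℝ, tl κ M X ≤ τ → τ ≤ tl κ M X + 1 →
    ‖(T : ℂ) * W κ (fun n => bf c1 e n) (2 ^ (4 * bh k0 r X)) N P T τ‖ ≤ 1 := by
  have hC1 : (1 : ℝ) ≤ cc k0 r := cc_pos k0 r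
  have hC0 : (0 : ℝ) < cc k0 r := by linarith
  obtain ⟨M1, hM1⟩ := exp_small ((16 * (cc k0 r : ℝ)) ^ 9 * (321 * cc k0 r) ^ 8) (1 / 2) (β / 2)
    (17 * D + 1) (by norm_num) (by positivity) (by positivity)
  refine ⟨max M1 1, fun M hM X hX N F P hB e he hS T hT τ h0 h1 => ?_⟩
  have hMa : M1 ≤ M := (le_max_left _ _).trans hM
  have hMb : 1 ≤ M := (le_max_right _ _).trans hM
  have hM0 : (0 : ℝ) < M := by exact_mod_cast (by omega : 0 < M)
  have hMge : (1 : ℝ) ≤ M := by exact_mod_cast hMb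
  have hX1 : 1 ≤ X := hX.X1 hMb hδ
  have hX0 : 0 < X := by linarith
  have hT0 : 0 ≤ T := (Real.rpow_nonneg hM0.le _).trans hT
  refine (far_W hX hδ hB e _ _ rfl hS hT0 h0 h1).trans ?_
  -- the sizes
  have hNm : ((2 ^ (4 * bh k0 r X) : ℕ) : ℝ) ≤ 16 * cc k0 r * X := by
    have := bh_le k0 r X hX1
    push_cast
    linarith
  have hbh : (bh k0 r X : ℝ) ≤ 16 * cc k0 r * X := by
    refine le_trans ?_ hNm
    have h2 : bh k0 r X ≤ 2 ^ (4 * bh k0 r X) := by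
      have h3 : 4 * bh k0 r X < 2 ^ (4 * bh k0 r X) := Nat.lt_two_pow_self
      omega
    exact_mod_cast h2
  have hS1 : 1 + ((∑ i, e i : ℕ) : ℝ) ≤ 321 * cc k0 r * X := by
    have h2 : ((∑ i, e i : ℕ) : ℝ) ≤ 20 * bh k0 r X := by exact_mod_cast boxes_sum _ e he
    have h3 : 1 ≤ cc k0 r * X := by nlinarith
    nlinarith
  obtain ⟨Nm, hNmd⟩ : ∃ Nm : ℕ, Nm = 2 ^ (4 * bh k0 r X) := ⟨_, rfl⟩
  rw [← hNmd] at hNm ⊢
  obtain ⟨S, hSd⟩ : ∃ S : ℕ, S = ∑ i, e i := ⟨_, rfl⟩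
  rw [← hSd] at hS1 ⊢
  have hS0 : (0 : ℝ) ≤ 1 + (S : ℝ) := add_nonneg zero_le_one (Nat.cast_nonneg _)
  have hXD : X ^ 17 ≤ (M : ℝ) ^ (17 * D) := by
    rw [mul_comm 17 D, pow_mul]
    exact pow_le_pow_left₀ hX0.le hX.x2 17
  have hTe : T * Real.exp (-T ^ 2) ≤ Real.exp (-(1 / 2 * (M : ℝ) ^ (β / 2))) := by
    have h4 : (M : ℝ) ^ (β / 2) = ((M : ℝ) ^ (β / 4)) ^ 2 := by
      rw [← Real.rpow_natCast, ← Real.rpow_mul hM0.le]
      congr 1
      push_cast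
      ring
    have h5 : (M : ℝ) ^ (β / 2) ≤ T ^ 2 := by
      rw [h4]
      exact pow_le_pow_left₀ (Real.rpow_nonneg hM0.le _) hT 2
    refine (far_T h5).trans (le_of_eq ?_)
    congr 1
    ring
  have hTe0 : 0 ≤ T * Real.exp (-T ^ 2) := by positivity
  calc T * ((Nm : ℝ) * ((1 + (S : ℝ)) ^ 8 * (Nm : ℝ) ^ 8 * (M * Real.exp (-T ^ 2))))
      = ((Nm : ℝ) ^ 9 * (1 + (S : ℝ)) ^ 8 * M) * (T * Real.exp (-T ^ 2)) := by ring
    _ ≤ ((16 * cc k0 r * X) ^ 9 * (321 * cc k0 r * X) ^ 8 * M) *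
          Real.exp (-(1 / 2 * (M : ℝ) ^ (β / 2))) := by
        refine mul_le_mul ?_ hTe hTe0 (by positivity)
        refine mul_le_mul_of_nonneg_right ?_ hM0.le
        exact mul_le_mul (pow_le_pow_left₀ (Nat.cast_nonneg _) hNm 9)
          (pow_le_pow_left₀ hS0 hS1 8) (by positivity) (by positivity)
    _ = ((16 * (cc k0 r : ℝ)) ^ 9 * (321 * cc k0 r) ^ 8) * (X ^ 17 * M) *
          Real.exp (-(1 / 2 * (M : ℝ) ^ (β / 2))) := by ring
    _ ≤ ((16 * (cc k0 r : ℝ)) ^ 9 * (321 * cc k0 r) ^ 8) * ((M : ℝ) ^ (17 * D) * M) *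
          Real.exp (-(1 / 2 * (M : ℝ) ^ (β / 2))) := by
        refine mul_le_mul_of_nonneg_right ?_ (Real.exp_pos _).le
        refine mul_le_mul_of_nonneg_left ?_ (by positivity)
        exact mul_le_mul_of_nonneg_right hXD hM0.le
    _ = ((16 * (cc k0 r : ℝ)) ^ 9 * (321 * cc k0 r) ^ 8) * (M : ℝ) ^ (17 * D + 1) *
          Real.exp (-(1 / 2 * (M : ℝ) ^ (β / 2))) := by rw [pow_succ (M : ℝ)]
    _ ≤ 1 := hM1 M hMa

end Pool.Agent.H67.PS
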