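import Pool.Agent.H98.PK.Defs
import Pool.Agent.H26.LDP.Diff

/-!
# [H67 PS FD] The mean square of a product with a long smooth factor: definitions and plan

LEMMA (F) (`Fz.fz`). `N' <= 2N`, `1 <= A <= 2N`, `N <= T1`, `|g| <= G`:
`∫_{T1}^{2 T1} |Σ_{A/2<a<=A} g(a) a^(-it) Σ_{N<n<=N'} n^(-it)|^2 dt <= C G^2 (AN) T1 (1 + log N)^5`.
(The mean value theorem alone gives `T1 + AN` in the place of `T1`.)

PROOF. If `AN <= 16 T1`: mean value theorem (`Fs`). Let `H = AN/T1 >= 16`, so `16 <= H <= A`. Write the condition `a | m` for `m = a n` with additive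
characters: `gs g A t * zs N N' t = Σ_a (g a/a) Σ_{k<a} ks N N' a k t` (`Fo`), `ks N N' a k t = Σ_{aN<m<=aN'} e(mk/a) m^(-it)`.
* `k = 0`: `|ks| <= 80 H`; `‖k/a‖ >= 2/H`: `|ks| <= 6/‖k/a‖` (Kusmin-Landau, `Fk`). Total `<= 172 G A(1+log A)` (`Fp`), square integral
  `<= 172^2 G^2 A^2 (1+log A)^2 T1`, and `A <= 2N`.
* `0 < ‖k/a‖ < 2/H`: mean value theorem and the large sieve type inequality `HX.sch` (`Fn`).
-/

namespace Pool.Agent.H67.PS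

open Finset
open Pool.Agent.H98.PK (ex)

/-- `Σ_{N < n <= N'} n^(-it)` -/
noncomputable def zs (N N' : ℕ) (t : ℝ) : ℂ := ∑ n ∈ Ioc N N', ex (-(t * Real.log n))

/-- `Σ_{A/2 < a <= A} g(a) a^(-it)` -/
noncomputable def gs (g : ℕ → ℂ) (A : ℕ) (t : ℝ) : ℂ :=
  ∑ a ∈ Ioc (A / 2) A, g a * ex (-(t * Real.log a))

/-- `Σ_{aN < m <= aN'} e(mk/a) m^(-it)` -/
noncomputable def ks (N N' a k : ℕ) (t : ℝ) : ℂ :=
  ∑ m ∈ Ioc (a * N) (a * N'), H26.LDP.e ((m : ℝ) * ((k : ℝ) / a)) * ex (-(t * Real.log m))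

open Classical in
/-- the `k` in `[1, a)` with `‖k/a‖ < ρ` -/
noncomputable def nr (ρ : ℝ) (a : ℕ) : Finset ℕ :=
  (Ico 1 a).filter fun k => H26.LDP.nn ((k : ℝ) / a) < ρ

theorem mem_nr (ρ : ℝ) (a k : ℕ) : k ∈ nr ρ a ↔ (1 ≤ k ∧ k < a) ∧ H26.LDP.nn ((k : ℝ) / a) < ρ := by
  unfold nr
  rw [mem_filter, mem_Ico]

end Pool.Agent.H67.PS
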