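import Pool.Agent.H67.PS.Fd
import Pool.Agent.H43.LF.Vdc

/-!
# [H67 PS FK] Kusmin-Landau for the sums `ks`

`a ∈ (A/2, A]`, `t ∈ [T1, 2 T1]`, `16 T1 <= AN`, `N' <= 2N`.

PROOF. `2a >= A`, so for `m > aN`: `m > AN/2`, `t/(2πm) <= 2 T1/(π AN)` `< T1/(AN) <= 1/16`.
`fk_zero` (`k = 0`): `ks N N' a 0 t = Σ_{aN<m<=aN'} ex(-(t log m))` is the sum of PK/Smo `smo_block` (private there: copy it) with `M = aN`, `N := aN' <= 2M`,
`v = t`: `1 <= t <= 2 T1 <= AN/8 <= aN = M`, so the sum is `<= 80 (aN/(1+t)) <= 80 AN/T1`.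
`fk_far`: let `ν = nn(k/a)`, `ν >= 2 T1/(AN)`, `0 < k/a < 1`, so `ν <= k/a <= 1 - ν` (`nn_le`, nearest integer; `nn x = |x - round x|`, and
`nn x <= |x - m|` for all integers `m`: `H26.LDP.nn_le`). Phase `θ(m) = m k/a - (t/2π) log m`; `θ(m+1) - θ(m) = k/a - ρ_m`, `ρ_m = (t/2π) log(1+1/m)`,
`0 < ρ_m <= t/(2πm) <= T1/(AN) <= ν/2`, `ρ_m` decreasing in `m` (see `smo_block` for these computations), so the differences `d_m` increase and
`ν/2 <= d_m <= 1 - ν`. Split `F = Ioc (aN) (aN')` into `F1 = {d_m <= 1/2}` and `F2 = {d_m > 1/2}` (both order convex as `d_m` is monotone on `F`).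
`F1`: `LF.vd_plus` with the integer `0` and `δ = ν/2`: `<= 4/ν`. `F2`: `LF.vd_minus` with the integer `1` and `δ = ν`: `-1/2 <= d_m - 1 <= -ν`: `<= 2/ν`.
(`H26.LDP.e x = exp(2πi x)` and `H19.Wa.e` are the same function; `ex x = exp(ix)`; so `e(mk/a) ex(-(t log m)) = e(θ m)`.)
-/

namespace Pool.Agent.H67.PS

open Finset
open Pool.Agent.H98.PK (ex)

private theorem fk_block (M N : ℕ) (v : ℝ) (hv : 1 ≤ v) (hM : 1 ≤ M) (hN : N ≤ 2 * M)
    (hvM : v ≤ M) :
    ‖∑ n ∈ Ioc M N, Complex.exp (-(v * Real.log (n : ℝ) : ℝ) * Complex.I)‖ ≤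
      80 * (M / (1 + v)) := by
  have hM0 : (0 : ℝ) < M := by exact_mod_cast hM
  have hv0 : 0 < v := by linarith
  have hpi : 0 < Real.pi := Real.pi_pos
  set θ : ℕ → ℝ := fun n => -(v / (2 * Real.pi)) * Real.log (n : ℝ) with hθ
  have hvp : 0 < v / (2 * Real.pi) := by positivity
  have hd : ∀ n : ℕ, 1 ≤ n → v / (2 * Real.pi) * (1 / ((n : ℝ) + 1)) ≤ θ n - θ (n + 1) ∧
      θ n - θ (n + 1) ≤ v / (2 * Real.pi) * (1 / (n : ℝ)) := by
    intro n hn
    have hn0 : (0 : ℝ) < n := by exact_mod_cast hn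
    have e1 : θ n - θ (n + 1) = v / (2 * Real.pi) * Real.log (1 + 1 / (n : ℝ)) := by
      simp only [hθ]
      push_cast
      have : (1 + 1 / (n : ℝ)) = ((n : ℝ) + 1) / n := by field_simp
      rw [this, Real.log_div (by positivity) (by positivity)]
      ring
    rw [e1]
    constructor
    · refine mul_le_mul_of_nonneg_left ?_ hvp.le
      have h2 := Real.one_sub_inv_le_log_of_pos (show 0 < 1 + 1 / (n : ℝ) by positivity)
      refine le_trans (le_of_eq ?_) h2
      field_simp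
      ring
    · refine mul_le_mul_of_nonneg_left ?_ hvp.le
      have h2 := Real.log_le_sub_one_of_pos (show 0 < 1 + 1 / (n : ℝ) by positivity)
      linarith
  set δ : ℝ := v / (6 * Real.pi * M) with hδ
  have hδ0 : 0 < δ := by positivity
  have hδ2 : δ ≤ 1 / 2 := by
    rw [hδ, div_le_div_iff₀ (by positivity) (by norm_num)]
    have h3 := Real.pi_gt_three
    nlinarith
  have hmain := H43.LF.vd_minus (Ioc M N) (by
      intro x hx y hy z h1 h2
      rw [mem_Ioc] at hx hy ⊢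
      omega) θ 0 δ hδ0 hδ2
    (by
      intro n hn _
      rw [mem_Ioc] at hn
      have hn0 : (0 : ℝ) < n := by
        have : 0 < n := by omega
        exact_mod_cast this
      simp only [hθ]
      push_cast
      have h1 : Real.log (n : ℝ) + Real.log ((n : ℝ) + 2) ≤ 2 * Real.log ((n : ℝ) + 1) := by
        rw [← Real.log_mul (by positivity) (by positivity)]
        have : 2 * Real.log ((n : ℝ) + 1) = Real.log (((n : ℝ) + 1) ^ 2) := by
          rw [Real.log_pow]
          push_cast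
          ring
        rw [this]
        exact Real.log_le_log (by positivity) (by nlinarith)
      nlinarith)
    (by
      intro n hn
      rw [mem_Ioc] at hn
      have h1 := (hd n (by omega)).2
      have hn0 : (M : ℝ) ≤ n := by exact_mod_cast hn.1.le
      have hn1 : (0 : ℝ) < n := by linarith
      have h2 : v / (2 * Real.pi) * (1 / (n : ℝ)) ≤ 1 / 2 := by
        rw [div_mul_div_comm, mul_one, div_le_div_iff₀ (by positivity) (by norm_num)]
        have h3 := Real.pi_gt_three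
        nlinarith
      push_cast
      linarith)
    (by
      intro n hn
      rw [mem_Ioc] at hn
      have h1 := (hd n (by omega)).1
      have hn0 : (n : ℝ) ≤ 2 * M := by
        have : n ≤ 2 * M := by omega
        exact_mod_cast this
      have hM1 : (1 : ℝ) ≤ M := by exact_mod_cast hM
      have hn1 : (0 : ℝ) ≤ n := Nat.cast_nonneg n
      have h2 : δ ≤ v / (2 * Real.pi) * (1 / ((n : ℝ) + 1)) := by
        rw [hδ, div_mul_div_comm, mul_one]
        apply div_le_div_of_nonneg_left hv0.le (by positivity)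
        nlinarith
      push_cast
      linarith)
  have e1 : ∑ n ∈ Ioc M N, Complex.exp (-(v * Real.log (n : ℝ) : ℝ) * Complex.I) =
      ∑ n ∈ Ioc M N, Pool.H19.Wa.e (θ n) := by
    refine Finset.sum_congr rfl fun n _ => ?_
    unfold Pool.H19.Wa.e
    congr 1
    congr 1
    have h1 : 2 * Real.pi * θ n = -(v * Real.log (n : ℝ)) := by
      simp only [hθ]
      field_simp
    have h2 : ((2 * Real.pi * θ n : ℝ) : ℂ) = 2 * (Real.pi : ℂ) * (θ n : ℂ) := by push_cast; ring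
    rw [← h2, h1]
    push_cast
    ring
  rw [e1]
  refine hmain.trans ?_
  have h2 : 2 / δ ≤ 80 * (M / (1 + v)) := by
    have h3 : 2 / δ = 12 * Real.pi * M / v := by
      rw [hδ]
      field_simp
      ring
    rw [h3, ← mul_div_assoc, div_le_div_iff₀ hv0 (by linarith)]
    have h4 := Real.pi_lt_d2
    have h5 : 12 * Real.pi * M * (1 + v) ≤ 12 * Real.pi * M * (2 * v) :=
      mul_le_mul_of_nonneg_left (by linarith) (by positivity)
    refine h5.trans ?_
    have h6 : 0 < (M : ℝ) * v := by positivity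
    nlinarith
  exact h2

private theorem fk_gen (F : Finset ℕ) (hconv : ∀ x ∈ F, ∀ y ∈ F, ∀ z, x ≤ z → z ≤ y → z ∈ F)
    (hF1 : ∀ n ∈ F, 1 ≤ n) (x c ν : ℝ) (hc : 0 ≤ c) (hν : 0 < ν) (hν2 : ν ≤ 1 / 2)
    (h1 : ∀ n ∈ F, c * (1 / (n : ℝ)) ≤ ν / 2) (hx : ν ≤ x) (hx1 : x ≤ 1 - ν) :
    ‖∑ n ∈ F, Pool.H19.Wa.e ((n : ℝ) * x - c * Real.log n)‖ ≤ 6 / ν := by
  classical
  obtain ⟨θ, hθ⟩ : ∃ θ : ℕ → ℝ, ∀ n, θ n = (n : ℝ) * x - c * Real.log n := ⟨_, fun _ => rfl⟩
  obtain ⟨d, hd⟩ : ∃ d : ℕ → ℝ, ∀ n, d n = x - c * Real.log (1 + 1 / (n : ℝ)) := ⟨_, fun _ => rfl⟩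
  have hdiff : ∀ n : ℕ, 1 ≤ n → θ (n + 1) - θ n = d n := by
    intro n hn
    have hn0 : (0 : ℝ) < n := by exact_mod_cast hn
    rw [hθ, hθ, hd]
    push_cast
    have : (1 + 1 / (n : ℝ)) = ((n : ℝ) + 1) / n := by field_simp
    rw [this, Real.log_div (by positivity) (by positivity)]
    ring
  have hmo : ∀ y z : ℕ, 1 ≤ y → y ≤ z → d y ≤ d z := by
    intro y z hy hyz
    have hy0 : (0 : ℝ) < y := by exact_mod_cast hy
    have hz0 : (y : ℝ) ≤ z := by exact_mod_cast hyz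
    rw [hd, hd]
    have h2 : Real.log (1 + 1 / (z : ℝ)) ≤ Real.log (1 + 1 / (y : ℝ)) := by
      apply Real.log_le_log
      · have : (0 : ℝ) < z := by linarith
        positivity
      · have := one_div_le_one_div_of_le hy0 hz0
        linarith
    have := mul_le_mul_of_nonneg_left h2 hc
    linarith
  have hlo : ∀ n ∈ F, ν / 2 ≤ d n := by
    intro n hn
    have hn0 : (0 : ℝ) < n := by exact_mod_cast hF1 n hn
    rw [hd]
    have h2 := Real.log_le_sub_one_of_pos (show 0 < 1 + 1 / (n : ℝ) by positivity)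
    have h3 : c * Real.log (1 + 1 / (n : ℝ)) ≤ c * (1 / (n : ℝ)) :=
      mul_le_mul_of_nonneg_left (by linarith) hc
    have h4 := h1 n hn
    linarith
  have hup : ∀ n ∈ F, d n ≤ 1 - ν := by
    intro n hn
    have hn0 : (0 : ℝ) < n := by exact_mod_cast hF1 n hn
    rw [hd]
    have h2 : 0 ≤ Real.log (1 + 1 / (n : ℝ)) := Real.log_nonneg (by
      have : 0 < 1 / (n : ℝ) := by positivity
      linarith)
    have := mul_nonneg hc h2
    linarith
  have e1 : ∑ n ∈ F, Pool.H19.Wa.e ((n : ℝ) * x - c * Real.log n) =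
      ∑ n ∈ F, Pool.H19.Wa.e (θ n) :=
    Finset.sum_congr rfl fun n _ => by rw [hθ]
  rw [e1, ← Finset.sum_filter_add_sum_filter_not F (fun n => d n ≤ 1 / 2)]
  have hA : ‖∑ n ∈ F.filter (fun n => d n ≤ 1 / 2), Pool.H19.Wa.e (θ n)‖ ≤ 2 / (ν / 2) := by
    refine H43.LF.vd_plus _ ?_ θ 0 (ν / 2) (by linarith) (by linarith) ?_ ?_ ?_
    · intro y hy z hz u h2 h3
      rw [mem_filter] at hy hz ⊢
      have h4 := hconv y hy.1 z hz.1 u h2 h3
      exact ⟨h4, (hmo u z (hF1 u h4) h3).trans hz.2⟩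
    · intro n hn _
      have h5 := hF1 n (mem_filter.1 hn).1
      rw [hdiff n h5, hdiff (n + 1) (by omega)]
      exact hmo n (n + 1) h5 (by omega)
    · intro n hn
      have h5 := (mem_filter.1 hn).1
      rw [hdiff n (hF1 n h5)]
      have := hlo n h5
      push_cast
      linarith
    · intro n hn
      have h5 := mem_filter.1 hn
      rw [hdiff n (hF1 n h5.1)]
      have := h5.2
      push_cast
      linarith
  have hB : ‖∑ n ∈ F.filter (fun n => ¬ d n ≤ 1 / 2), Pool.H19.Wa.e (θ n)‖ ≤ 2 / ν := by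
    refine H43.LF.vd_minus _ ?_ θ 1 ν hν hν2 ?_ ?_ ?_
    · intro y hy z hz u h2 h3
      rw [mem_filter] at hy hz ⊢
      have h4 := hconv y hy.1 z hz.1 u h2 h3
      exact ⟨h4, fun h5 => hy.2 ((hmo y u (hF1 y hy.1) h2).trans h5)⟩
    · intro n hn _
      have h5 := hF1 n (mem_filter.1 hn).1
      rw [hdiff n h5, hdiff (n + 1) (by omega)]
      exact hmo n (n + 1) h5 (by omega)
    · intro n hn
      have h5 := mem_filter.1 hn
      rw [hdiff n (hF1 n h5.1)]
      have := not_le.1 h5.2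
      push_cast
      linarith
    · intro n hn
      have h5 := (mem_filter.1 hn).1
      rw [hdiff n (hF1 n h5)]
      have := hup n h5
      push_cast
      linarith
  refine (norm_add_le _ _).trans ((add_le_add hA hB).trans (le_of_eq ?_))
  field_simp
  norm_num

theorem fk_zero (A N N' a : ℕ) (T1 t : ℝ) (hN : 1 ≤ N) (hN' : N' ≤ 2 * N) (ha : a ∈ Ioc (A / 2) A)
    (hT : 1 ≤ T1) (h1 : T1 ≤ t) (h2 : t ≤ 2 * T1) (hH : 16 * T1 ≤ (A : ℝ) * N) :
    ‖ks N N' a 0 t‖ ≤ 80 * ((A : ℝ) * N / T1) := by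
  rw [mem_Ioc] at ha
  have hA : (A : ℝ) ≤ 2 * a := by
    have : A ≤ 2 * a := by omega
    exact_mod_cast this
  have haA : (a : ℝ) ≤ A := by exact_mod_cast ha.2
  have hN0 : (0 : ℝ) < N := by exact_mod_cast hN
  have h3 : (A : ℝ) * N ≤ 2 * ((a : ℝ) * N) := by nlinarith
  have hM1 : 1 ≤ a * N := Nat.mul_pos (by omega) hN
  have h4 := fk_block (a * N) (a * N') t (by linarith) hM1 (by
    calc a * N' ≤ a * (2 * N) := Nat.mul_le_mul_left a hN'
      _ = 2 * (a * N) := by ring) (by push_cast; linarith)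
  have h5 : ks N N' a 0 t = ∑ n ∈ Ioc (a * N) (a * N'),
      Complex.exp (-(t * Real.log (n : ℝ) : ℝ) * Complex.I) := by
    unfold ks
    refine Finset.sum_congr rfl fun n _ => ?_
    unfold H26.LDP.e Pool.Agent.H98.PK.ex
    rw [Nat.cast_zero, zero_div, mul_zero, Complex.ofReal_zero, mul_zero, Complex.exp_zero, one_mul]
    congr 2
    push_cast
    ring
  rw [h5]
  refine h4.trans ?_
  refine mul_le_mul_of_nonneg_left ?_ (by norm_num)
  push_cast
  have h6 : (a : ℝ) * N ≤ A * N := mul_le_mul_of_nonneg_right haA hN0.le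
  exact div_le_div₀ (by positivity) h6 (by linarith) (by linarith)

theorem fk_far (A N N' a k : ℕ) (T1 t : ℝ) (hN : 1 ≤ N) (hN' : N' ≤ 2 * N) (ha : a ∈ Ioc (A / 2) A)
    (hT : 1 ≤ T1) (h1 : T1 ≤ t) (h2 : t ≤ 2 * T1) (hH : 16 * T1 ≤ (A : ℝ) * N) (hk : k ∈ Ico 1 a)
    (hf : 2 * T1 / ((A : ℝ) * N) ≤ H26.LDP.nn ((k : ℝ) / a)) :
    ‖ks N N' a k t‖ ≤ 6 / H26.LDP.nn ((k : ℝ) / a) := by
  rw [mem_Ioc] at ha
  rw [mem_Ico] at hk
  have hA : (A : ℝ) ≤ 2 * a := by
    have : A ≤ 2 * a := by omega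
    exact_mod_cast this
  have hN0 : (0 : ℝ) < N := by exact_mod_cast hN
  have ha0 : (0 : ℝ) < a := by
    have : 0 < a := by omega
    exact_mod_cast this
  have hA0 : (0 : ℝ) < A := by
    have : 0 < A := by omega
    exact_mod_cast this
  have hk0 : (0 : ℝ) < k := by
    have : 0 < k := by omega
    exact_mod_cast this
  have hka : (k : ℝ) / a < 1 := by
    rw [div_lt_one ha0]
    exact_mod_cast hk.2
  have hka0 : 0 < (k : ℝ) / a := by positivity
  obtain ⟨ν, hν⟩ : ∃ ν : ℝ, ν = H26.LDP.nn ((k : ℝ) / a) := ⟨_, rfl⟩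
  rw [← hν] at hf ⊢
  have hν0 : 0 < ν := lt_of_lt_of_le (by positivity) hf
  have hν1 : ν ≤ (k : ℝ) / a := by
    have := H26.LDP.nn_le ((k : ℝ) / a) 0
    rw [← hν, Int.cast_zero, sub_zero, abs_of_pos hka0] at this
    exact this
  have hν2 : (k : ℝ) / a ≤ 1 - ν := by
    have := H26.LDP.nn_le ((k : ℝ) / a) 1
    rw [← hν, Int.cast_one, abs_of_neg (by linarith)] at this
    linarith
  have hν3 : ν ≤ 1 / 2 := by
    rw [hν]
    exact H26.LDP.nn_le_half _
  have h5 : ks N N' a k t = ∑ n ∈ Ioc (a * N) (a * N'),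
      Pool.H19.Wa.e ((n : ℝ) * ((k : ℝ) / a) - t / (2 * Real.pi) * Real.log n) := by
    unfold ks
    refine Finset.sum_congr rfl fun n _ => ?_
    unfold H26.LDP.e Pool.Agent.H98.PK.ex Pool.H19.Wa.e
    rw [← Complex.exp_add]
    congr 1
    have hpi : (Real.pi : ℂ) ≠ 0 := by exact_mod_cast Real.pi_pos.ne'
    push_cast
    field_simp
    ring
  rw [h5]
  have hpi := Real.pi_gt_three
  have ht0 : 0 < t := by linarith
  refine fk_gen _ ?_ ?_ _ _ ν (by positivity) hν0 hν3 ?_ hν1 hν2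
  · intro x hx y hy z hz1 hz2
    rw [mem_Ioc] at hx hy ⊢
    omega
  · intro n hn
    rw [mem_Ioc] at hn
    omega
  · intro n hn
    rw [mem_Ioc] at hn
    have hn1 : (a : ℝ) * N ≤ n := by exact_mod_cast hn.1.le
    have h3 : (A : ℝ) * N ≤ 2 * n := by nlinarith
    have hn0 : (0 : ℝ) < n := by
      have : 0 < (a : ℝ) * N := by positivity
      linarith
    have h6 : t / (2 * Real.pi) * (1 / (n : ℝ)) ≤ T1 / ((A : ℝ) * N) := by
      rw [div_mul_div_comm, mul_one, div_le_div_iff₀ (by positivity) (by positivity)]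
      have h7 : t * ((A : ℝ) * N) ≤ (2 * T1) * (2 * n) := by
        refine mul_le_mul h2 h3 (by positivity) (by linarith)
      have h8 : (2 * T1) * (2 * (n : ℝ)) ≤ T1 * (2 * Real.pi * n) := by
        have : 0 ≤ T1 * (n : ℝ) := by positivity
        nlinarith
      linarith
    have h9 : 2 * T1 / ((A : ℝ) * N) = 2 * (T1 / ((A : ℝ) * N)) := by ring
    linarith

end Pool.Agent.H67.PS
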