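import Pool.Agent.H67.PS.Win
import Pool.Agent.H98.PK.Mul

/-!
# [H67 PS FM] First moment with `Λ`, all boxes

As `H98.PR.Fm`, eight factors.
-/

namespace Pool.Agent.H67.PS

open Finset
open Pool.Agent.H98.PK (ex tup mv Bx c1 qd mv_bounds bct1 bct2 bct3 mul GG Ng Fg Pg)
open Pool.Agent.H98.PR (Px wn)

theorem fm (κ δ : ℝ) (k0 A : ℕ) (hκ : 0 < κ) (hδ : 0 < δ) (hδ1 : δ ≤ 1) :
    ∃ c : ℝ, 0 < c ∧ ∃ D : ℕ, 1 ≤ D ∧ ∃ M1 : ℕ, ∀ M : ℕ, M1 ≤ M → ∀ X : ℝ, Px κ δ k0 A M X →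
    ∀ H : ℝ, (M : ℝ) ^ δ * max (Real.sqrt (X / M)) (X ^ ((3 : ℝ) / 5) / M) ≤ H → H ≤ X →
    c * H * M ≤ ∑ m ∈ (Icc 1 M).filter (fun m => M ≤ D * m),
      ∑ n ∈ wn κ (X / (M : ℝ) ^ κ) H m, ArithmeticFunction.vonMangoldt n := by
  classical
  obtain ⟨r, hr1, hrδ⟩ : ∃ r : ℕ, 1 ≤ r ∧ 40 * (1 / ((r : ℝ) + 2)) ≤ δ := by
    refine ⟨⌈40 / δ⌉₊ + 1, by omega, ?_⟩
    have h1 := Nat.le_ceil (40 / δ)
    rw [div_le_iff₀ hδ] at h1
    push_cast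
    have h2 : (0 : ℝ) < (⌈40 / δ⌉₊ : ℝ) + 1 + 2 := by positivity
    rw [mul_one_div, div_le_iff₀ h2]
    nlinarith
  have hβ : (0 : ℝ) < 1 / ((r : ℝ) + 2) := by positivity
  obtain ⟨cw, hcw, Mw, hw⟩ := win κ (1 / ((r : ℝ) + 2)) δ k0 A r hκ hβ hrδ hδ1
  obtain ⟨M₁, h1⟩ := bct1 r hr1
  obtain ⟨M₂, h2⟩ := bct2 r hr1
  obtain ⟨c3, hc3, M₃, h3⟩ := bct3 r hr1
  obtain ⟨Cm, hCm, M₄, h4⟩ := mul r hr1
  refine ⟨cw * c3 / Cm, by positivity, 2 ^ (r + 2), Nat.one_le_two_pow,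
    max (max (max Mw M₁) (max (max M₂ M₃) M₄)) 1, ?_⟩
  intro M hM0 X hX H hH1 hH2
  have hM : max (max Mw M₁) (max (max M₂ M₃) M₄) ≤ M := (le_max_left _ _).trans hM0
  have hM1 : 1 ≤ M := (le_max_right _ _).trans hM0
  have hMw : Mw ≤ M := (le_max_left _ _).trans ((le_max_left _ _).trans hM)
  have hM₁ : M₁ ≤ M := (le_max_right _ _).trans ((le_max_left _ _).trans hM)
  have hM' : max (max M₂ M₃) M₄ ≤ M := (le_max_right _ _).trans hM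
  have hM₂ : M₂ ≤ M := (le_max_left _ _).trans ((le_max_left _ _).trans hM')
  have hM₃ : M₃ ≤ M := (le_max_right _ _).trans ((le_max_left _ _).trans hM')
  have hM₄ : M₄ ≤ M := (le_max_right _ _).trans hM'
  have hH0 : 0 ≤ H := by
    refine le_trans ?_ hH1
    have : 0 ≤ max (Real.sqrt (X / M)) (X ^ ((3 : ℝ) / 5) / M) :=
      (Real.sqrt_nonneg _).trans (le_max_left _ _)
    positivity
  set h : ℕ → ℝ := fun m => if M ≤ 2 ^ (r + 2) * m then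
      ∑ n ∈ wn κ (X / (M : ℝ) ^ κ) H m, ArithmeticFunction.vonMangoldt n else 0 with hh
  have hh0 : ∀ m, 0 ≤ h m := by
    intro m
    simp only [hh]
    split_ifs
    · exact Finset.sum_nonneg fun n _ => ArithmeticFunction.vonMangoldt_nonneg
    · exact le_refl 0
  have e1 : ∑ g ∈ GG r M, cw * H * (Ng r M g * ∏ i, ((Pg r M g i).card : ℝ)) ≤
      ∑ g ∈ GG r M, ∑ x ∈ tup (Ng r M g) (Pg r M g), h (mv x) := by
    refine Finset.sum_le_sum fun g hg => ?_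
    refine (hw M hMw X hX (Ng r M g) (Fg r M g) (Pg r M g) (h1 M hM₁ g hg) H hH1 hH2
      (h2 M hM₂ g hg)).trans (le_of_eq ?_)
    refine Finset.sum_congr rfl fun x hx => ?_
    have hb := mv_bounds (h1 M hM₁ g hg) x hx
    simp only [hh]
    rw [if_pos hb.2.1]
  have e2 := h4 M hM₄ h hh0
  have e3 := h3 M hM₃
  rw [← Finset.mul_sum] at e1
  have e4 : cw * H * (c3 * M) ≤
      cw * H * ∑ g ∈ GG r M, (Ng r M g : ℝ) * ∏ i, ((Pg r M g i).card : ℝ) :=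
    mul_le_mul_of_nonneg_left e3 (by positivity)
  have e5 := (e4.trans e1).trans e2
  have e6 : cw * c3 / Cm * H * M = (cw * H * (c3 * M)) / Cm := by ring
  have e7 : ∑ m ∈ Icc 1 M, h m = ∑ m ∈ (Icc 1 M).filter (fun m => M ≤ 2 ^ (r + 2) * m),
      ∑ n ∈ wn κ (X / (M : ℝ) ^ κ) H m, ArithmeticFunction.vonMangoldt n := by
    rw [Finset.sum_filter]
  rw [← e7, e6, div_le_iff₀ hCm]
  linarith

end Pool.Agent.H67.PS
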