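import Pool.Agent.H67.PS.Fd
import Pool.Agent.H43.HX.Sch
import Pool.Agent.H43.HX.Cou

/-!
# [H67 PS FN] The near frequencies: mean square of the coefficients

The coefficient of `m^(-it)` in `Σ_a (g a/a) Σ_{k∈nr ρ a} ks N N' a k t` is `Σ_a [aN<m<=aN'] (g a/a) Σ_{k∈nr ρ a} e(mk/a)`. Claim:
`Σ_{m<=2AN} |coefficient|^2 <= 400 G^2 (AN) ρ (1+log A)` if `A <= 2N`, `0 < ρ <= 1/2`.

PROOF (a variant of `HX.psp`, whose private lemmas `psp_tau`, `psp_count`, `psp_inner`, `psp_nn` can be copied with `q = 1`).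
`J = {(a,k) : A/2 < a <= A, k ∈ nr ρ a}`, `λ = k/a ∈ (0,1)`, `b_(a,k) = g a/a`, `|b| <= 2G/A`. `HX.sch` with `U = 0`, `V = 2AN`, `u = aN`, `w = aN'`:
the sum is `<= Σ_{j∈J} (2G/A)^2 Σ_{j'∈J} (if nn(λ-λ') = 0 then 2AN else 1/(2 nn(λ-λ')))`. For `j = (a,k)`, `d = gcd(a,k)`, `λ = (k/d)/(a/d)` in lowest terms,
the inner sum is (as in `psp_inner`; `J` is a subset of the pairs `1 <= a' <= A`, `1 <= k' < a'`) `<= 2AN * (A d/a) + 5 A^2 (1+log A)`:
`nn(λ-λ') = 0` means `λ = λ'`, so `a/d ∣ a'` (`<= A/(a/d)` values of `a'`) and `k'` is determined; the rest is `HX.cou`.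
Counting: for `k ∈ nr ρ a`: `k < ρ a` or `a - k < ρ a`, `k >= 1` (`nn(k/a) = min(k, a-k)/a`), and `gcd(a,k) = gcd(a,a-k)`, so
`Σ_{k∈nr ρ a} gcd(a,k) <= 2 Σ_{1<=k<ρ a} gcd(a,k) <= 2 Σ_{d ∣ a} d #{k < ρ a : d ∣ k} <= 2 ρ a τ(a)` (`gcd(a,k) <= Σ_{d ∣ a, d ∣ k} d`), and
`#nr ρ a <= Σ_k gcd(a,k)`, or directly `#nr ρ a <= 2 ρ a`. Hence `Σ_J 1 <= 2 ρ A^2` and `Σ_J d/a <= 2ρ Σ_{a<=A} τ(a) <= 2 ρ A (1+log A)` (`psp_tau`).
Total `<= (4G^2/A^2) (2AN * A * 2ρA(1+log A) + 5A^2(1+log A) * 2ρA^2) = G^2 ρ (1+log A) (16 AN + 40 A^2) <= 96 G^2 AN ρ (1+log A)` as `A <= 2N`.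
-/

namespace Pool.Agent.H67.PS

open Finset
open Pool.Agent.H98.PK (ex)

private theorem fn_harm (A : ℕ) : ∑ a ∈ Icc 1 A, 1 / (a : ℝ) ≤ 1 + Real.log A := by
  have h := harmonic_le_one_add_log A
  rw [harmonic_eq_sum_Icc] at h
  push_cast at h
  simpa [one_div] using h

private theorem fn_tau (A : ℕ) :
    ∑ a ∈ Icc 1 A, (a.divisors.card : ℝ) ≤ A * (1 + Real.log A) := by
  have h := ArithmeticFunction.sum_Ioc_sigma0_eq_sum_div A
  have e : Ioc 0 A = Icc 1 A := by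
    ext x
    simp only [mem_Ioc, mem_Icc]
    omega
  rw [e] at h
  have h1 : ∑ a ∈ Icc 1 A, (a.divisors.card : ℝ) = ∑ n ∈ Icc 1 A, ((A / n : ℕ) : ℝ) := by
    have h2 : ∑ n ∈ Icc 1 A, n.divisors.card = ∑ n ∈ Icc 1 A, A / n := by
      rw [← h]
      refine Finset.sum_congr rfl fun n _ => ?_
      rw [ArithmeticFunction.sigma_zero_apply]
    exact_mod_cast h2
  rw [h1]
  calc ∑ n ∈ Icc 1 A, ((A / n : ℕ) : ℝ) ≤ ∑ n ∈ Icc 1 A, (A : ℝ) * (1 / n) := by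
        refine sum_le_sum fun n _ => ?_
        refine Nat.cast_div_le.trans ?_
        rw [mul_one_div]
    _ = A * ∑ n ∈ Icc 1 A, 1 / (n : ℝ) := by rw [mul_sum]
    _ ≤ _ := by
        gcongr
        exact fn_harm A

private theorem fn_nn (x : ℝ) (h : H26.LDP.nn x = 0) (h1 : |x| < 1) : x = 0 := by
  unfold H26.LDP.nn at h
  have h2 : x = (round x : ℝ) := by
    have := abs_eq_zero.1 h
    linarith
  rw [h2] at h1
  have h3 : |round x| < 1 := by exact_mod_cast h1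
  rw [Int.abs_lt_one_iff] at h3
  rw [h2, h3, Int.cast_zero]

open Classical in
private theorem fn_cnt (a d : ℕ) (x : ℝ) (hx : 0 ≤ x) (hd : 1 ≤ d) :
    (((Ico 1 a).filter (fun k : ℕ => (k : ℝ) < x ∧ d ∣ k)).card : ℝ) ≤ x / d := by
  have hd0 : (0 : ℝ) < d := by exact_mod_cast hd
  have h1 : ((Ico 1 a).filter (fun k : ℕ => (k : ℝ) < x ∧ d ∣ k)).card ≤
      (Ioc 0 ⌊x / d⌋₊).card := by
    refine card_le_card_of_injOn (fun k => k / d) ?_ ?_
    · intro k hk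
      have hk' := mem_filter.1 (mem_coe.1 hk)
      obtain ⟨h1, h2, c, hc⟩ := hk'
      rw [mem_Ico] at h1
      subst hc
      refine mem_coe.2 (mem_Ioc.2 ?_)
      dsimp only
      rw [Nat.mul_div_cancel_left _ hd]
      refine ⟨Nat.pos_of_ne_zero fun h0 => ?_, Nat.le_floor ?_⟩
      · rw [h0, mul_zero] at h1
        omega
      · rw [le_div_iff₀ hd0]
        push_cast at h2
        linarith
    · intro k hk k' hk' h
      obtain ⟨-, -, c, hc⟩ := mem_filter.1 (mem_coe.1 hk)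
      obtain ⟨-, -, c', hc'⟩ := mem_filter.1 (mem_coe.1 hk')
      subst hc
      subst hc'
      dsimp only at h
      rw [Nat.mul_div_cancel_left _ hd, Nat.mul_div_cancel_left _ hd] at h
      rw [h]
  rw [Nat.card_Ioc, Nat.sub_zero] at h1
  have h2 : (((Ico 1 a).filter (fun k : ℕ => (k : ℝ) < x ∧ d ∣ k)).card : ℝ) ≤
      (⌊x / d⌋₊ : ℝ) := by exact_mod_cast h1
  exact h2.trans (Nat.floor_le (by positivity))

open Classical in
private theorem fn_gcd (a : ℕ) (x : ℝ) (hx : 0 ≤ x) :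
    ∑ k ∈ (Ico 1 a).filter (fun k : ℕ => (k : ℝ) < x), (Nat.gcd k a : ℝ) ≤
      x * a.divisors.card := by
  have h1 : ∀ k ∈ (Ico 1 a).filter (fun k : ℕ => (k : ℝ) < x), (Nat.gcd k a : ℝ) ≤
      ∑ d ∈ a.divisors, if d ∣ k then (d : ℝ) else 0 := by
    intro k hk
    rw [mem_filter, mem_Ico] at hk
    have hmem : Nat.gcd k a ∈ a.divisors := Nat.mem_divisors.2 ⟨Nat.gcd_dvd_right _ _, by omega⟩
    refine le_trans (le_of_eq ?_) (single_le_sum (f := fun d : ℕ => if d ∣ k then (d : ℝ) else 0)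
      (fun d _ => by positivity) hmem)
    rw [if_pos (Nat.gcd_dvd_left k a)]
  refine (sum_le_sum h1).trans ?_
  rw [sum_comm]
  have h2 : ∀ d ∈ a.divisors, ∑ k ∈ (Ico 1 a).filter (fun k : ℕ => (k : ℝ) < x),
      (if d ∣ k then (d : ℝ) else 0) ≤ x := by
    intro d hd
    have hd1 : 1 ≤ d := Nat.pos_of_mem_divisors hd
    rw [← sum_filter, filter_filter, sum_const, nsmul_eq_mul]
    have h3 := fn_cnt a d x hx hd1
    rwa [le_div_iff₀ (by exact_mod_cast hd1)] at h3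
  refine (sum_le_sum h2).trans ?_
  rw [sum_const, nsmul_eq_mul, mul_comm]

open Classical in
private theorem fn_two (ρ : ℝ) (a : ℕ) (F : ℕ → ℝ) (hF : ∀ k, 0 ≤ F k)
    (hs : ∀ k, k < a → F (a - k) = F k) :
    ∑ k ∈ nr ρ a, F k ≤ 2 * ∑ k ∈ (Ico 1 a).filter (fun k : ℕ => (k : ℝ) < ρ * a), F k := by
  have hS2 : ∑ k ∈ (Ico 1 a).filter (fun k : ℕ => ((a - k : ℕ) : ℝ) < ρ * a), F k =
      ∑ k ∈ (Ico 1 a).filter (fun k : ℕ => (k : ℝ) < ρ * a), F k := by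
    refine sum_nbij' (fun k => a - k) (fun k => a - k) ?_ ?_ ?_ ?_ ?_
    · intro k hk
      rw [mem_filter, mem_Ico] at hk ⊢
      exact ⟨by omega, hk.2⟩
    · intro k hk
      rw [mem_filter, mem_Ico] at hk ⊢
      refine ⟨by omega, ?_⟩
      have e : a - (a - k) = k := by omega
      rw [e]
      exact hk.2
    · intro k hk
      rw [mem_filter, mem_Ico] at hk
      omega
    · intro k hk
      rw [mem_filter, mem_Ico] at hk
      omega
    · intro k hk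
      rw [mem_filter, mem_Ico] at hk
      exact (hs k hk.1.2).symm
  have hsub : nr ρ a ⊆ (Ico 1 a).filter (fun k : ℕ => (k : ℝ) < ρ * a) ∪
      (Ico 1 a).filter (fun k : ℕ => ((a - k : ℕ) : ℝ) < ρ * a) := by
    intro k hk
    rw [mem_nr] at hk
    obtain ⟨⟨h1, h2⟩, h3⟩ := hk
    have ha : (0 : ℝ) < a := by exact_mod_cast (by omega : 0 < a)
    have hk0 : (0 : ℝ) ≤ (k : ℝ) / a := by positivity
    rw [mem_union, mem_filter, mem_filter, mem_Ico]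
    unfold H26.LDP.nn at h3
    rcases le_or_gt (round ((k : ℝ) / a)) 0 with h | h
    · left
      refine ⟨⟨h1, h2⟩, ?_⟩
      have h4 : ((round ((k : ℝ) / a) : ℤ) : ℝ) ≤ 0 := by exact_mod_cast h
      have h5 := le_abs_self ((k : ℝ) / a - round ((k : ℝ) / a))
      have h6 : (k : ℝ) / a < ρ := by linarith
      rwa [div_lt_iff₀ ha] at h6
    · right
      refine ⟨⟨h1, h2⟩, ?_⟩
      have h4 : (1 : ℝ) ≤ ((round ((k : ℝ) / a) : ℤ) : ℝ) := by exact_mod_cast h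
      have h5 := neg_le_abs ((k : ℝ) / a - round ((k : ℝ) / a))
      have h6 : 1 - (k : ℝ) / a < ρ := by linarith
      have h7 : (1 - (k : ℝ) / a) * a < ρ * a := mul_lt_mul_of_pos_right h6 ha
      rw [sub_mul, one_mul, div_mul_cancel₀ _ ha.ne'] at h7
      rw [Nat.cast_sub h2.le]
      exact h7
  have h1 := sum_union_inter (s₁ := (Ico 1 a).filter (fun k : ℕ => (k : ℝ) < ρ * a))
    (s₂ := (Ico 1 a).filter (fun k : ℕ => ((a - k : ℕ) : ℝ) < ρ * a)) (f := F)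
  have h2 : 0 ≤ ∑ k ∈ (Ico 1 a).filter (fun k : ℕ => (k : ℝ) < ρ * a) ∩
      (Ico 1 a).filter (fun k : ℕ => ((a - k : ℕ) : ℝ) < ρ * a), F k :=
    sum_nonneg fun k _ => hF k
  have h3 := sum_le_sum_of_subset_of_nonneg hsub fun k _ _ => hF k
  linarith

/-- the pairs `(a, k)` -/
private noncomputable def fnJ (ρ : ℝ) (A : ℕ) : Finset (Σ _ : ℕ, ℕ) :=
  (Ioc (A / 2) A).sigma (fun a => nr ρ a)

private theorem fnJ_mem (ρ : ℝ) (A : ℕ) (j : Σ _ : ℕ, ℕ) :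
    j ∈ fnJ ρ A ↔ (A / 2 < j.1 ∧ j.1 ≤ A) ∧ (1 ≤ j.2 ∧ j.2 < j.1) ∧
      H26.LDP.nn ((j.2 : ℝ) / j.1) < ρ := by
  unfold fnJ
  rw [mem_sigma, mem_Ioc, mem_nr]

open Classical in
private theorem fn_inner (ρ : ℝ) (A r s : ℕ) (T : ℝ) (hT : 0 ≤ T) (hr : 1 ≤ r)
    (hrs : r < s) (hco : Nat.Coprime r s) (hsD : s ≤ A) :
    ∑ j ∈ fnJ ρ A, (if H26.LDP.nn ((r : ℝ) / s - (j.2 : ℝ) / j.1) = 0 then T
      else 1 / (2 * H26.LDP.nn ((r : ℝ) / s - (j.2 : ℝ) / j.1))) ≤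
      T * ((A : ℝ) / s) + 5 * (A : ℝ) ^ 2 * (1 + Real.log A) := by
  have hs0 : (0 : ℝ) < s := by exact_mod_cast (by omega : 0 < s)
  have hr0 : (0 : ℝ) < r := by exact_mod_cast hr
  have hrs' : (r : ℝ) < s := by exact_mod_cast hrs
  have hsplit : ∀ j ∈ fnJ ρ A, (if H26.LDP.nn ((r : ℝ) / s - (j.2 : ℝ) / j.1) = 0 then T
      else 1 / (2 * H26.LDP.nn ((r : ℝ) / s - (j.2 : ℝ) / j.1))) =
      (if H26.LDP.nn ((r : ℝ) / s - (j.2 : ℝ) / j.1) = 0 then T else 0) +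
      (if H26.LDP.nn ((r : ℝ) / s - (j.2 : ℝ) / j.1) = 0 then 0
      else 1 / (2 * H26.LDP.nn ((r : ℝ) / s - (j.2 : ℝ) / j.1))) := by
    intro j _
    split_ifs
    · rw [add_zero]
    · rw [zero_add]
  rw [sum_congr rfl hsplit, sum_add_distrib]
  apply add_le_add
  · rw [← sum_filter, sum_const, nsmul_eq_mul, mul_comm]
    apply mul_le_mul_of_nonneg_left _ hT
    have hkey : ∀ j ∈ (fnJ ρ A).filter (fun j => H26.LDP.nn ((r : ℝ) / s - (j.2 : ℝ) / j.1) = 0),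
        r * j.1 = j.2 * s := by
      intro j hj
      rw [mem_filter] at hj
      have hjm := (fnJ_mem ρ A j).1 hj.1
      have h7 : (0 : ℝ) < j.2 := by exact_mod_cast hjm.2.1.1
      have h8 : (j.2 : ℝ) < j.1 := by exact_mod_cast hjm.2.1.2
      have h9 : (0 : ℝ) < j.1 := h7.trans h8
      have h1 : 0 < (j.2 : ℝ) / j.1 := by positivity
      have h2 : (j.2 : ℝ) / j.1 < 1 := (div_lt_one h9).2 h8
      have h3 := fn_nn _ hj.2 (by
        rw [abs_lt]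
        have h4 : 0 < (r : ℝ) / s := by positivity
        have h5 : (r : ℝ) / s < 1 := (div_lt_one hs0).2 hrs'
        constructor <;> linarith)
      have h6 : (r : ℝ) / s = (j.2 : ℝ) / j.1 := by linarith
      rw [div_eq_div_iff hs0.ne' h9.ne'] at h6
      exact_mod_cast h6
    have hinj : Set.InjOn (fun j : Σ _ : ℕ, ℕ => j.1)
        (((fnJ ρ A).filter (fun j => H26.LDP.nn ((r : ℝ) / s - (j.2 : ℝ) / j.1) = 0) :
          Finset (Σ _ : ℕ, ℕ)) : Set (Σ _ : ℕ, ℕ)) := by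
      intro j hj j' hj' h
      have h1 := hkey j hj
      have h2 := hkey j' hj'
      change j.1 = j'.1 at h
      rw [h, h2] at h1
      have h3 : j'.2 = j.2 := Nat.eq_of_mul_eq_mul_right (by omega) h1
      obtain ⟨a, k⟩ := j
      obtain ⟨a', k'⟩ := j'
      change a = a' at h
      change k' = k at h3
      rw [h, h3]
    rw [← card_image_of_injOn hinj]
    have hsub : ((fnJ ρ A).filter (fun j =>
        H26.LDP.nn ((r : ℝ) / s - (j.2 : ℝ) / j.1) = 0)).image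
        (fun j : Σ _ : ℕ, ℕ => j.1) ⊆ (Ioc 0 A).filter (fun a => s ∣ a) := by
      intro a ha
      rw [mem_image] at ha
      obtain ⟨j, hj, rfl⟩ := ha
      have h1 := hkey j hj
      rw [mem_filter] at hj
      have h2 := (fnJ_mem ρ A j).1 hj.1
      rw [mem_filter, mem_Ioc]
      refine ⟨⟨by omega, h2.1.2⟩, ?_⟩
      have h3 : s ∣ r * j.1 := ⟨j.2, by rw [h1, mul_comm]⟩
      exact hco.symm.dvd_of_dvd_mul_left h3
    have h4 := card_le_card hsub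
    rw [Nat.Ioc_filter_dvd_card_eq_div] at h4
    have h5 : (((fnJ ρ A).filter (fun j =>
        H26.LDP.nn ((r : ℝ) / s - (j.2 : ℝ) / j.1) = 0)).image
        (fun j : Σ _ : ℕ, ℕ => j.1)).card ≤ ((A / s : ℕ) : ℝ) := by exact_mod_cast h4
    exact h5.trans Nat.cast_div_le
  · have h1 := H43.HX.cou A s r (by omega) hsD hco
    refine le_trans ?_ h1
    rw [Finset.sum_sigma' (Icc 1 A) (fun m => range m) (fun m k =>
      (if H26.LDP.nn ((r : ℝ) / s - (k : ℝ) / m) = 0 then (0 : ℝ)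
        else 1 / (2 * H26.LDP.nn ((r : ℝ) / s - (k : ℝ) / m))))]
    apply Finset.sum_le_sum_of_subset_of_nonneg
    · intro p hp
      rw [fnJ_mem] at hp
      rw [mem_sigma, mem_Icc, mem_range]
      exact ⟨⟨by omega, hp.1.2⟩, hp.2.1.2⟩
    · intro p _ _
      split_ifs
      · exact le_rfl
      · have := H26.LDP.nn_nonneg ((r : ℝ) / s - (p.2 : ℝ) / p.1)
        positivity

open Classical in
theorem fn (g : ℕ → ℂ) (A N N' : ℕ) (G ρ : ℝ) (hA : 1 ≤ A) (hN : 1 ≤ N) (hN' : N' ≤ 2 * N)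
    (hAN : A ≤ 2 * N) (hg : ∀ a, ‖g a‖ ≤ G) (hρ : 0 < ρ) (hρ1 : ρ ≤ 1 / 2) :
    ∑ m ∈ Ioc 0 (2 * (A * N)), ‖∑ a ∈ Ioc (A / 2) A, if a * N < m ∧ m ≤ a * N' then
      (g a / a) * ∑ k ∈ nr ρ a, H26.LDP.e ((m : ℝ) * ((k : ℝ) / a)) else 0‖ ^ 2 ≤
      400 * G ^ 2 * ((A : ℝ) * N) * ρ * (1 + Real.log A) := by
  have hG0 : 0 ≤ G := (norm_nonneg _).trans (hg 0)
  have hA0 : (1 : ℝ) ≤ A := by exact_mod_cast hA
  have hN0 : (1 : ℝ) ≤ N := by exact_mod_cast hN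
  have hAN' : (A : ℝ) ≤ 2 * N := by exact_mod_cast hAN
  obtain ⟨L, hL⟩ : ∃ L : ℝ, L = 1 + Real.log A := ⟨_, rfl⟩
  have hL1 : 1 ≤ L := by
    have := Real.log_nonneg hA0
    rw [hL]
    linarith
  obtain ⟨V, hV⟩ : ∃ V : ℝ, V = 2 * ((A : ℝ) * N) := ⟨_, rfl⟩
  have hV0 : 0 ≤ V := by rw [hV]; positivity
  have hrw : ∀ m ∈ Ioc 0 (2 * (A * N)), ‖∑ a ∈ Ioc (A / 2) A, (if a * N < m ∧ m ≤ a * N' then
      (g a / a) * ∑ k ∈ nr ρ a, H26.LDP.e ((m : ℝ) * ((k : ℝ) / a)) else 0)‖ ^ 2 =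
      ‖∑ j ∈ fnJ ρ A, if j.1 * N < m ∧ m ≤ j.1 * N' then
        (g j.1 / j.1) * H26.LDP.e ((m : ℝ) * ((j.2 : ℝ) / j.1)) else 0‖ ^ 2 := by
    intro m _
    congr 2
    unfold fnJ
    rw [Finset.sum_sigma]
    refine sum_congr rfl fun a ha => ?_
    by_cases h : a * N < m ∧ m ≤ a * N'
    · rw [if_pos h, mul_sum]
      refine sum_congr rfl fun k _ => ?_
      change _ = if a * N < m ∧ m ≤ a * N' then _ else _
      rw [if_pos h]
    · rw [if_neg h, eq_comm]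
      refine sum_eq_zero fun k _ => ?_
      change (if a * N < m ∧ m ≤ a * N' then _ else _) = _
      rw [if_neg h]
  rw [sum_congr rfl hrw]
  refine (H43.HX.sch (fnJ ρ A) (fun j => g j.1 / j.1) (fun j => (j.2 : ℝ) / j.1)
    (fun j => j.1 * N) (fun j => j.1 * N') 0 (2 * (A * N)) (Nat.zero_le _)).trans ?_
  have hVV : ((2 * (A * N) : ℕ) : ℝ) - ((0 : ℕ) : ℝ) = V := by
    rw [hV]
    push_cast
    ring
  rw [hVV]
  -- each term
  have hterm : ∀ j ∈ fnJ ρ A, ‖g j.1 / j.1‖ ^ 2 * ∑ j' ∈ fnJ ρ A,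
        (if H26.LDP.nn ((j.2 : ℝ) / j.1 - (j'.2 : ℝ) / j'.1) = 0 then V
          else 1 / (2 * H26.LDP.nn ((j.2 : ℝ) / j.1 - (j'.2 : ℝ) / j'.1))) ≤
      4 * G ^ 2 / (A : ℝ) ^ 2 * (V * A * ((Nat.gcd j.2 j.1 : ℝ) / j.1) +
        5 * (A : ℝ) ^ 2 * L) := by
    intro j hj
    have hjm := (fnJ_mem ρ A j).1 hj
    have hj1 : 1 ≤ j.1 := by omega
    have hj1' : (0 : ℝ) < j.1 := by exact_mod_cast hj1
    have hg0 : 0 < Nat.gcd j.2 j.1 := Nat.gcd_pos_of_pos_left _ (by omega)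
    have hg' : (0 : ℝ) < (Nat.gcd j.2 j.1 : ℕ) := by exact_mod_cast hg0
    have h1 : (j.2 : ℝ) / j.1 = ((j.2 / Nat.gcd j.2 j.1 : ℕ) : ℝ) /
        ((j.1 / Nat.gcd j.2 j.1 : ℕ) : ℝ) := by
      rw [Nat.cast_div (Nat.gcd_dvd_left _ _) hg'.ne',
        Nat.cast_div (Nat.gcd_dvd_right _ _) hg'.ne', div_div_div_cancel_right₀ hg'.ne']
    have h2 := fn_inner ρ A (j.2 / Nat.gcd j.2 j.1) (j.1 / Nat.gcd j.2 j.1) V hV0
      (Nat.div_pos (Nat.gcd_le_left _ (by omega)) hg0)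
      (Nat.div_lt_div_of_lt_of_dvd (Nat.gcd_dvd_right _ _) hjm.2.1.2)
      (Nat.coprime_div_gcd_div_gcd hg0)
      ((Nat.div_le_self _ _).trans hjm.1.2)
    rw [← h1, ← hL] at h2
    have h3 : ‖g j.1 / j.1‖ ^ 2 ≤ 4 * G ^ 2 / (A : ℝ) ^ 2 := by
      have h4 : (A : ℝ) ≤ 2 * j.1 := by
        exact_mod_cast (by omega : A ≤ 2 * j.1)
      rw [norm_div, Complex.norm_natCast, div_pow, div_le_div_iff₀ (by positivity) (by positivity)]
      have h5 : ‖g j.1‖ ^ 2 ≤ G ^ 2 := pow_le_pow_left₀ (norm_nonneg _) (hg _) 2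
      have h6 : (A : ℝ) ^ 2 ≤ (2 * j.1) ^ 2 := pow_le_pow_left₀ (by positivity) h4 2
      calc ‖g j.1‖ ^ 2 * (A : ℝ) ^ 2 ≤ G ^ 2 * (2 * j.1) ^ 2 :=
            mul_le_mul h5 h6 (by positivity) (by positivity)
        _ = _ := by ring
    have h7 : (A : ℝ) / ((j.1 / Nat.gcd j.2 j.1 : ℕ) : ℝ) =
        A * ((Nat.gcd j.2 j.1 : ℝ) / j.1) := by
      rw [Nat.cast_div (Nat.gcd_dvd_right _ _) hg'.ne']
      field_simp
    rw [h7] at h2
    refine mul_le_mul h3 (h2.trans (le_of_eq (by ring))) ?_ (by positivity)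
    apply Finset.sum_nonneg
    intro j' _
    split_ifs
    · exact hV0
    · have := H26.LDP.nn_nonneg ((j.2 : ℝ) / j.1 - (j'.2 : ℝ) / j'.1)
      positivity
  refine (sum_le_sum hterm).trans ?_
  rw [← mul_sum, sum_add_distrib, ← mul_sum, sum_const, nsmul_eq_mul]
  -- the two sums
  have hsubI : Ioc (A / 2) A ⊆ Icc 1 A := by
    intro a ha
    rw [mem_Ioc] at ha
    rw [mem_Icc]
    omega
  have e1 : ∑ j ∈ fnJ ρ A, ((Nat.gcd j.2 j.1 : ℝ) / j.1) ≤ 2 * ρ * (A * L) := by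
    unfold fnJ
    rw [Finset.sum_sigma]
    have h1 : ∀ a ∈ Ioc (A / 2) A, ∑ k ∈ nr ρ a,
        ((Nat.gcd (⟨a, k⟩ : Σ _ : ℕ, ℕ).2 (⟨a, k⟩ : Σ _ : ℕ, ℕ).1 : ℝ) /
          (⟨a, k⟩ : Σ _ : ℕ, ℕ).1) ≤ 2 * ρ * a.divisors.card := by
      intro a ha
      rw [mem_Ioc] at ha
      have ha0 : (0 : ℝ) < a := by exact_mod_cast (by omega : 0 < a)
      change ∑ k ∈ nr ρ a, ((Nat.gcd k a : ℝ) / a) ≤ _
      rw [← sum_div, div_le_iff₀ ha0]
      refine (fn_two ρ a (fun k => (Nat.gcd k a : ℝ)) (fun k => Nat.cast_nonneg _) ?_).trans ?_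
      · intro k hk
        congr 1
        rw [Nat.gcd_comm, Nat.gcd_comm k a]
        exact Nat.gcd_self_sub_right hk.le
      · have h2 := fn_gcd a (ρ * a) (by positivity)
        calc 2 * ∑ k ∈ (Ico 1 a).filter (fun k : ℕ => (k : ℝ) < ρ * a), (Nat.gcd k a : ℝ)
            ≤ 2 * (ρ * a * a.divisors.card) := by linarith
          _ = _ := by ring
    refine (sum_le_sum h1).trans ?_
    rw [← mul_sum]
    refine mul_le_mul_of_nonneg_left ?_ (by positivity)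
    rw [hL]
    refine le_trans ?_ (fn_tau A)
    exact Finset.sum_le_sum_of_subset_of_nonneg hsubI fun a _ _ => Nat.cast_nonneg _
  have e2 : ((fnJ ρ A).card : ℝ) ≤ 2 * ρ * (A : ℝ) ^ 2 := by
    unfold fnJ
    rw [card_sigma]
    push_cast
    have h1 : ∀ a ∈ Ioc (A / 2) A, ((nr ρ a).card : ℝ) ≤ 2 * ρ * A := by
      intro a ha
      rw [mem_Ioc] at ha
      have h2 := fn_two ρ a (fun _ => 1) (fun _ => zero_le_one) (fun _ _ => rfl)
      rw [sum_const, sum_const, nsmul_eq_mul, nsmul_eq_mul, mul_one, mul_one] at h2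
      have h3 := fn_cnt a 1 (ρ * a) (by positivity) le_rfl
      have h4 : (Ico 1 a).filter (fun k : ℕ => (k : ℝ) < ρ * a ∧ 1 ∣ k) =
          (Ico 1 a).filter (fun k : ℕ => (k : ℝ) < ρ * a) := by
        refine filter_congr fun k _ => ?_
        simp
      rw [h4, Nat.cast_one, div_one] at h3
      have h5 : ρ * a ≤ ρ * A := mul_le_mul_of_nonneg_left (by exact_mod_cast ha.2) hρ.le
      linarith
    refine (Finset.sum_le_card_nsmul _ _ _ h1).trans ?_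
    rw [nsmul_eq_mul, Nat.card_Ioc]
    have h6 : ((A - A / 2 : ℕ) : ℝ) ≤ A := by exact_mod_cast Nat.sub_le _ _
    calc ((A - A / 2 : ℕ) : ℝ) * (2 * ρ * A) ≤ A * (2 * ρ * A) :=
          mul_le_mul_of_nonneg_right h6 (by positivity)
      _ = _ := by ring
  have hA2 : (0 : ℝ) < (A : ℝ) ^ 2 := by positivity
  calc 4 * G ^ 2 / (A : ℝ) ^ 2 * (V * A * ∑ j ∈ fnJ ρ A, ((Nat.gcd j.2 j.1 : ℝ) / j.1) +
        ((fnJ ρ A).card : ℝ) * (5 * (A : ℝ) ^ 2 * L))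
      ≤ 4 * G ^ 2 / (A : ℝ) ^ 2 * (V * A * (2 * ρ * (A * L)) +
        (2 * ρ * (A : ℝ) ^ 2) * (5 * (A : ℝ) ^ 2 * L)) := by
        gcongr
    _ = G ^ 2 * ρ * L * (16 * (A * N) + 40 * (A : ℝ) ^ 2) := by
        rw [hV]
        field_simp
        ring
    _ ≤ G ^ 2 * ρ * L * (400 * (A * N)) := by
        refine mul_le_mul_of_nonneg_left ?_ (by positivity)
        nlinarith
    _ = _ := by
        rw [hL]
        ring

end Pool.Agent.H67.PS
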