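import Pool.Agent.H67.PS.Fd
import Pool.Agent.H43.HX.Prs

/-!
# [H67 PS FO] The product as a sum over additive characters

PROOF. For `a >= 1` and all `N, N'`: `ex(-(t log a)) zs N N' t = Σ_{N<n<=N'} ex(-(t log(an)))` (`ex` is multiplicative, `log(an) = log a + log n`, `a, n >= 1`)
`= Σ_{m ∈ Ioc (aN) (aN')} [a ∣ m] ex(-(t log m))` (`m = a n`; `Finset.sum_nbij'` or image, `sum_filter`)
`= (1/a) Σ_{m} Σ_{k<a} e(mk/a) ex(-(t log m))` (`HX.prs_range`: `Σ_{r∈range s} e(n r/s) = s` if `s ∣ n`, else `0`)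
`= (1/a) Σ_{k∈range a} ks N N' a k t`. Then `range a = {0} ∪ Ico 1 a`, and `Ico 1 a = (Ico 1 a \ nr ρ a) ∪ nr ρ a` (`Finset.sum_sdiff`, `nr ρ a ⊆ Ico 1 a`).
-/

namespace Pool.Agent.H67.PS

open Finset
open Pool.Agent.H98.PK (ex)

private theorem fo_ex_add (x y : ℝ) : ex x * ex y = ex (x + y) := by
  unfold ex
  rw [← Complex.exp_add]
  congr 1
  push_cast
  ring

private theorem fo_smooth (a N N' : ℕ) (ha : 1 ≤ a) (t : ℝ) :
    ex (-(t * Real.log a)) * zs N N' t =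
      ∑ m ∈ (Ioc (a * N) (a * N')).filter (fun m : ℕ => (a : ℤ) ∣ (m : ℤ)), ex (-(t * Real.log m)) := by
  unfold zs
  rw [mul_sum]
  refine Finset.sum_nbij' (fun n => a * n) (fun m => m / a) ?_ ?_ ?_ ?_ ?_
  · intro n hn
    rw [mem_Ioc] at hn
    rw [mem_filter, mem_Ioc]
    refine ⟨⟨Nat.mul_lt_mul_of_pos_left hn.1 (by omega), Nat.mul_le_mul_left _ hn.2⟩, ?_⟩
    exact_mod_cast Dvd.intro n rfl
  · intro m hm
    rw [mem_filter, mem_Ioc] at hm
    have h1 : a ∣ m := by exact_mod_cast hm.2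
    obtain ⟨n, rfl⟩ := h1
    rw [Nat.mul_div_cancel_left n (by omega), mem_Ioc]
    exact ⟨Nat.lt_of_mul_lt_mul_left hm.1.1, Nat.le_of_mul_le_mul_left hm.1.2 (by omega)⟩
  · intro n _
    exact Nat.mul_div_cancel_left n (by omega)
  · intro m hm
    rw [mem_filter, mem_Ioc] at hm
    have h1 : a ∣ m := by exact_mod_cast hm.2
    exact Nat.mul_div_cancel' h1
  · intro n hn
    rw [mem_Ioc] at hn
    rw [fo_ex_add]
    congr 1
    have h1 : (a : ℝ) ≠ 0 := by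
      have : a ≠ 0 := by omega
      exact_mod_cast this
    have h2 : (n : ℝ) ≠ 0 := by
      have : n ≠ 0 := by omega
      exact_mod_cast this
    rw [Nat.cast_mul, Real.log_mul h1 h2]
    ring

private theorem fo_one (a N N' : ℕ) (ha : 1 ≤ a) (t : ℝ) :
    ∑ k ∈ range a, ks N N' a k t = (a : ℂ) * (ex (-(t * Real.log a)) * zs N N' t) := by
  rw [fo_smooth a N N' ha t]
  unfold ks
  rw [Finset.sum_comm, Finset.mul_sum, Finset.sum_filter]
  refine Finset.sum_congr rfl fun m _ => ?_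
  rw [← Finset.sum_mul]
  have h1 := H43.HX.prs_range a ha (m : ℤ)
  have h2 : ∑ k ∈ range a, H26.LDP.e ((m : ℝ) * ((k : ℝ) / a)) =
      ∑ r ∈ range a, H26.LDP.e ((((m : ℕ) : ℤ) : ℝ) * ((r : ℝ) / a)) := by
    refine Finset.sum_congr rfl fun k _ => ?_
    rw [Int.cast_natCast]
  rw [h2, h1]
  split_ifs
  · rfl
  · rw [zero_mul]

private theorem fo_split (f : ℕ → ℂ) (ρ : ℝ) (a : ℕ) (ha : 1 ≤ a) :
    ∑ k ∈ range a, f k = (f 0 + ∑ k ∈ Ico 1 a \ nr ρ a, f k) + ∑ k ∈ nr ρ a, f k := by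
  have h1 : nr ρ a ⊆ Ico 1 a := by
    intro k hk
    rw [mem_nr] at hk
    exact mem_Ico.2 hk.1
  rw [add_assoc, Finset.sum_sdiff h1, Finset.range_eq_Ico, Finset.sum_eq_sum_Ico_succ_bot (by omega)]

theorem fo (g : ℕ → ℂ) (A N N' : ℕ) (ρ t : ℝ) :
    gs g A t * zs N N' t =
      (∑ a ∈ Ioc (A / 2) A, (g a / a) * (ks N N' a 0 t + ∑ k ∈ Ico 1 a \ nr ρ a, ks N N' a k t)) +
      ∑ a ∈ Ioc (A / 2) A, (g a / a) * ∑ k ∈ nr ρ a, ks N N' a k t := by
  unfold gs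
  rw [Finset.sum_mul, ← Finset.sum_add_distrib]
  refine Finset.sum_congr rfl fun a ha => ?_
  rw [mem_Ioc] at ha
  have ha1 : 1 ≤ a := by omega
  have ha0 : (a : ℂ) ≠ 0 := by
    have : a ≠ 0 := by omega
    exact_mod_cast this
  rw [← mul_add, ← fo_split (fun k => ks N N' a k t) ρ a ha1, fo_one a N N' ha1 t]
  field_simp

end Pool.Agent.H67.PS
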