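import Pool.Agent.H67.PS.Fk

/-!
# [H67 PS FP] Pointwise bound for the far frequencies

`H = AN/T1 >= 16`, `H <= A` (as `N <= T1`), `ρ = 2/H = 2 T1/(AN)`.

PROOF. `‖g a/a‖ <= G/a <= 2G/A` (`2a >= A`; `A >= 1`), and `#Ioc (A/2) A = A - A/2 <= A`. By `fk_zero` `‖ks 0‖ <= 80 H <= 80 A`. For
`k ∈ Ico 1 a \ nr ρ a`: `nn(k/a) >= ρ`, `fk_far`: `‖ks k‖ <= 6/nn(k/a)`. `nn(k/a) >= min(k, a-k)/a` for `1 <= k < a` (distance of `k/a` to every integer is
`>= k/a` or `>= (a-k)/a`), so `1/nn(k/a) <= a/k + a/(a-k)` and `Σ_{k∈Ico 1 a} 1/nn(k/a) <= 2a(1 + log a) <= 2A(1+log A)` (harmonic sum: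
`harmonic_le_one_add_log`; see `psp_harm` in HX/Psp). Total
`<= Σ_a (2G/A) (80 A + 12 A (1+log A)) <= A (2G/A) 92 A (1+log A) = 184 G A (1+log A)`.
-/

namespace Pool.Agent.H67.PS

open Finset
open Pool.Agent.H98.PK (ex)

private theorem fp_harm (A : ℕ) : ∑ a ∈ Icc 1 A, 1 / (a : ℝ) ≤ 1 + Real.log A := by
  have h := harmonic_le_one_add_log A
  rw [harmonic_eq_sum_Icc] at h
  push_cast at h
  simpa [one_div] using h

private theorem fp_nn (a k : ℕ) (h1 : 1 ≤ k) (h2 : k < a) :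
    1 / H26.LDP.nn ((k : ℝ) / a) ≤ (a : ℝ) / k + (a : ℝ) / ((a - k : ℕ) : ℝ) := by
  have hk : (0 : ℝ) < k := by exact_mod_cast h1
  have hka : (k : ℝ) < a := by exact_mod_cast h2
  have ha : (0 : ℝ) < a := by linarith
  have hs : ((a - k : ℕ) : ℝ) = (a : ℝ) - k := by
    rw [Nat.cast_sub h2.le]
  rw [hs]
  have hak : (0 : ℝ) < (a : ℝ) - k := by linarith
  unfold H26.LDP.nn
  rcases le_or_gt (round ((k : ℝ) / a)) 0 with h | h
  · have h3 : ((round ((k : ℝ) / a) : ℤ) : ℝ) ≤ 0 := by exact_mod_cast h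
    have h4 : (k : ℝ) / a ≤ |(k : ℝ) / a - round ((k : ℝ) / a)| := by
      refine le_trans ?_ (le_abs_self _)
      linarith
    have h5 : 1 / |(k : ℝ) / a - round ((k : ℝ) / a)| ≤ 1 / ((k : ℝ) / a) :=
      one_div_le_one_div_of_le (by positivity) h4
    rw [one_div_div] at h5
    have h6 : 0 ≤ (a : ℝ) / ((a : ℝ) - k) := by positivity
    linarith
  · have h3 : (1 : ℝ) ≤ ((round ((k : ℝ) / a) : ℤ) : ℝ) := by exact_mod_cast h
    have h4 : ((a : ℝ) - k) / a ≤ |(k : ℝ) / a - round ((k : ℝ) / a)| := by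
      refine le_trans ?_ (neg_le_abs _)
      rw [sub_div, div_self ha.ne']
      linarith
    have h5 : 1 / |(k : ℝ) / a - round ((k : ℝ) / a)| ≤ 1 / (((a : ℝ) - k) / a) :=
      one_div_le_one_div_of_le (by positivity) h4
    rw [one_div_div] at h5
    have h6 : 0 ≤ (a : ℝ) / (k : ℝ) := by positivity
    linarith

private theorem fp_sum (a : ℕ) (_ha : 1 ≤ a) :
    ∑ k ∈ Ico 1 a, ((a : ℝ) / k + (a : ℝ) / ((a - k : ℕ) : ℝ)) ≤ 2 * (a * (1 + Real.log a)) := by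
  have h1 : ∑ k ∈ Ico 1 a, (a : ℝ) / ((a - k : ℕ) : ℝ) = ∑ k ∈ Ico 1 a, (a : ℝ) / (k : ℝ) := by
    have h := Finset.sum_Ico_reflect (fun j : ℕ => (a : ℝ) / (j : ℝ)) 1 (m := a) (n := a) (Nat.le_succ a)
    rw [Nat.add_sub_cancel_left, Nat.add_sub_cancel] at h
    exact h
  have h2 : ∑ k ∈ Ico 1 a, (a : ℝ) / (k : ℝ) ≤ a * (1 + Real.log a) := by
    calc ∑ k ∈ Ico 1 a, (a : ℝ) / (k : ℝ) = a * ∑ k ∈ Ico 1 a, 1 / (k : ℝ) := by
          rw [Finset.mul_sum]
          refine Finset.sum_congr rfl fun k _ => ?_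
          ring
      _ ≤ a * ∑ k ∈ Icc 1 a, 1 / (k : ℝ) := by
          apply mul_le_mul_of_nonneg_left _ (Nat.cast_nonneg a)
          apply Finset.sum_le_sum_of_subset_of_nonneg
          · intro x hx
            rw [mem_Ico] at hx
            exact mem_Icc.2 ⟨hx.1, hx.2.le⟩
          · intro x _ _
            positivity
      _ ≤ a * (1 + Real.log a) := mul_le_mul_of_nonneg_left (fp_harm a) (Nat.cast_nonneg a)
  rw [Finset.sum_add_distrib, h1]
  linarith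

theorem fp (g : ℕ → ℂ) (A N N' : ℕ) (G T1 t : ℝ) (hA : 1 ≤ A) (hN : 1 ≤ N) (hN' : N' ≤ 2 * N)
    (hg : ∀ a, ‖g a‖ ≤ G) (hT : (N : ℝ) ≤ T1) (h1 : T1 ≤ t) (h2 : t ≤ 2 * T1)
    (hH : 16 * T1 ≤ (A : ℝ) * N) :
    ‖∑ a ∈ Ioc (A / 2) A, (g a / a) * (ks N N' a 0 t +
      ∑ k ∈ Ico 1 a \ nr (2 * T1 / ((A : ℝ) * N)) a, ks N N' a k t)‖ ≤
      184 * G * A * (1 + Real.log A) := by
  have hN1 : (1 : ℝ) ≤ N := by exact_mod_cast hN
  have hA1 : (1 : ℝ) ≤ A := by exact_mod_cast hA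
  have hT1 : 1 ≤ T1 := le_trans hN1 hT
  have hG : 0 ≤ G := le_trans (norm_nonneg _) (hg 0)
  have hL : 0 ≤ Real.log A := Real.log_nonneg hA1
  have hterm : ∀ a ∈ Ioc (A / 2) A, ‖(g a / a) * (ks N N' a 0 t +
      ∑ k ∈ Ico 1 a \ nr (2 * T1 / ((A : ℝ) * N)) a, ks N N' a k t)‖ ≤ 184 * G * (1 + Real.log A) := by
    intro a ha
    obtain ⟨ha1, ha2⟩ := mem_Ioc.1 ha
    have ha0 : 1 ≤ a := by omega
    have h2a : A ≤ 2 * a := by omega
    have haR : (1 : ℝ) ≤ a := by exact_mod_cast ha0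
    have haA : (a : ℝ) ≤ A := by exact_mod_cast ha2
    have h2aR : (A : ℝ) ≤ 2 * a := by exact_mod_cast h2a
    have e1 : ‖g a / a‖ ≤ 2 * G / A := by
      rw [norm_div, Complex.norm_natCast, div_le_div_iff₀ (by linarith) (by linarith)]
      calc ‖g a‖ * A ≤ G * (2 * a) := by
            apply mul_le_mul (hg a) h2aR (by linarith) hG
        _ = 2 * G * a := by ring
    have e2 : ‖ks N N' a 0 t‖ ≤ 80 * A := by
      refine (fk_zero A N N' a T1 t hN hN' ha hT1 h1 h2 hH).trans ?_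
      apply mul_le_mul_of_nonneg_left _ (by norm_num)
      rw [div_le_iff₀ (by linarith)]
      exact mul_le_mul_of_nonneg_left hT (by linarith)
    have e3 : ‖∑ k ∈ Ico 1 a \ nr (2 * T1 / ((A : ℝ) * N)) a, ks N N' a k t‖ ≤
        12 * A * (1 + Real.log A) := by
      calc ‖∑ k ∈ Ico 1 a \ nr (2 * T1 / ((A : ℝ) * N)) a, ks N N' a k t‖
          ≤ ∑ k ∈ Ico 1 a \ nr (2 * T1 / ((A : ℝ) * N)) a, ‖ks N N' a k t‖ := norm_sum_le _ _
        _ ≤ ∑ k ∈ Ico 1 a \ nr (2 * T1 / ((A : ℝ) * N)) a,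
            6 * ((a : ℝ) / k + (a : ℝ) / ((a - k : ℕ) : ℝ)) := by
            apply Finset.sum_le_sum
            intro k hk
            obtain ⟨hk1, hk2⟩ := mem_sdiff.1 hk
            obtain ⟨hk3, hk4⟩ := mem_Ico.1 hk1
            have hf : 2 * T1 / ((A : ℝ) * N) ≤ H26.LDP.nn ((k : ℝ) / a) := by
              by_contra hlt
              exact hk2 ((mem_nr _ a k).2 ⟨⟨hk3, hk4⟩, not_le.1 hlt⟩)
            refine (fk_far A N N' a k T1 t hN hN' ha hT1 h1 h2 hH hk1 hf).trans ?_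
            have h5 := fp_nn a k hk3 hk4
            calc 6 / H26.LDP.nn ((k : ℝ) / a) = 6 * (1 / H26.LDP.nn ((k : ℝ) / a)) := by ring
              _ ≤ _ := mul_le_mul_of_nonneg_left h5 (by norm_num)
        _ ≤ ∑ k ∈ Ico 1 a, 6 * ((a : ℝ) / k + (a : ℝ) / ((a - k : ℕ) : ℝ)) := by
            apply Finset.sum_le_sum_of_subset_of_nonneg sdiff_subset
            intro k _ _
            positivity
        _ = 6 * ∑ k ∈ Ico 1 a, ((a : ℝ) / k + (a : ℝ) / ((a - k : ℕ) : ℝ)) := by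
            rw [Finset.mul_sum]
        _ ≤ 6 * (2 * (a * (1 + Real.log a))) :=
            mul_le_mul_of_nonneg_left (fp_sum a ha0) (by norm_num)
        _ = 12 * (a * (1 + Real.log a)) := by ring
        _ ≤ 12 * (A * (1 + Real.log A)) := by
            have h6 : Real.log a ≤ Real.log A := Real.log_le_log (by linarith) haA
            have h7 : 0 ≤ Real.log a := Real.log_nonneg haR
            have h8 : (a : ℝ) * (1 + Real.log a) ≤ A * (1 + Real.log A) :=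
              mul_le_mul haA (by linarith) (by linarith) (by linarith)
            linarith
        _ = _ := by ring
    rw [norm_mul]
    calc ‖g a / a‖ * ‖ks N N' a 0 t + ∑ k ∈ Ico 1 a \ nr (2 * T1 / ((A : ℝ) * N)) a, ks N N' a k t‖
        ≤ (2 * G / A) * (80 * A + 12 * A * (1 + Real.log A)) := by
          apply mul_le_mul e1 ((norm_add_le _ _).trans (add_le_add e2 e3)) (norm_nonneg _)
          positivity
      _ = 2 * G * (80 + 12 * (1 + Real.log A)) := by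
          field_simp
      _ ≤ 2 * G * (92 * (1 + Real.log A)) := by
          apply mul_le_mul_of_nonneg_left _ (by positivity)
          linarith
      _ = 184 * G * (1 + Real.log A) := by ring
  calc ‖∑ a ∈ Ioc (A / 2) A, (g a / a) * (ks N N' a 0 t +
      ∑ k ∈ Ico 1 a \ nr (2 * T1 / ((A : ℝ) * N)) a, ks N N' a k t)‖
      ≤ ∑ a ∈ Ioc (A / 2) A, ‖(g a / a) * (ks N N' a 0 t +
        ∑ k ∈ Ico 1 a \ nr (2 * T1 / ((A : ℝ) * N)) a, ks N N' a k t)‖ := norm_sum_le _ _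
    _ ≤ ∑ a ∈ Ioc (A / 2) A, 184 * G * (1 + Real.log A) := Finset.sum_le_sum hterm
    _ = ((A - A / 2 : ℕ) : ℝ) * (184 * G * (1 + Real.log A)) := by
        rw [Finset.sum_const, Nat.card_Ioc, nsmul_eq_mul]
    _ ≤ (A : ℝ) * (184 * G * (1 + Real.log A)) := by
        apply mul_le_mul_of_nonneg_right _ (by positivity)
        exact_mod_cast Nat.sub_le _ _
    _ = 184 * G * A * (1 + Real.log A) := by ring

end Pool.Agent.H67.PS
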