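import Pool.Agent.H67.PS.Fd
import Pool.Agent.H43.SI.Mvt
import Pool.Agent.H43.SI.Div

/-!
# [H67 PS FS] The mean value theorem for the product, `AN <= 16 T1`

PROOF. `gs g A t * zs N N' t = Σ_{a,n} g(a) ex(-(t log(an))) = Σ_{m∈Icc 1 (2AN)} f(m) m^(-it)`, `f(m) = Σ_{a ∈ Ioc (A/2) A, a ∣ m, m/a ∈ Ioc N N'} g(a)`
(`m = an <= A N' <= 2AN`), `|f(m)| <= G τ(m)`, `τ(m) = #divisors` `= (ζ^2)(m)` (`m >= 1`). `SI.mvt` (range `2AN`, `T = 2 T1`; `ex(-(t log m)) = m^(-it)`: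
`Complex.cpow_def_of_ne_zero`, `Complex.natCast_log`) and `SI.div_sq 2`: `∫_{-2T1}^{2T1} <= C (2T1 + 2AN) G^2 2AN (1+log(2AN))^4 <= 68 C G^2 (AN) T1 (1+log(2AN))^4`,
`1 + log(2AN) <= 2(1+log(AN))`. The integral over `[T1, 2T1]` is at most that over `[-2T1, 2T1]` (`intervalIntegral.integral_mono_interval`, continuous
nonnegative integrand).
-/

namespace Pool.Agent.H67.PS

open Finset
open Pool.Agent.H98.PK (ex)

private theorem fs_ex_add (x y : ℝ) : ex x * ex y = ex (x + y) := by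
  unfold ex
  rw [← Complex.exp_add]
  congr 1
  push_cast
  ring

private theorem fs_ex_cpow (m : ℕ) (hm : 1 ≤ m) (t : ℝ) :
    ex (-(t * Real.log m)) = (m : ℂ) ^ (-((t : ℂ) * Complex.I)) := by
  have hm0 : (m : ℂ) ≠ 0 := by
    have : m ≠ 0 := by omega
    exact_mod_cast this
  unfold ex
  rw [Complex.cpow_def_of_ne_zero hm0, ← Complex.natCast_log]
  congr 1
  push_cast
  ring

open Classical in
/-- the coefficients of the product -/
private noncomputable def fsc (g : ℕ → ℂ) (A N N' m : ℕ) : ℂ :=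
  ∑ a ∈ Ioc (A / 2) A, if a ∣ m ∧ m / a ∈ Ioc N N' then g a else 0

open Classical in
private theorem fs_row (F : ℕ → ℂ) (a A N N' : ℕ) (ha : 1 ≤ a) (haA : a ≤ A) (hN : N' ≤ 2 * N) :
    ∑ m ∈ Icc 1 (2 * (A * N)), (if a ∣ m ∧ m / a ∈ Ioc N N' then F m else 0) =
      ∑ n ∈ Ioc N N', F (a * n) := by
  rw [← Finset.sum_filter]
  symm
  refine Finset.sum_nbij' (fun n => a * n) (fun m => m / a) ?_ ?_ ?_ ?_ ?_
  · intro n hn
    rw [mem_Ioc] at hn
    rw [mem_filter, mem_Icc, Nat.mul_div_cancel_left n (by omega), mem_Ioc]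
    refine ⟨⟨?_, ?_⟩, Dvd.intro n rfl, hn⟩
    · exact Nat.mul_pos ha (by omega)
    · calc a * n ≤ A * (2 * N) := Nat.mul_le_mul haA (hn.2.trans hN)
        _ = 2 * (A * N) := by ring
  · intro m hm
    rw [mem_filter] at hm
    exact hm.2.2
  · intro n _
    exact Nat.mul_div_cancel_left n (by omega)
  · intro m hm
    rw [mem_filter] at hm
    exact Nat.mul_div_cancel' hm.2.1
  · intro n _
    rfl

private theorem fs_eq (g : ℕ → ℂ) (A N N' : ℕ) (hN : N' ≤ 2 * N) (t : ℝ) :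
    gs g A t * zs N N' t =
      ∑ m ∈ Icc 1 (2 * (A * N)), fsc g A N N' m * (m : ℂ) ^ (-((t : ℂ) * Complex.I)) := by
  classical
  have h1 : ∑ m ∈ Icc 1 (2 * (A * N)), fsc g A N N' m * (m : ℂ) ^ (-((t : ℂ) * Complex.I)) =
      ∑ a ∈ Ioc (A / 2) A, ∑ m ∈ Icc 1 (2 * (A * N)),
        (if a ∣ m ∧ m / a ∈ Ioc N N' then g a * ex (-(t * Real.log m)) else 0) := by
    rw [Finset.sum_comm]
    refine Finset.sum_congr rfl fun m hm => ?_
    rw [mem_Icc] at hm
    unfold fsc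
    rw [← fs_ex_cpow m hm.1 t, Finset.sum_mul]
    refine Finset.sum_congr rfl fun a _ => ?_
    rw [ite_mul, zero_mul]
  rw [h1]
  unfold gs
  rw [Finset.sum_mul]
  refine Finset.sum_congr rfl fun a ha => ?_
  rw [mem_Ioc] at ha
  rw [fs_row (fun m => g a * ex (-(t * Real.log m))) a A N N' (by omega) ha.2 hN]
  unfold zs
  rw [Finset.mul_sum]
  refine Finset.sum_congr rfl fun n hn => ?_
  rw [mem_Ioc] at hn
  rw [mul_assoc, fs_ex_add]
  congr 2
  have h3 : (a : ℝ) ≠ 0 := by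
    have : a ≠ 0 := by omega
    exact_mod_cast this
  have h4 : (n : ℝ) ≠ 0 := by
    have : n ≠ 0 := by omega
    exact_mod_cast this
  rw [Nat.cast_mul, Real.log_mul h3 h4]
  ring

private theorem fs_zeta (m : ℕ) :
    ((((ArithmeticFunction.zeta : ArithmeticFunction ℕ) ^ 2) m : ℕ) : ℝ) = (m.divisors.card : ℝ) := by
  rw [pow_two, ArithmeticFunction.zeta_mul_apply]
  congr 1
  rw [Finset.card_eq_sum_ones]
  refine Finset.sum_congr rfl fun d hd => ?_
  exact ArithmeticFunction.zeta_apply_ne (Nat.pos_of_mem_divisors hd).ne'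

private theorem fs_bound (g : ℕ → ℂ) (A N N' m : ℕ) (hm : 1 ≤ m) (G : ℝ) (hG : ∀ a, ‖g a‖ ≤ G) :
    ‖fsc g A N N' m‖ ≤ G * (m.divisors.card : ℝ) := by
  classical
  have hG0 : 0 ≤ G := (norm_nonneg _).trans (hG 0)
  unfold fsc
  calc ‖∑ a ∈ Ioc (A / 2) A, (if a ∣ m ∧ m / a ∈ Ioc N N' then g a else 0)‖
      ≤ ∑ a ∈ Ioc (A / 2) A, ‖(if a ∣ m ∧ m / a ∈ Ioc N N' then g a else 0)‖ := norm_sum_le _ _
    _ ≤ ∑ a ∈ Ioc (A / 2) A, (if a ∣ m then G else 0) := by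
        refine Finset.sum_le_sum fun a _ => ?_
        by_cases h : a ∣ m
        · rw [if_pos h]
          split_ifs
          · exact hG a
          · rw [norm_zero]
            exact hG0
        · rw [if_neg h, if_neg (fun h' => h h'.1), norm_zero]
    _ = ∑ a ∈ (Ioc (A / 2) A).filter (fun a => a ∣ m), G := by rw [Finset.sum_filter]
    _ = (((Ioc (A / 2) A).filter (fun a => a ∣ m)).card : ℝ) * G := by
        rw [Finset.sum_const, nsmul_eq_mul]
    _ ≤ (m.divisors.card : ℝ) * G := by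
        refine mul_le_mul_of_nonneg_right ?_ hG0
        have hsub : (Ioc (A / 2) A).filter (fun a => a ∣ m) ⊆ m.divisors := by
          intro a ha
          rw [mem_filter] at ha
          exact Nat.mem_divisors.2 ⟨ha.2, by omega⟩
        exact_mod_cast Finset.card_le_card hsub
    _ = G * (m.divisors.card : ℝ) := mul_comm _ _

theorem fs : ∃ C : ℝ, 0 < C ∧ ∀ (g : ℕ → ℂ) (A N N' : ℕ) (G T1 : ℝ), 1 ≤ A → 1 ≤ N → N' ≤ 2 * N →
    (∀ a, ‖g a‖ ≤ G) → 1 ≤ T1 → (A : ℝ) * N ≤ 16 * T1 →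
    ∫ t in T1..(2 * T1), ‖gs g A t * zs N N' t‖ ^ 2 ≤
      C * G ^ 2 * ((A : ℝ) * N) * T1 * (1 + Real.log (A * N : ℕ)) ^ 4 := by
  obtain ⟨C, hC, hmvt⟩ := H43.SI.mvt
  refine ⟨1088 * C, by positivity, ?_⟩
  intro g A N N' G T1 hA hN hN' hG hT1 hAN
  have hG0 : 0 ≤ G := (norm_nonneg _).trans (hG 0)
  have hAN1 : 1 ≤ A * N := Nat.mul_pos hA hN
  have hM : 1 ≤ 2 * (A * N) := by omega
  set S : ℝ → ℝ := fun t =>
    ‖∑ m ∈ Icc 1 (2 * (A * N)), fsc g A N N' m * (m : ℂ) ^ (-((t : ℂ) * Complex.I))‖ ^ 2 with hS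
  have hSc : Continuous S := by
    have h1 : Continuous fun t : ℝ =>
        ∑ m ∈ Icc 1 (2 * (A * N)), fsc g A N N' m * (m : ℂ) ^ (-((t : ℂ) * Complex.I)) := by
      refine continuous_finset_sum _ fun m hm => ?_
      rw [mem_Icc] at hm
      have hm0 : (m : ℂ) ≠ 0 := by
        have : m ≠ 0 := by omega
        exact_mod_cast this
      refine continuous_const.mul ?_
      refine Continuous.const_cpow ?_ (Or.inl hm0)
      fun_prop
    exact h1.norm.pow 2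
  have h1 : ∫ t in T1..(2 * T1), ‖gs g A t * zs N N' t‖ ^ 2 = ∫ t in T1..(2 * T1), S t := by
    refine intervalIntegral.integral_congr fun t _ => ?_
    simp only [hS]
    rw [fs_eq g A N N' hN' t]
  have h2 : ∫ t in T1..(2 * T1), S t ≤ ∫ t in (-(2 * T1))..(2 * T1), S t := by
    refine intervalIntegral.integral_mono_interval (by linarith) (by linarith) le_rfl ?_
      (hSc.intervalIntegrable _ _)
    exact Filter.Eventually.of_forall fun t => by
      simp only [hS]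
      exact sq_nonneg _
  have h3 := hmvt (2 * (A * N)) (2 * T1) (fsc g A N N') hM (by linarith)
  have h4 : ∑ m ∈ Icc 1 (2 * (A * N)), ‖fsc g A N N' m‖ ^ 2 ≤
      G ^ 2 * ((2 * (A * N) : ℕ) * (1 + Real.log (2 * (A * N) : ℕ)) ^ (2 ^ 2)) := by
    refine le_trans ?_ (mul_le_mul_of_nonneg_left (H43.SI.div_sq 2 (2 * (A * N)) hM) (sq_nonneg G))
    rw [Finset.mul_sum]
    refine Finset.sum_le_sum fun m hm => ?_
    rw [mem_Icc] at hm
    rw [fs_zeta, ← mul_pow]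
    exact pow_le_pow_left₀ (norm_nonneg _) (fs_bound g A N N' m hm.1 G hG) 2
  have hANr : (1 : ℝ) ≤ ((A * N : ℕ) : ℝ) := by exact_mod_cast hAN1
  have hlog : 0 ≤ Real.log ((A * N : ℕ) : ℝ) := Real.log_nonneg hANr
  have h5 : 1 + Real.log ((2 * (A * N) : ℕ) : ℝ) ≤ 2 * (1 + Real.log ((A * N : ℕ) : ℝ)) := by
    have h6 : ((2 * (A * N) : ℕ) : ℝ) = 2 * ((A * N : ℕ) : ℝ) := by push_cast; ring
    rw [h6, Real.log_mul (by norm_num) (by linarith)]
    have := Real.log_two_lt_d9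
    linarith
  have h50 : 0 ≤ 1 + Real.log ((2 * (A * N) : ℕ) : ℝ) := by
    have h6 : (1 : ℝ) ≤ ((2 * (A * N) : ℕ) : ℝ) := by exact_mod_cast hM
    have := Real.log_nonneg h6
    linarith
  have h7 : (1 + Real.log ((2 * (A * N) : ℕ) : ℝ)) ^ (2 ^ 2) ≤
      16 * (1 + Real.log ((A * N : ℕ) : ℝ)) ^ 4 := by
    have h8 := pow_le_pow_left₀ h50 h5 4
    calc (1 + Real.log ((2 * (A * N) : ℕ) : ℝ)) ^ (2 ^ 2)
        = (1 + Real.log ((2 * (A * N) : ℕ) : ℝ)) ^ 4 := by norm_num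
      _ ≤ (2 * (1 + Real.log ((A * N : ℕ) : ℝ))) ^ 4 := h8
      _ = 16 * (1 + Real.log ((A * N : ℕ) : ℝ)) ^ 4 := by ring
  have hcast : ((A * N : ℕ) : ℝ) = (A : ℝ) * N := by push_cast; ring
  have hcast2 : ((2 * (A * N) : ℕ) : ℝ) = 2 * ((A : ℝ) * N) := by push_cast; ring
  have hANp : 0 ≤ (A : ℝ) * N := by positivity
  have hL : 0 ≤ (1 + Real.log ((A * N : ℕ) : ℝ)) ^ 4 := by positivity
  calc ∫ t in T1..(2 * T1), ‖gs g A t * zs N N' t‖ ^ 2
      ≤ C * (2 * T1 + (2 * (A * N) : ℕ)) * ∑ m ∈ Icc 1 (2 * (A * N)), ‖fsc g A N N' m‖ ^ 2 := by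
        rw [h1]
        exact h2.trans h3
    _ ≤ C * (34 * T1) * (G ^ 2 * (2 * ((A : ℝ) * N) * (16 * (1 + Real.log ((A * N : ℕ) : ℝ)) ^ 4))) := by
        refine mul_le_mul ?_ (h4.trans ?_) (Finset.sum_nonneg fun _ _ => sq_nonneg _) (by positivity)
        · refine mul_le_mul_of_nonneg_left ?_ hC.le
          rw [hcast2]
          linarith
        · refine mul_le_mul_of_nonneg_left ?_ (sq_nonneg G)
          rw [hcast2]
          refine mul_le_mul_of_nonneg_left ?_ (by positivity)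
          rw [← hcast2]
          exact h7
    _ = 1088 * C * G ^ 2 * ((A : ℝ) * N) * T1 * (1 + Real.log (A * N : ℕ)) ^ 4 := by ring

end Pool.Agent.H67.PS
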