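import Pool.Agent.H67.PS.Fz
import Pool.Agent.H67.PS.Poly

/-!
# [H67 PS FW] The mean square of the product of a smooth factor and a shorter factor

`i` smooth (`4 <= i`), `2^b <= 2^a`, `2^a/2 <= T1`, `1 <= T1`: `∫_{T1<=|t|<=2T1} ‖pol_i a t * pol_j b t‖^2 dt <= C (1+a)^8 T1/2^(a+b)`.

PROOF. `a = 0`: then `b = 0`, `‖pol‖ <= 1` (`pw_triv8`), measure `2 T1`. Let `a = a' + 1`, `N = 2^a' `, so `pol (cf c1 i) a t = Σ_{n∈Ioc N (2N)} w(n) ex(-(t log n))` with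
`w(n) = 1/n` or `log n/n` (`c1 n = 1`; `n^(-(1+it)) = n^(-1) ex(-(t log n))`). Abel: `= w(2N) zs N (2N) t + Σ_{m∈Ioo N (2N)} (w m - w (m+1)) zs N m t`.
`V = |w(2N)| + Σ |w m - w(m+1)| <= 4 (1+a)/N`. Cauchy: `|pol_i gs|^2 <= V (|w(2N)| |zs N (2N) gs|^2 + Σ |w m - w(m+1)| |zs N m gs|^2)`, so
`∫_{T1}^{2T1} <= V^2 max_m ∫|zs N m gs|^2`, and `fz` with `A = 2^b <= 2N`, `g(n) = cf c1 j n / n` on `Ioc (A/2) A` (else `0`), `|g| <= G = 2(1+b)/2^b`
(`mvp_cf`): `<= (4(1+a)/N)^2 C (2(1+b)/2^b)^2 2^b N T1 (1+log N)^4 <= 128 C (1+a)^8 T1/2^(a+b)`.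
Negative `t`: all `cf c1 i n` are real, so `pol (cf c1 i) a (-t) = conj (pol (cf c1 i) a t)`.
-/

namespace Pool.Agent.H67.PS

open Finset MeasureTheory
open Pool.Agent.H43.SI (pol)
open Pool.Agent.H98.PK (ex c1)

private theorem fw_term (n : ℕ) (hn : 1 ≤ n) (t : ℝ) :
    (n : ℂ) ^ (-(1 + (t : ℂ) * Complex.I)) = (n : ℂ)⁻¹ * ex (-(t * Real.log n)) := by
  have hn0 : (n : ℂ) ≠ 0 := by exact_mod_cast (by omega : n ≠ 0)
  have h1 : -(1 + (t : ℂ) * Complex.I) = -1 + (-(t * Complex.I)) := by ring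
  rw [h1, Complex.cpow_add _ _ hn0, Complex.cpow_neg_one]
  congr 1
  rw [Complex.cpow_def_of_ne_zero hn0, ← Complex.natCast_log]
  unfold ex
  congr 1
  push_cast
  ring

private theorem fw_pol (c : ℕ → ℂ) (a : ℕ) (t : ℝ) :
    pol c a t = ∑ n ∈ Ioc (2 ^ a / 2) (2 ^ a), (c n / n) * ex (-(t * Real.log n)) := by
  unfold pol H43.LF.ds
  refine sum_congr rfl fun n hn => ?_
  rw [mem_Ioc] at hn
  rw [fw_term n (by omega) t, div_eq_mul_inv, mul_assoc]

private theorem fw_ex (n : ℕ) : Continuous fun t : ℝ => ex (-(t * Real.log n)) := by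
  unfold ex
  fun_prop

private theorem fw_polc (c : ℕ → ℂ) (a : ℕ) : Continuous fun t : ℝ => pol c a t := by
  simp only [fw_pol]
  exact continuous_finsetSum _ fun n _ => continuous_const.mul (fw_ex n)

private theorem fw_conj (i : Fin 8) (a : ℕ) (t : ℝ) :
    ‖pol (cf c1 i) a (-t)‖ = ‖pol (cf c1 i) a t‖ := by
  rw [fw_pol, fw_pol, ← Complex.norm_conj (∑ n ∈ Ioc (2 ^ a / 2) (2 ^ a),
    (cf c1 i n / n) * ex (-(t * Real.log n))), map_sum]
  congr 1
  refine sum_congr rfl fun n _ => ?_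
  rw [map_mul, map_div₀, Complex.conj_natCast]
  have h1 : (starRingEnd ℂ) (cf c1 i n) = cf c1 i n := by
    have hc : c1 n = 1 := MulChar.one_apply (isUnit_of_subsingleton _)
    unfold cf
    rw [hc]
    split_ifs
    · rw [mul_one, map_intCast]
    · rw [one_mul, Complex.conj_ofReal]
    · rw [map_one]
  have h2 : (starRingEnd ℂ) (ex (-(t * Real.log n))) = ex (-(-t * Real.log n)) := by
    unfold ex
    rw [← Complex.exp_conj, map_mul, Complex.conj_ofReal, Complex.conj_I]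
    congr 1
    push_cast
    ring
  rw [h1, h2]

private theorem fw_abel (w : ℕ → ℝ) (f : ℕ → ℂ) (N M : ℕ) (h : N ≤ M) :
    ∑ n ∈ Ioc N M, (w n : ℂ) * f n = (w M : ℂ) * ∑ n ∈ Ioc N M, f n +
      ∑ m ∈ Ico N M, ((w m - w (m + 1) : ℝ) : ℂ) * ∑ n ∈ Ioc N m, f n := by
  induction M, h using Nat.le_induction with
  | base => simp
  | succ M h ih =>
    rw [Finset.sum_Ioc_succ_top h, Finset.sum_Ioc_succ_top h, Finset.sum_Ico_succ_top h, ih]
    push_cast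
    ring

private theorem fw_cs {ι : Type*} (J : Finset ι) (c : ι → ℝ) (Z : ι → ℂ) :
    ‖∑ x ∈ J, (c x : ℂ) * Z x‖ ^ 2 ≤ (∑ x ∈ J, |c x|) * ∑ x ∈ J, |c x| * ‖Z x‖ ^ 2 := by
  have h1 : ‖∑ x ∈ J, (c x : ℂ) * Z x‖ ≤ ∑ x ∈ J, Real.sqrt |c x| * (Real.sqrt |c x| * ‖Z x‖) := by
    refine (norm_sum_le _ _).trans (le_of_eq (sum_congr rfl fun x _ => ?_))
    rw [norm_mul, Complex.norm_real, Real.norm_eq_abs, ← mul_assoc,
      Real.mul_self_sqrt (abs_nonneg _)]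
  have h2 := Finset.sum_mul_sq_le_sq_mul_sq J (fun x => Real.sqrt |c x|)
    (fun x => Real.sqrt |c x| * ‖Z x‖)
  refine (pow_le_pow_left₀ (norm_nonneg _) h1 2).trans (h2.trans (le_of_eq ?_))
  congr 1
  · exact sum_congr rfl fun x _ => Real.sq_sqrt (abs_nonneg _)
  · refine sum_congr rfl fun x _ => ?_
    rw [mul_pow, Real.sq_sqrt (abs_nonneg _)]

/-- the weights -/
private noncomputable def fww (s : Bool) (n : ℕ) : ℝ := (if s then Real.log n else 1) / n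

private theorem fww_cf (i : Fin 8) (hi : 4 ≤ (i : ℕ)) (n : ℕ) :
    cf c1 i n / n = ((fww (decide ((i : ℕ) = 4)) n : ℝ) : ℂ) := by
  have hc : c1 n = 1 := MulChar.one_apply (isUnit_of_subsingleton _)
  unfold cf fww
  rw [if_neg (by omega), hc]
  by_cases h : (i : ℕ) = 4
  · simp [h]
  · simp [h]

private theorem fw_log (a n : ℕ) (hn : 1 ≤ n) (hna : n ≤ 2 ^ a) : Real.log n ≤ a := by
  have h1 : Real.log n ≤ Real.log ((2 : ℝ) ^ a) :=
    Real.log_le_log (by exact_mod_cast hn) (by exact_mod_cast hna)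
  rw [Real.log_pow] at h1
  have h2 := Real.log_two_lt_d9
  have h3 : (0 : ℝ) ≤ a := Nat.cast_nonneg a
  nlinarith

private theorem fww_one (s : Bool) (a N : ℕ) (hN : 1 ≤ N) (hNa : 2 * N = 2 ^ a) :
    |fww s (2 * N)| ≤ (1 + a) / N := by
  have hN0 : (0 : ℝ) < N := by exact_mod_cast hN
  have ha : (0 : ℝ) ≤ a := Nat.cast_nonneg a
  have h1 : (0 : ℝ) ≤ (if s then Real.log ((2 * N : ℕ) : ℝ) else 1) := by
    split_ifs
    · exact Real.log_natCast_nonneg _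
    · exact zero_le_one
  have h2 : (if s then Real.log ((2 * N : ℕ) : ℝ) else 1) ≤ 1 + (a : ℝ) := by
    split_ifs
    · have := fw_log a (2 * N) (by omega) hNa.le
      linarith
    · linarith
  unfold fww
  rw [abs_of_nonneg (by positivity)]
  refine div_le_div₀ (by positivity) h2 hN0 ?_
  push_cast
  linarith

private theorem fww_diff (s : Bool) (a N m : ℕ) (hN : 1 ≤ N) (hNa : 2 * N = 2 ^ a) (h1 : N ≤ m)
    (h2 : m < 2 * N) : |fww s m - fww s (m + 1)| ≤ (1 + a) / (N : ℝ) ^ 2 := by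
  have hN0 : (0 : ℝ) < N := by exact_mod_cast hN
  have hm0 : (0 : ℝ) < m := by exact_mod_cast (by omega : 0 < m)
  have hNm : (N : ℝ) ≤ m := by exact_mod_cast h1
  have ha : (0 : ℝ) ≤ a := Nat.cast_nonneg a
  have hpos : 0 < (m : ℝ) * (m + 1) := by positivity
  have hle : (N : ℝ) ^ 2 ≤ (m : ℝ) * (m + 1) := by nlinarith
  have key : ∀ x : ℝ, |x| ≤ 1 + a → |x / ((m : ℝ) * (m + 1))| ≤ (1 + a) / (N : ℝ) ^ 2 := by
    intro x hx
    rw [abs_div, abs_of_pos hpos]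
    exact div_le_div₀ (by positivity) hx (by positivity) hle
  unfold fww
  cases s with
  | false =>
    have e : (if (false : Bool) = true then Real.log (m : ℝ) else 1) / (m : ℝ) -
        (if (false : Bool) = true then Real.log ((m + 1 : ℕ) : ℝ) else 1) / ((m + 1 : ℕ) : ℝ) =
        1 / ((m : ℝ) * (m + 1)) := by
      rw [if_neg (by decide), if_neg (by decide)]
      push_cast
      field_simp
      ring
    rw [e]
    apply key
    rw [abs_one]
    linarith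
  | true =>
    obtain ⟨d, hd⟩ : ∃ d : ℝ, d = Real.log ((m : ℝ) + 1) - Real.log m := ⟨_, rfl⟩
    have e : (if (true : Bool) = true then Real.log (m : ℝ) else 1) / (m : ℝ) -
        (if (true : Bool) = true then Real.log ((m + 1 : ℕ) : ℝ) else 1) / ((m + 1 : ℕ) : ℝ) =
        (Real.log m - m * d) / ((m : ℝ) * (m + 1)) := by
      rw [hd, if_pos rfl, if_pos rfl]
      push_cast
      field_simp
      ring
    rw [e]
    apply key
    have hd0 : 0 ≤ d := by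
      rw [hd, sub_nonneg]
      exact Real.log_le_log hm0 (by linarith)
    have hd1 : m * d ≤ 1 := by
      have h3 : d = Real.log (1 + 1 / m) := by
        rw [hd, ← Real.log_div (by positivity) hm0.ne']
        congr 1
        field_simp
      have h4 := Real.log_le_sub_one_of_pos (show 0 < 1 + 1 / (m : ℝ) by positivity)
      rw [← h3] at h4
      have h5 : m * d ≤ m * (1 + 1 / (m : ℝ) - 1) := mul_le_mul_of_nonneg_left h4 hm0.le
      have h6 : (m : ℝ) * (1 + 1 / (m : ℝ) - 1) = 1 := by field_simp; ring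
      linarith
    have hl0 : 0 ≤ Real.log (m : ℝ) := Real.log_natCast_nonneg _
    have hl1 : Real.log (m : ℝ) ≤ a := fw_log a m (by omega) (by omega)
    have hmd : 0 ≤ m * d := by positivity
    rw [abs_le]
    constructor <;> linarith

private theorem fw_zsc (N N' : ℕ) : Continuous fun t : ℝ => zs N N' t := by
  unfold zs
  exact continuous_finsetSum _ fun n _ => fw_ex n

private theorem fw_gsc (g : ℕ → ℂ) (A : ℕ) : Continuous fun t : ℝ => gs g A t := by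
  unfold gs
  exact continuous_finsetSum _ fun n _ => continuous_const.mul (fw_ex n)

/-- the main part: positive `t` -/
private theorem fw_pos {C : ℝ} (hC : 0 < C)
    (hz : ∀ (g : ℕ → ℂ) (A N N' : ℕ) (G T1 : ℝ), 1 ≤ A → 1 ≤ N → N' ≤ 2 * N →
      A ≤ 2 * N → (∀ a, ‖g a‖ ≤ G) → (N : ℝ) ≤ T1 →
      ∫ t in T1..(2 * T1), ‖gs g A t * zs N N' t‖ ^ 2 ≤
        C * G ^ 2 * ((A : ℝ) * N) * T1 * (1 + Real.log N) ^ 4)
    (i j : Fin 8) (a b : ℕ) (hi : 4 ≤ (i : ℕ)) (hb : b ≤ a + 1) (T1 : ℝ) (hT : 1 ≤ T1)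
    (h2 : (2 : ℝ) ^ a ≤ T1) :
    ∫ t in T1..(2 * T1), ‖pol (cf c1 i) (a + 1) t * pol (cf c1 j) b t‖ ^ 2 ≤
      32 * C * (1 + ((a + 1 : ℕ) : ℝ)) ^ 8 * (T1 / 2 ^ (a + 1 + b)) := by
  obtain ⟨N, hN⟩ : ∃ N : ℕ, N = 2 ^ a := ⟨_, rfl⟩
  have hN1 : 1 ≤ N := by rw [hN]; exact Nat.one_le_two_pow
  have hNa : 2 * N = 2 ^ (a + 1) := by rw [hN, pow_succ]; omega
  have hN0 : (0 : ℝ) < N := by exact_mod_cast hN1
  have hNT : (N : ℝ) ≤ T1 := by
    rw [hN]
    push_cast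
    exact h2
  have hdiv : 2 ^ (a + 1) / 2 = N := by omega
  obtain ⟨P, hP⟩ : ∃ P : ℝ, P = 1 + ((a + 1 : ℕ) : ℝ) := ⟨_, rfl⟩
  have hP1 : 1 ≤ P := by
    rw [hP]
    have : (0 : ℝ) ≤ ((a + 1 : ℕ) : ℝ) := Nat.cast_nonneg _
    linarith
  rw [← hP]
  obtain ⟨w, hw⟩ : ∃ w : ℕ → ℝ, w = fww (decide ((i : ℕ) = 4)) := ⟨_, rfl⟩
  obtain ⟨κ, hκ⟩ : ∃ κ : ℕ → ℝ, κ = fun m => if m = 2 * N then w (2 * N) else w m - w (m + 1) :=
    ⟨_, rfl⟩
  obtain ⟨J, hJ⟩ : ∃ J : Finset ℕ, J = Ico N (2 * N + 1) := ⟨_, rfl⟩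
  have hpol : ∀ t : ℝ, pol (cf c1 i) (a + 1) t = ∑ m ∈ J, (κ m : ℂ) * zs N m t := by
    intro t
    rw [fw_pol, hdiv, ← hNa]
    have e1 : ∑ n ∈ Ioc N (2 * N), (cf c1 i n / n) * ex (-(t * Real.log n)) =
        ∑ n ∈ Ioc N (2 * N), (w n : ℂ) * ex (-(t * Real.log n)) := by
      refine sum_congr rfl fun n _ => ?_
      rw [fww_cf i hi n, hw]
    rw [e1, fw_abel w _ N (2 * N) (by omega), hJ, Finset.sum_Ico_succ_top (by omega), add_comm]
    congr 1
    · refine sum_congr rfl fun m hm => ?_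
      rw [mem_Ico] at hm
      rw [hκ]
      dsimp only
      rw [if_neg (by omega)]
      rfl
    · rw [hκ]
      dsimp only
      rw [if_pos rfl]
      rfl
  obtain ⟨V, hV⟩ : ∃ V : ℝ, V = ∑ m ∈ J, |κ m| := ⟨_, rfl⟩
  have hV0 : 0 ≤ V := by rw [hV]; exact sum_nonneg fun m _ => abs_nonneg _
  have hV1 : V ≤ 2 * P / N := by
    rw [hV, hJ, Finset.sum_Ico_succ_top (by omega)]
    have e1 : ∑ m ∈ Ico N (2 * N), |κ m| ≤ P / N := by
      have e2 : ∀ m ∈ Ico N (2 * N), |κ m| ≤ P / (N : ℝ) ^ 2 := by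
        intro m hm
        rw [mem_Ico] at hm
        rw [hκ]
        dsimp only
        rw [if_neg (by omega), hw, hP]
        exact fww_diff _ (a + 1) N m hN1 hNa hm.1 hm.2
      refine (sum_le_card_nsmul _ _ _ e2).trans (le_of_eq ?_)
      rw [Nat.card_Ico, nsmul_eq_mul, show 2 * N - N = N by omega]
      field_simp
    have e3 : |κ (2 * N)| ≤ P / N := by
      rw [hκ]
      dsimp only
      rw [if_pos rfl, hw, hP]
      exact fww_one _ (a + 1) N hN1 hNa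
    calc ∑ m ∈ Ico N (2 * N), |κ m| + |κ (2 * N)| ≤ P / N + P / N := add_le_add e1 e3
      _ = _ := by ring
  -- the second factor
  obtain ⟨g, hg⟩ : ∃ g : ℕ → ℂ, g = fun n => if n ∈ Ioc (2 ^ b / 2) (2 ^ b) then
      cf c1 j n / n else 0 := ⟨_, rfl⟩
  obtain ⟨G, hG⟩ : ∃ G : ℝ, G = 2 * (1 + b) / 2 ^ b := ⟨_, rfl⟩
  have hG0 : 0 ≤ G := by rw [hG]; positivity
  have hgG : ∀ n, ‖g n‖ ≤ G := by
    intro n
    rw [hg]
    dsimp only
    split_ifs with h
    · rw [mem_Ioc] at h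
      have hn : 1 ≤ n := by omega
      have hn0 : (0 : ℝ) < n := by exact_mod_cast hn
      have h3 := mvp_cf c1 j b n hn h.2
      have h4 : (2 : ℝ) ^ b ≤ 2 * n := by exact_mod_cast (by omega : 2 ^ b ≤ 2 * n)
      rw [norm_div, Complex.norm_natCast, hG, div_le_div_iff₀ hn0 (by positivity)]
      calc ‖cf c1 j n‖ * 2 ^ b ≤ (1 + b) * (2 * n) :=
            mul_le_mul h3 h4 (by positivity) (by positivity)
        _ = _ := by ring
    · rw [norm_zero]
      exact hG0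
  have hgs : ∀ t : ℝ, pol (cf c1 j) b t = gs g (2 ^ b) t := by
    intro t
    rw [fw_pol]
    unfold gs
    refine sum_congr rfl fun n hn => ?_
    rw [hg]
    dsimp only
    rw [if_pos hn]
  have hpw : ∀ t : ℝ, ‖pol (cf c1 i) (a + 1) t * pol (cf c1 j) b t‖ ^ 2 ≤
      V * ∑ m ∈ J, |κ m| * ‖gs g (2 ^ b) t * zs N m t‖ ^ 2 := by
    intro t
    rw [hpol, hgs, sum_mul, hV]
    have e1 : ∑ m ∈ J, (κ m : ℂ) * zs N m t * gs g (2 ^ b) t =
        ∑ m ∈ J, (κ m : ℂ) * (gs g (2 ^ b) t * zs N m t) :=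
      sum_congr rfl fun m _ => by ring
    rw [e1]
    exact fw_cs J κ _
  obtain ⟨B, hB⟩ : ∃ B : ℝ, B = C * G ^ 2 * (((2 ^ b : ℕ) : ℝ) * N) * T1 *
      (1 + Real.log N) ^ 4 := ⟨_, rfl⟩
  have hTT : T1 ≤ 2 * T1 := by linarith
  have hcont : ∀ m, Continuous fun t : ℝ => ‖gs g (2 ^ b) t * zs N m t‖ ^ 2 := fun m =>
    ((fw_gsc g _).mul (fw_zsc N m)).norm.pow 2
  have hBm : ∀ m ∈ J, ∫ t in T1..(2 * T1), ‖gs g (2 ^ b) t * zs N m t‖ ^ 2 ≤ B := by
    intro m hm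
    rw [hJ, mem_Ico] at hm
    rw [hB]
    refine hz g (2 ^ b) N m G T1 Nat.one_le_two_pow hN1 (by omega) ?_ hgG hNT
    rw [hNa]
    exact Nat.pow_le_pow_right (by norm_num) hb
  have hB0 : 0 ≤ B := by
    rw [hB]
    have := Real.log_natCast_nonneg N
    positivity
  have hint : ∫ t in T1..(2 * T1), ‖pol (cf c1 i) (a + 1) t * pol (cf c1 j) b t‖ ^ 2 ≤
      V * (V * B) := by
    have hc1 : Continuous fun t : ℝ => ‖pol (cf c1 i) (a + 1) t * pol (cf c1 j) b t‖ ^ 2 :=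
      ((fw_polc _ _).mul (fw_polc _ _)).norm.pow 2
    have hc2 : Continuous fun t : ℝ =>
        V * ∑ m ∈ J, |κ m| * ‖gs g (2 ^ b) t * zs N m t‖ ^ 2 :=
      continuous_const.mul (continuous_finsetSum _ fun m _ => continuous_const.mul (hcont m))
    have h3 := intervalIntegral.integral_mono_on (μ := volume) hTT (hc1.intervalIntegrable _ _)
      (hc2.intervalIntegrable _ _) (fun t _ => hpw t)
    refine h3.trans ?_
    have hfs := intervalIntegral.integral_finsetSum (μ := volume) (a := T1) (b := 2 * T1)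
      (s := J) (f := fun m t => |κ m| * ‖gs g (2 ^ b) t * zs N m t‖ ^ 2)
      (fun m _ => (continuous_const.mul (hcont m)).intervalIntegrable _ _)
    rw [intervalIntegral.integral_const_mul, hfs]
    refine mul_le_mul_of_nonneg_left ?_ hV0
    rw [hV, sum_mul]
    refine sum_le_sum fun m hm => ?_
    rw [intervalIntegral.integral_const_mul]
    exact mul_le_mul_of_nonneg_left (hBm m hm) (abs_nonneg _)
  refine hint.trans ?_
  have hlogN : Real.log N ≤ a := fw_log a N hN1 hN.le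
  have hlogP : 1 + Real.log N ≤ P := by
    rw [hP]
    push_cast
    linarith
  have hlog0 := Real.log_natCast_nonneg N
  have hGP : G ≤ 2 * P / 2 ^ b := by
    rw [hG, hP]
    have : (b : ℝ) ≤ ((a + 1 : ℕ) : ℝ) := by exact_mod_cast hb
    gcongr
  have h2b : (0 : ℝ) < 2 ^ b := by positivity
  have hBB : B ≤ C * (2 * P / 2 ^ b) ^ 2 * (2 ^ b * N) * T1 * P ^ 4 := by
    rw [hB]
    push_cast
    gcongr
  calc V * (V * B) ≤ (2 * P / N) * ((2 * P / N) *
        (C * (2 * P / 2 ^ b) ^ 2 * (2 ^ b * N) * T1 * P ^ 4)) := by gcongr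
    _ = 16 * C * P ^ 8 * (T1 / (2 ^ b * N)) := by
        field_simp
        ring
    _ = 32 * C * P ^ 8 * (T1 / 2 ^ (a + 1 + b)) := by
        have e1 : (2 : ℝ) ^ (a + 1 + b) = 2 * (2 ^ b * N) := by
          rw [pow_add, pow_succ, hN]
          push_cast
          ring
        rw [e1]
        field_simp
        ring

theorem fw : ∃ C : ℝ, 0 < C ∧ ∀ (i j : Fin 8) (a b : ℕ), 4 ≤ (i : ℕ) → b ≤ a →
    ∀ T1 : ℝ, 1 ≤ T1 → (2 : ℝ) ^ a / 2 ≤ T1 →
    ∫ t in {t : ℝ | T1 ≤ |t| ∧ |t| ≤ 2 * T1}, ‖pol (cf c1 i) a t * pol (cf c1 j) b t‖ ^ 2 ≤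
      C * (1 + (a : ℝ)) ^ 8 * (T1 / 2 ^ (a + b)) := by
  obtain ⟨C, hC, hz⟩ := fz
  refine ⟨64 * C + 2, by positivity, fun i j a b hi hb T1 hT h2 => ?_⟩
  have hT0 : 0 < T1 := by linarith
  obtain ⟨F, hF⟩ : ∃ F : ℝ → ℝ, F = fun t => ‖pol (cf c1 i) a t * pol (cf c1 j) b t‖ ^ 2 :=
    ⟨_, rfl⟩
  have hFc : Continuous F := by
    rw [hF]
    exact ((fw_polc _ _).mul (fw_polc _ _)).norm.pow 2
  have hFe : ∀ t, F (-t) = F t := by
    intro t
    rw [hF]
    dsimp only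
    rw [norm_mul, norm_mul, fw_conj, fw_conj]
  have hset : {t : ℝ | T1 ≤ |t| ∧ |t| ≤ 2 * T1} = Set.Icc T1 (2 * T1) ∪
      Set.Icc (-(2 * T1)) (-T1) := by
    ext t
    simp only [Set.mem_ofPred_eq, Set.mem_union, Set.mem_Icc]
    constructor
    · rintro ⟨h3, h4⟩
      rcases le_total 0 t with h | h
      · rw [abs_of_nonneg h] at h3 h4
        exact Or.inl ⟨h3, h4⟩
      · rw [abs_of_nonpos h] at h3 h4
        exact Or.inr ⟨by linarith, by linarith⟩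
    · rintro (⟨h3, h4⟩ | ⟨h3, h4⟩)
      · rw [abs_of_nonneg (by linarith)]
        exact ⟨h3, h4⟩
      · rw [abs_of_nonpos (by linarith)]
        exact ⟨by linarith, by linarith⟩
  have hdis : Disjoint (Set.Icc T1 (2 * T1)) (Set.Icc (-(2 * T1)) (-T1)) := by
    rw [Set.disjoint_left]
    rintro t ⟨h3, -⟩ ⟨-, h4⟩
    linarith
  have hi1 : IntegrableOn F (Set.Icc T1 (2 * T1)) := hFc.continuousOn.integrableOn_Icc
  have hi2 : IntegrableOn F (Set.Icc (-(2 * T1)) (-T1)) := hFc.continuousOn.integrableOn_Icc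
  have htot : ∫ t in {t : ℝ | T1 ≤ |t| ∧ |t| ≤ 2 * T1}, F t = 2 * ∫ t in T1..(2 * T1), F t := by
    rw [hset, setIntegral_union hdis measurableSet_Icc hi1 hi2, integral_Icc_eq_integral_Ioc,
      integral_Icc_eq_integral_Ioc, ← intervalIntegral.integral_of_le (by linarith),
      ← intervalIntegral.integral_of_le (by linarith)]
    have h3 := intervalIntegral.integral_comp_neg (a := T1) (b := 2 * T1) F
    simp only [hFe] at h3
    rw [← h3]
    ring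
  have hgoal : ∫ t in {t : ℝ | T1 ≤ |t| ∧ |t| ≤ 2 * T1},
      ‖pol (cf c1 i) a t * pol (cf c1 j) b t‖ ^ 2 = 2 * ∫ t in T1..(2 * T1), F t := by
    rw [← htot, hF]
  rw [hgoal]
  rcases Nat.eq_zero_or_pos a with ha | ha
  · subst ha
    have hb0 : b = 0 := by omega
    subst hb0
    have h3 : ∫ t in T1..(2 * T1), F t ≤ ∫ t in T1..(2 * T1), (1 : ℝ) := by
      refine intervalIntegral.integral_mono_on (by linarith) (hFc.intervalIntegrable _ _)
        (continuous_const.intervalIntegrable _ _) fun t _ => ?_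
      rw [hF]
      dsimp only
      have h4 := pw_triv8 c1 i 0 t
      have h5 := pw_triv8 c1 j 0 t
      rw [Nat.cast_zero, add_zero] at h4 h5
      rw [norm_mul]
      exact pow_le_one₀ (by positivity) (mul_le_one₀ h4 (norm_nonneg _) h5)
    rw [intervalIntegral.integral_const, smul_eq_mul, mul_one] at h3
    have h6 : (64 * C + 2) * (1 + ((0 : ℕ) : ℝ)) ^ 8 * (T1 / 2 ^ (0 + 0)) =
        64 * C * T1 + 2 * T1 := by
      norm_num
      ring
    rw [h6]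
    have : 0 ≤ 64 * C * T1 := by positivity
    linarith
  · obtain ⟨a', rfl⟩ : ∃ a', a = a' + 1 := ⟨a - 1, by omega⟩
    have h3 : (2 : ℝ) ^ a' ≤ T1 := by
      rw [pow_succ] at h2
      linarith
    have h4 := fw_pos hC hz i j a' b hi hb T1 hT h3
    have h5 : ∫ t in T1..(2 * T1), F t ≤
        32 * C * (1 + ((a' + 1 : ℕ) : ℝ)) ^ 8 * (T1 / 2 ^ (a' + 1 + b)) := by
      rw [hF]
      exact h4
    have h6 : 0 ≤ 2 * (1 + ((a' + 1 : ℕ) : ℝ)) ^ 8 * (T1 / 2 ^ (a' + 1 + b)) := by positivity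
    have h7 : (64 * C + 2) * (1 + ((a' + 1 : ℕ) : ℝ)) ^ 8 * (T1 / 2 ^ (a' + 1 + b)) =
        2 * (32 * C * (1 + ((a' + 1 : ℕ) : ℝ)) ^ 8 * (T1 / 2 ^ (a' + 1 + b))) +
          2 * (1 + ((a' + 1 : ℕ) : ℝ)) ^ 8 * (T1 / 2 ^ (a' + 1 + b)) := by ring
    rw [h7]
    linarith

end Pool.Agent.H67.PS
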