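import Pool.Agent.H67.PS.Fo
import Pool.Agent.H67.PS.Fp
import Pool.Agent.H67.PS.Fn
import Pool.Agent.H67.PS.Fs

/-!
# [H67 PS FZ] Lemma (F)

PROOF. Case `AN <= 16 T1`: `fs`, `1 + log(AN) <= 1 + log(2N^2) <= 2(1+log N)`. Case `AN > 16 T1`: `ρ = 2 T1/(AN) <= 1/8`; `fo`, `|x+y|^2 <= 2|x|^2 + 2|y|^2`. `x`: `fp`
`<= 184 G A (1+log A)`, `2 T1 (184 G A(1+log A))^2`, `A^2 <= 2AN`. `y`: `y(t) = Σ_{m∈Icc 1 (2AN)} b(m) m^(-it)` with the `b` of `fn` (exchange the sums);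
`SI.mvt`: `∫ <= C (2T1 + 2AN) Σ|b|^2 <= 4C AN * 400 G^2 AN ρ (1+log A) = 3200 C G^2 AN T1 (1+log A)`.
-/

namespace Pool.Agent.H67.PS

open Finset
open Pool.Agent.H98.PK (ex)

private theorem fz_ex_cont : Continuous ex := by
  show Continuous fun x : ℝ => Complex.exp ((x : ℂ) * Complex.I)
  fun_prop

private theorem fz_ext (c : ℝ) : Continuous fun t : ℝ => ex (-(t * c)) :=
  fz_ex_cont.comp (by fun_prop)

private theorem fz_exm (m : ℕ) (hm : 1 ≤ m) (t : ℝ) :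
    ex (-(t * Real.log m)) = (m : ℂ) ^ (-((t : ℂ) * Complex.I)) := by
  have h : (m : ℂ) ≠ 0 := by
    have : m ≠ 0 := by omega
    exact_mod_cast this
  rw [Complex.cpow_def_of_ne_zero h, ← Complex.natCast_log]
  unfold ex
  congr 1
  push_cast
  ring

private theorem fz_near (g : ℕ → ℂ) (A N N' : ℕ) (ρ t : ℝ) (hN' : N' ≤ 2 * N) :
    ∑ a ∈ Ioc (A / 2) A, (g a / a) * ∑ k ∈ nr ρ a, ks N N' a k t =
      ∑ m ∈ Icc 1 (2 * (A * N)), (∑ a ∈ Ioc (A / 2) A, if a * N < m ∧ m ≤ a * N' then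
        (g a / a) * ∑ k ∈ nr ρ a, H26.LDP.e ((m : ℝ) * ((k : ℝ) / a)) else 0) *
          (m : ℂ) ^ (-((t : ℂ) * Complex.I)) := by
  simp only [Finset.sum_mul]
  rw [Finset.sum_comm]
  refine Finset.sum_congr rfl fun a ha => ?_
  rw [mem_Ioc] at ha
  have h1 : (Icc 1 (2 * (A * N))).filter (fun m => a * N < m ∧ m ≤ a * N') = Ioc (a * N) (a * N') := by
    ext m
    rw [mem_filter, mem_Icc, mem_Ioc]
    constructor
    · exact fun h => h.2
    · intro h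
      refine ⟨⟨by omega, ?_⟩, h⟩
      calc m ≤ a * N' := h.2
        _ ≤ a * (2 * N) := Nat.mul_le_mul_left _ hN'
        _ ≤ A * (2 * N) := Nat.mul_le_mul_right _ ha.2
        _ = 2 * (A * N) := by ring
  have h2 : ∀ m ∈ Icc 1 (2 * (A * N)), (if a * N < m ∧ m ≤ a * N' then
      (g a / a) * ∑ k ∈ nr ρ a, H26.LDP.e ((m : ℝ) * ((k : ℝ) / a)) else 0) *
        (m : ℂ) ^ (-((t : ℂ) * Complex.I)) = if a * N < m ∧ m ≤ a * N' then
      ((g a / a) * ∑ k ∈ nr ρ a, H26.LDP.e ((m : ℝ) * ((k : ℝ) / a))) * ex (-(t * Real.log m)) else 0 := by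
    intro m hm
    rw [mem_Icc] at hm
    rw [fz_exm m hm.1]
    split_ifs
    · rfl
    · rw [zero_mul]
  rw [Finset.sum_congr rfl h2, ← Finset.sum_filter, h1]
  unfold ks
  rw [Finset.sum_comm, Finset.mul_sum]
  refine Finset.sum_congr rfl fun m _ => ?_
  rw [← Finset.sum_mul]
  ring

private theorem fz_cont (g : ℕ → ℂ) (A N N' : ℕ) : Continuous fun t : ℝ => gs g A t * zs N N' t := by
  unfold gs zs
  refine Continuous.mul ?_ ?_
  · exact continuous_finsetSum _ fun a _ => continuous_const.mul (fz_ext _)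
  · exact continuous_finsetSum _ fun n _ => fz_ext _

private theorem fz_conty (g : ℕ → ℂ) (A N N' : ℕ) (ρ : ℝ) :
    Continuous fun t : ℝ => ∑ a ∈ Ioc (A / 2) A, (g a / a) * ∑ k ∈ nr ρ a, ks N N' a k t := by
  unfold ks
  refine continuous_finsetSum _ fun a _ => continuous_const.mul ?_
  refine continuous_finsetSum _ fun k _ => ?_
  exact continuous_finsetSum _ fun m _ => continuous_const.mul (fz_ext _)

private theorem fz_split (S Y : ℝ → ℂ) (T1 K B : ℝ) (hT : 0 ≤ T1) (hS : Continuous S) (hY : Continuous Y)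
    (hK : ∀ t, T1 ≤ t → t ≤ 2 * T1 → ‖S t - Y t‖ ≤ K)
    (hB : ∫ t in (-(2 * T1))..(2 * T1), ‖Y t‖ ^ 2 ≤ B) :
    ∫ t in T1..(2 * T1), ‖S t‖ ^ 2 ≤ 2 * K ^ 2 * T1 + 2 * B := by
  have hle : T1 ≤ 2 * T1 := by linarith
  have hYi : Continuous fun t => ‖Y t‖ ^ 2 := hY.norm.pow 2
  have h1 : ∫ t in T1..(2 * T1), ‖S t‖ ^ 2 ≤ ∫ t in T1..(2 * T1), (2 * K ^ 2 + 2 * ‖Y t‖ ^ 2) := by
    refine intervalIntegral.integral_mono_on hle ((hS.norm.pow 2).intervalIntegrable _ _)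
      ((continuous_const.add (continuous_const.mul hYi)).intervalIntegrable _ _) fun t ht => ?_
    have h2 := hK t ht.1 ht.2
    have h3 : ‖S t‖ ≤ ‖S t - Y t‖ + ‖Y t‖ := by
      have := norm_add_le (S t - Y t) (Y t)
      rwa [sub_add_cancel] at this
    have h4 := norm_nonneg (S t - Y t)
    have h5 := norm_nonneg (Y t)
    have h6 := norm_nonneg (S t)
    have h7 : ‖S t‖ ≤ K + ‖Y t‖ := by linarith
    have h8 : ‖S t‖ ^ 2 ≤ (K + ‖Y t‖) ^ 2 := pow_le_pow_left₀ h6 h7 2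
    nlinarith [sq_nonneg (K - ‖Y t‖)]
  have h2 : ∫ t in T1..(2 * T1), (2 * K ^ 2 + 2 * ‖Y t‖ ^ 2) =
      2 * K ^ 2 * T1 + 2 * ∫ t in T1..(2 * T1), ‖Y t‖ ^ 2 := by
    have hYc : Continuous fun t => 2 * ‖Y t‖ ^ 2 := by fun_prop
    rw [intervalIntegral.integral_add (intervalIntegrable_const)
      (hYc.intervalIntegrable _ _), intervalIntegral.integral_const,
      intervalIntegral.integral_const_mul, smul_eq_mul]
    ring
  have h3 : ∫ t in T1..(2 * T1), ‖Y t‖ ^ 2 ≤ ∫ t in (-(2 * T1))..(2 * T1), ‖Y t‖ ^ 2 := by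
    refine intervalIntegral.integral_mono_interval (by linarith) hle le_rfl ?_
      (hYi.intervalIntegrable _ _)
    exact Filter.Eventually.of_forall fun t => by positivity
  linarith

theorem fz : ∃ C : ℝ, 0 < C ∧ ∀ (g : ℕ → ℂ) (A N N' : ℕ) (G T1 : ℝ), 1 ≤ A → 1 ≤ N → N' ≤ 2 * N →
    A ≤ 2 * N → (∀ a, ‖g a‖ ≤ G) → (N : ℝ) ≤ T1 →
    ∫ t in T1..(2 * T1), ‖gs g A t * zs N N' t‖ ^ 2 ≤
      C * G ^ 2 * ((A : ℝ) * N) * T1 * (1 + Real.log N) ^ 4 := by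
  obtain ⟨C1, hC1, hfs⟩ := fs
  obtain ⟨C2, hC2, hmvt⟩ := H43.SI.mvt
  refine ⟨16 * C1 + 541696 + 12800 * C2, by positivity, ?_⟩
  intro g A N N' G T1 hA hN hN' hAN hg hT
  have hN1 : (1 : ℝ) ≤ N := by exact_mod_cast hN
  have hA1 : (1 : ℝ) ≤ A := by exact_mod_cast hA
  have hANR : (A : ℝ) ≤ 2 * N := by exact_mod_cast hAN
  have hT1 : 1 ≤ T1 := le_trans hN1 hT
  have hG : 0 ≤ G := le_trans (norm_nonneg _) (hg 0)
  have hL : 0 ≤ Real.log N := Real.log_nonneg hN1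
  have hlA0 : 0 ≤ Real.log A := Real.log_nonneg hA1
  have hlog2 : Real.log 2 ≤ 1 := by
    have := Real.log_two_lt_d9
    linarith
  have hlA : Real.log A ≤ 1 + Real.log N := by
    calc Real.log A ≤ Real.log (2 * N) := Real.log_le_log (by linarith) hANR
      _ = Real.log 2 + Real.log N := Real.log_mul (by norm_num) (by positivity)
      _ ≤ 1 + Real.log N := by linarith
  have hG2 : 0 ≤ G ^ 2 := sq_nonneg G
  have hANp : 0 < (A : ℝ) * N := by positivity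
  have hbase : 0 ≤ G ^ 2 * ((A : ℝ) * N) * T1 := by positivity
  obtain ⟨l, hl⟩ : ∃ l : ℝ, l = 1 + Real.log N := ⟨_, rfl⟩
  have hl1 : 1 ≤ l := by rw [hl]; linarith
  rcases le_or_gt ((A : ℝ) * N) (16 * T1) with hcase | hcase
  · have h1 := hfs g A N N' G T1 hA hN hN' hg hT1 hcase
    have h2 : 1 + Real.log (A * N : ℕ) ≤ 2 * l := by
      have h3 : Real.log (A * N : ℕ) = Real.log A + Real.log N := by
        push_cast
        exact Real.log_mul (by positivity) (by positivity)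
      rw [h3, hl]
      linarith
    have h0 : 0 ≤ 1 + Real.log (A * N : ℕ) := by
      have : (1 : ℝ) ≤ ((A * N : ℕ) : ℝ) := by
        exact_mod_cast Nat.mul_pos hA hN
      have := Real.log_nonneg this
      linarith
    have h4 : (1 + Real.log (A * N : ℕ)) ^ 4 ≤ 16 * l ^ 4 := by
      calc (1 + Real.log (A * N : ℕ)) ^ 4 ≤ (2 * l) ^ 4 := pow_le_pow_left₀ h0 h2 4
        _ = 16 * l ^ 4 := by ring
    calc ∫ t in T1..(2 * T1), ‖gs g A t * zs N N' t‖ ^ 2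
        ≤ C1 * G ^ 2 * ((A : ℝ) * N) * T1 * (1 + Real.log (A * N : ℕ)) ^ 4 := h1
      _ ≤ C1 * G ^ 2 * ((A : ℝ) * N) * T1 * (16 * l ^ 4) := by
          apply mul_le_mul_of_nonneg_left h4
          positivity
      _ = (16 * C1) * ((G ^ 2 * ((A : ℝ) * N) * T1) * l ^ 4) := by ring
      _ ≤ (16 * C1 + 541696 + 12800 * C2) * ((G ^ 2 * ((A : ℝ) * N) * T1) * l ^ 4) := by
          apply mul_le_mul_of_nonneg_right _ (by positivity)
          linarith
      _ = _ := by rw [hl]; ring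
  · obtain ⟨ρ, hρ⟩ : ∃ ρ : ℝ, ρ = 2 * T1 / ((A : ℝ) * N) := ⟨_, rfl⟩
    have hρ0 : 0 < ρ := by rw [hρ]; positivity
    have hρ1 : ρ ≤ 1 / 2 := by
      rw [hρ, div_le_iff₀ hANp]
      linarith
    have hρT : ((A : ℝ) * N) * ρ = 2 * T1 := by
      rw [hρ]
      field_simp
    -- the near part
    have hY2 : ∫ t in (-(2 * T1))..(2 * T1), ‖∑ a ∈ Ioc (A / 2) A, (g a / a) * ∑ k ∈ nr ρ a, ks N N' a k t‖ ^ 2 ≤
        3200 * C2 * G ^ 2 * ((A : ℝ) * N) * T1 * (1 + Real.log A) := by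
      have h1 : ∀ t : ℝ, ∑ a ∈ Ioc (A / 2) A, (g a / a) * ∑ k ∈ nr ρ a, ks N N' a k t = _ :=
        fun t => fz_near g A N N' ρ t hN'
      simp only [h1]
      have hAN2 : 1 ≤ 2 * (A * N) := by
        have := Nat.mul_pos hA hN
        omega
      refine (hmvt (2 * (A * N)) (2 * T1) _ hAN2 (by linarith)).trans ?_
      have h2 := fn g A N N' G ρ hA hN hN' hAN hg hρ0 hρ1
      have h3 : Ioc 0 (2 * (A * N)) = Icc 1 (2 * (A * N)) := by
        ext x
        rw [mem_Ioc, mem_Icc]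
        omega
      rw [h3] at h2
      have h4 : C2 * (2 * T1 + ((2 * (A * N) : ℕ) : ℝ)) ≤ C2 * (4 * ((A : ℝ) * N)) := by
        push_cast
        apply mul_le_mul_of_nonneg_left _ hC2.le
        nlinarith
      calc C2 * (2 * T1 + ((2 * (A * N) : ℕ) : ℝ)) * ∑ m ∈ Icc 1 (2 * (A * N)),
            ‖∑ a ∈ Ioc (A / 2) A, if a * N < m ∧ m ≤ a * N' then
              (g a / a) * ∑ k ∈ nr ρ a, H26.LDP.e ((m : ℝ) * ((k : ℝ) / a)) else 0‖ ^ 2
          ≤ (C2 * (4 * ((A : ℝ) * N))) * (400 * G ^ 2 * ((A : ℝ) * N) * ρ * (1 + Real.log A)) := by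
            apply mul_le_mul h4 h2
            · exact Finset.sum_nonneg fun m _ => by positivity
            · positivity
        _ = 1600 * C2 * G ^ 2 * ((A : ℝ) * N) * (((A : ℝ) * N) * ρ) * (1 + Real.log A) := by ring
        _ = _ := by
            rw [hρT]
            ring
    have hX : ∀ t, T1 ≤ t → t ≤ 2 * T1 → ‖gs g A t * zs N N' t -
        ∑ a ∈ Ioc (A / 2) A, (g a / a) * ∑ k ∈ nr ρ a, ks N N' a k t‖ ≤
          184 * G * A * (1 + Real.log A) := by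
      intro t h1 h2
      rw [fo g A N N' ρ t, add_sub_cancel_right, hρ]
      exact fp g A N N' G T1 t hA hN hN' hg hT h1 h2 hcase.le
    have h5 := fz_split (fun t => gs g A t * zs N N' t)
      (fun t => ∑ a ∈ Ioc (A / 2) A, (g a / a) * ∑ k ∈ nr ρ a, ks N N' a k t) T1 _ _ (by linarith)
      (fz_cont g A N N') (fz_conty g A N N' ρ) hX hY2
    refine h5.trans ?_
    have hA2 : (A : ℝ) ^ 2 ≤ 2 * ((A : ℝ) * N) := by nlinarith
    have hm1 : 1 + Real.log A ≤ 2 * l := by rw [hl]; linarith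
    have hm0 : 0 ≤ 1 + Real.log A := by linarith
    have hl4 : l ^ 2 ≤ l ^ 4 := pow_le_pow_right₀ hl1 (by norm_num)
    have hl5 : l ≤ l ^ 4 := by
      calc l = l ^ 1 := (pow_one l).symm
        _ ≤ l ^ 4 := pow_le_pow_right₀ hl1 (by norm_num)
    have hm2 : (1 + Real.log A) ^ 2 ≤ 4 * l ^ 4 := by
      calc (1 + Real.log A) ^ 2 ≤ (2 * l) ^ 2 := pow_le_pow_left₀ hm0 hm1 2
        _ = 4 * l ^ 2 := by ring
        _ ≤ 4 * l ^ 4 := by linarith
    have e1 : 2 * (184 * G * A * (1 + Real.log A)) ^ 2 * T1 ≤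
        541696 * ((G ^ 2 * ((A : ℝ) * N) * T1) * l ^ 4) := by
      calc 2 * (184 * G * A * (1 + Real.log A)) ^ 2 * T1
          = 67712 * (G ^ 2 * T1) * ((A : ℝ) ^ 2 * (1 + Real.log A) ^ 2) := by ring
        _ ≤ 67712 * (G ^ 2 * T1) * ((2 * ((A : ℝ) * N)) * (4 * l ^ 4)) := by
            apply mul_le_mul_of_nonneg_left _ (by positivity)
            exact mul_le_mul hA2 hm2 (by positivity) (by positivity)
        _ = _ := by ring
    have e2 : 2 * (3200 * C2 * G ^ 2 * ((A : ℝ) * N) * T1 * (1 + Real.log A)) ≤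
        12800 * C2 * ((G ^ 2 * ((A : ℝ) * N) * T1) * l ^ 4) := by
      calc 2 * (3200 * C2 * G ^ 2 * ((A : ℝ) * N) * T1 * (1 + Real.log A))
          = 6400 * C2 * (G ^ 2 * ((A : ℝ) * N) * T1) * (1 + Real.log A) := by ring
        _ ≤ 6400 * C2 * (G ^ 2 * ((A : ℝ) * N) * T1) * (2 * l ^ 4) := by
            apply mul_le_mul_of_nonneg_left _ (by positivity)
            linarith
        _ = _ := by ring
    have e3 : 0 ≤ 16 * C1 * ((G ^ 2 * ((A : ℝ) * N) * T1) * l ^ 4) := by positivity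
    rw [← hl]
    have e4 : (16 * C1 + 541696 + 12800 * C2) * G ^ 2 * ((A : ℝ) * N) * T1 * l ^ 4 =
        16 * C1 * ((G ^ 2 * ((A : ℝ) * N) * T1) * l ^ 4) +
        541696 * ((G ^ 2 * ((A : ℝ) * N) * T1) * l ^ 4) +
        12800 * C2 * ((G ^ 2 * ((A : ℝ) * N) * T1) * l ^ 4) := by ring
    rw [e4]
    linarith

end Pool.Agent.H67.PS
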