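import Pool.Agent.H43.SI.Hb

/-!
# [H67 PS HB] Heath-Brown's identity with `K = 4`

The analogue of `H43.SI.Hb` with eight factors: `μ` (`i < 4`), `log` (`i = 4`), `1` (`i > 4`), all twisted by `χ`.
For `1 <= n <= 2^(4b)`, `n <= 2^B`: `Λ(n) χ(n) = Σ_e w(e) bf χ e n`, the sum over all `e : Fin 8 → ℕ` with `e_i <= b` for `i < 4` and
`e_i <= B` for `i >= 4`. PROOF. `La (1 - Z M_z)^4 = La - 4 M_z Lo + 6 M_z^2 Lo Z - 4 M_z^3 Lo Z^2 + M_z^4 Lo Z^3` vanishes at `n <= z^4`.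
-/

namespace Pool.Agent.H67.PS

open Finset
open Pool.Agent.H43.SI (tw tr tw_apply tr_apply tw_mul tw_one af_sub_apply mul_agree mul_vanish mul_vanish' cLog cLam cMu
  cZe cLam_mul_cZe cZe_mul_cMu sum_af af_zero af pol)

/-- the eight coefficient functions -/
noncomputable def cf {q : ℕ} (χ : DirichletCharacter ℂ q) (i : Fin 8) (n : ℕ) : ℂ :=
  if (i : ℕ) < 4 then ((ArithmeticFunction.moebius n : ℤ) : ℂ) * χ n
  else if (i : ℕ) = 4 then χ n * ((Real.log n : ℝ) : ℂ) else χ n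

/-- the product of the eight polynomials -/
noncomputable def bp {q : ℕ} (χ : DirichletCharacter ℂ q) (e : Fin 8 → ℕ) (t : ℝ) : ℂ :=
  ∏ i, pol (cf χ i) (e i) t

/-- the box function -/
noncomputable def bf {q : ℕ} (χ : DirichletCharacter ℂ q) (e : Fin 8 → ℕ) :
    ArithmeticFunction ℂ :=
  af (cf χ 0) (e 0) * af (cf χ 1) (e 1) * af (cf χ 2) (e 2) * af (cf χ 3) (e 3) *
    af (cf χ 4) (e 4) * af (cf χ 5) (e 5) * af (cf χ 6) (e 6) * af (cf χ 7) (e 7)

/-- the set of boxes -/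
def boxes (b B : ℕ) : Finset (Fin 8 → ℕ) :=
  Fintype.piFinset fun i => if (i : ℕ) < 4 then range (b + 1) else range (B + 1)

/-- the coefficients in Heath-Brown's identity -/
def wt (e : Fin 8 → ℕ) : ℂ :=
  -1 + (if e 3 = 0 ∧ e 7 = 0 then 4 else 0) +
    (if e 2 = 0 ∧ e 3 = 0 ∧ e 6 = 0 ∧ e 7 = 0 then -6 else 0) +
    (if e 1 = 0 ∧ e 2 = 0 ∧ e 3 = 0 ∧ e 5 = 0 ∧ e 6 = 0 ∧ e 7 = 0 then 4 else 0)

/-- the algebraic identity -/
theorem hb_alg {Z M Lo La Mz : ArithmeticFunction ℂ} {z : ℕ} (hZM : Z * M = 1) (hLa : La * Z = Lo)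
    (hMz : ∀ n ≤ z, Mz n = M n) {n : ℕ} (hn : n ≤ z * z * z * z) :
    La n = (4 * (Mz * Lo) - 6 * (Mz * Mz * Lo * Z) + (4 * (Mz * Mz * Mz * Lo * Z * Z) -
      Mz * Mz * Mz * Mz * Lo * Z * Z * Z)) n := by
  set D := 1 - Z * Mz with hD
  have hD0 : ∀ k ≤ z, D k = 0 := by
    intro k hk
    have h1 : (Z * Mz) k = (Z * M) k := mul_agree (N := z) (fun _ _ => rfl) hMz k hk
    rw [hD, af_sub_apply, h1, hZM, sub_self]
  have hD2 : ∀ k ≤ z * z, (D * D) k = 0 := mul_vanish hD0 hD0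
  have hD3 : ∀ k ≤ z * z * z, (D * D * D) k = 0 := mul_vanish hD2 hD0
  have hD4 : ∀ k ≤ z * z * z * z, (D * D * D * D) k = 0 := mul_vanish hD3 hD0
  have hL := mul_vanish' (f := La) hD4 n hn
  have hexp : La * (D * D * D * D) = La - (4 * (Mz * Lo) - 6 * (Mz * Mz * Lo * Z) +
      (4 * (Mz * Mz * Mz * Lo * Z * Z) - Mz * Mz * Mz * Mz * Lo * Z * Z * Z)) := by
    rw [hD, ← hLa]
    ring
  rw [hexp, af_sub_apply] at hL
  exact sub_eq_zero.1 hL

/-- sums over the boxes with some exponents equal to zero -/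
theorem sum_boxes {q : ℕ} (χ : DirichletCharacter ℂ q) (b B : ℕ) (s : Finset (Fin 8)) :
    ∑ e ∈ boxes b B, (if ∀ i ∈ s, e i = 0 then bf χ e else 0) =
      ∏ i : Fin 8, (if i ∈ s then af (cf χ i) 0 else
        ∑ a ∈ (if (i : ℕ) < 4 then range (b + 1) else range (B + 1)), af (cf χ i) a) := by
  have h1 : ∀ i : Fin 8, (if i ∈ s then af (cf χ i) 0 else
      ∑ a ∈ (if (i : ℕ) < 4 then range (b + 1) else range (B + 1)), af (cf χ i) a) =
      ∑ a ∈ (if (i : ℕ) < 4 then range (b + 1) else range (B + 1)),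
        (if i ∈ s → a = 0 then af (cf χ i) a else 0) := by
    intro i
    by_cases hi : i ∈ s
    · rw [if_pos hi]
      have h0 : 0 ∈ (if (i : ℕ) < 4 then range (b + 1) else range (B + 1)) := by
        split_ifs <;> simp
      rw [Finset.sum_eq_single_of_mem 0 h0]
      · simp
      · intro a _ ha
        rw [if_neg]
        intro h
        exact ha (h hi)
    · rw [if_neg hi]
      refine Finset.sum_congr rfl fun a _ => ?_
      rw [if_pos (fun h => absurd h hi)]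
  rw [Finset.prod_congr rfl (fun i _ => h1 i), Finset.prod_univ_sum]
  unfold boxes
  refine Finset.sum_congr rfl fun e _ => ?_
  by_cases h2 : ∀ i ∈ s, e i = 0
  · rw [if_pos h2]
    have h3 : ∀ i ∈ (Finset.univ : Finset (Fin 8)), (if i ∈ s → e i = 0 then af (cf χ i) (e i) else 0) =
        af (cf χ i) (e i) := fun i _ => if_pos (h2 i)
    rw [Finset.prod_congr rfl h3, Fin.prod_univ_eight]
    rfl
  · rw [if_neg h2]
    push Not at h2
    obtain ⟨i, hi, hei⟩ := h2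
    refine (Finset.prod_eq_zero (Finset.mem_univ i) ?_).symm
    rw [if_neg]
    intro h
    exact hei (h hi)

theorem hb {q : ℕ} [NeZero q] (χ : DirichletCharacter ℂ q) (b B n : ℕ) (hn : 1 ≤ n)
    (h1 : n ≤ 2 ^ (4 * b)) (h2 : n ≤ 2 ^ B) :
    ((ArithmeticFunction.vonMangoldt n : ℝ) : ℂ) * χ n = ∑ e ∈ boxes b B, wt e * bf χ e n := by
  set Z := tw χ cZe with hZ
  set M := tw χ cMu with hM
  set Lo := tw χ cLog with hLo
  set La := tw χ cLam with hLaDef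
  have hZM : Z * M = 1 := by rw [hZ, hM, ← tw_mul, cZe_mul_cMu, tw_one]
  have hLaZ : La * Z = Lo := by rw [hLaDef, hZ, ← tw_mul, cLam_mul_cZe]
  -- the factors
  have hc0 : ∀ i : Fin 8, (i : ℕ) < 4 → ∀ k, 1 ≤ k → cf χ i k = M k := by
    intro i hi k hk
    unfold cf
    rw [if_pos hi, hM, tw_apply, mul_comm]
    rfl
  have hc3 : ∀ k, 1 ≤ k → cf χ 4 k = Lo k := by
    intro k hk
    unfold cf
    rw [if_neg (by decide), if_pos (by decide), hLo, tw_apply]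
    rfl
  have hc4 : ∀ i : Fin 8, 4 < (i : ℕ) → ∀ k, 1 ≤ k → cf χ i k = Z k := by
    intro i hi k hk
    unfold cf
    rw [if_neg (by omega), if_neg (by omega), hZ, tw_apply]
    unfold cZe
    rw [ArithmeticFunction.natCoe_apply, ArithmeticFunction.zeta_apply_ne (by omega), Nat.cast_one,
      mul_one]
  have h10 : ∀ i : Fin 8, (i : ℕ) ≠ 4 → cf χ i 1 = 1 := by
    intro i hi
    unfold cf
    split_ifs with h
    · simp
    · simp
  set Mz := tr M (2 ^ b) with hMz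
  set Z' := tr Z (2 ^ B) with hZ'
  set Lo' := tr Lo (2 ^ B) with hLo'
  have s0 : ∑ a ∈ range (b + 1), af (cf χ 0) a = Mz := sum_af _ _ (hc0 0 (by decide)) b
  have s1 : ∑ a ∈ range (b + 1), af (cf χ 1) a = Mz := sum_af _ _ (hc0 1 (by decide)) b
  have s2 : ∑ a ∈ range (b + 1), af (cf χ 2) a = Mz := sum_af _ _ (hc0 2 (by decide)) b
  have s3 : ∑ a ∈ range (b + 1), af (cf χ 3) a = Mz := sum_af _ _ (hc0 3 (by decide)) b
  have s4 : ∑ a ∈ range (B + 1), af (cf χ 4) a = Lo' := sum_af _ _ hc3 B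
  have s5 : ∑ a ∈ range (B + 1), af (cf χ 5) a = Z' := sum_af _ _ (hc4 5 (by decide)) B
  have s6 : ∑ a ∈ range (B + 1), af (cf χ 6) a = Z' := sum_af _ _ (hc4 6 (by decide)) B
  have s7 : ∑ a ∈ range (B + 1), af (cf χ 7) a = Z' := sum_af _ _ (hc4 7 (by decide)) B
  have z1 : af (cf χ 1) 0 = 1 := af_zero _ (h10 1 (by decide))
  have z2 : af (cf χ 2) 0 = 1 := af_zero _ (h10 2 (by decide))
  have z3 : af (cf χ 3) 0 = 1 := af_zero _ (h10 3 (by decide))
  have z5 : af (cf χ 5) 0 = 1 := af_zero _ (h10 5 (by decide))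
  have z6 : af (cf χ 6) 0 = 1 := af_zero _ (h10 6 (by decide))
  have z7 : af (cf χ 7) 0 = 1 := af_zero _ (h10 7 (by decide))
  have e0 : (((0 : Fin 8) : ℕ) < 4) := by decide
  have e1 : (((1 : Fin 8) : ℕ) < 4) := by decide
  have e2 : (((2 : Fin 8) : ℕ) < 4) := by decide
  have e3 : (((3 : Fin 8) : ℕ) < 4) := by decide
  have e4 : ¬ (((4 : Fin 8) : ℕ) < 4) := by decide
  have e5 : ¬ (((5 : Fin 8) : ℕ) < 4) := by decide
  have e6 : ¬ (((6 : Fin 8) : ℕ) < 4) := by decide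
  have e7 : ¬ (((7 : Fin 8) : ℕ) < 4) := by decide
  have A1 : ∑ e ∈ boxes b B, bf χ e = Mz * Mz * Mz * Mz * Lo' * Z' * Z' * Z' := by
    have := sum_boxes χ b B ∅
    simp only [Finset.notMem_empty, false_imp_iff, implies_true, if_true, if_false] at this
    rw [this, Fin.prod_univ_eight]
    rw [if_pos e0, if_pos e1, if_pos e2, if_pos e3, if_neg e4, if_neg e5, if_neg e6, if_neg e7,
      s0, s1, s2, s3, s4, s5, s6, s7]
  have A2 : ∑ e ∈ boxes b B, (if e 3 = 0 ∧ e 7 = 0 then bf χ e else 0) =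
      Mz * Mz * Mz * Lo' * Z' * Z' := by
    have := sum_boxes χ b B {3, 7}
    have h3 : ∀ e : Fin 8 → ℕ, (∀ i ∈ ({3, 7} : Finset (Fin 8)), e i = 0) ↔ (e 3 = 0 ∧ e 7 = 0) := by
      intro e; simp
    simp only [h3] at this
    rw [this, Fin.prod_univ_eight]
    have m0 : (0 : Fin 8) ∉ ({3, 7} : Finset (Fin 8)) := by decide
    have m1 : (1 : Fin 8) ∉ ({3, 7} : Finset (Fin 8)) := by decide
    have m2 : (2 : Fin 8) ∉ ({3, 7} : Finset (Fin 8)) := by decide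
    have m3 : (3 : Fin 8) ∈ ({3, 7} : Finset (Fin 8)) := by decide
    have m4 : (4 : Fin 8) ∉ ({3, 7} : Finset (Fin 8)) := by decide
    have m5 : (5 : Fin 8) ∉ ({3, 7} : Finset (Fin 8)) := by decide
    have m6 : (6 : Fin 8) ∉ ({3, 7} : Finset (Fin 8)) := by decide
    have m7 : (7 : Fin 8) ∈ ({3, 7} : Finset (Fin 8)) := by decide
    rw [if_neg m0, if_neg m1, if_neg m2, if_pos m3, if_neg m4, if_neg m5, if_neg m6, if_pos m7,
      if_pos e0, if_pos e1, if_pos e2, if_neg e4, if_neg e5, if_neg e6, s0, s1, s2, s4, s5, s6, z3, z7]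
    ring
  have A3 : ∑ e ∈ boxes b B, (if e 2 = 0 ∧ e 3 = 0 ∧ e 6 = 0 ∧ e 7 = 0 then bf χ e else 0) =
      Mz * Mz * Lo' * Z' := by
    have := sum_boxes χ b B {2, 3, 6, 7}
    have h3 : ∀ e : Fin 8 → ℕ, (∀ i ∈ ({2, 3, 6, 7} : Finset (Fin 8)), e i = 0) ↔
        (e 2 = 0 ∧ e 3 = 0 ∧ e 6 = 0 ∧ e 7 = 0) := by
      intro e; simp
    simp only [h3] at this
    rw [this, Fin.prod_univ_eight]
    have m0 : (0 : Fin 8) ∉ ({2, 3, 6, 7} : Finset (Fin 8)) := by decide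
    have m1 : (1 : Fin 8) ∉ ({2, 3, 6, 7} : Finset (Fin 8)) := by decide
    have m2 : (2 : Fin 8) ∈ ({2, 3, 6, 7} : Finset (Fin 8)) := by decide
    have m3 : (3 : Fin 8) ∈ ({2, 3, 6, 7} : Finset (Fin 8)) := by decide
    have m4 : (4 : Fin 8) ∉ ({2, 3, 6, 7} : Finset (Fin 8)) := by decide
    have m5 : (5 : Fin 8) ∉ ({2, 3, 6, 7} : Finset (Fin 8)) := by decide
    have m6 : (6 : Fin 8) ∈ ({2, 3, 6, 7} : Finset (Fin 8)) := by decide
    have m7 : (7 : Fin 8) ∈ ({2, 3, 6, 7} : Finset (Fin 8)) := by decide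
    rw [if_neg m0, if_neg m1, if_pos m2, if_pos m3, if_neg m4, if_neg m5, if_pos m6, if_pos m7,
      if_pos e0, if_pos e1, if_neg e4, if_neg e5, s0, s1, s4, s5, z2, z3, z6, z7]
    ring
  have A4 : ∑ e ∈ boxes b B, (if e 1 = 0 ∧ e 2 = 0 ∧ e 3 = 0 ∧ e 5 = 0 ∧ e 6 = 0 ∧ e 7 = 0 then
      bf χ e else 0) = Mz * Lo' := by
    have := sum_boxes χ b B {1, 2, 3, 5, 6, 7}
    have h3 : ∀ e : Fin 8 → ℕ, (∀ i ∈ ({1, 2, 3, 5, 6, 7} : Finset (Fin 8)), e i = 0) ↔
        (e 1 = 0 ∧ e 2 = 0 ∧ e 3 = 0 ∧ e 5 = 0 ∧ e 6 = 0 ∧ e 7 = 0) := by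
      intro e; simp
    simp only [h3] at this
    rw [this, Fin.prod_univ_eight]
    have m0 : (0 : Fin 8) ∉ ({1, 2, 3, 5, 6, 7} : Finset (Fin 8)) := by decide
    have m1 : (1 : Fin 8) ∈ ({1, 2, 3, 5, 6, 7} : Finset (Fin 8)) := by decide
    have m2 : (2 : Fin 8) ∈ ({1, 2, 3, 5, 6, 7} : Finset (Fin 8)) := by decide
    have m3 : (3 : Fin 8) ∈ ({1, 2, 3, 5, 6, 7} : Finset (Fin 8)) := by decide
    have m4 : (4 : Fin 8) ∉ ({1, 2, 3, 5, 6, 7} : Finset (Fin 8)) := by decide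
    have m5 : (5 : Fin 8) ∈ ({1, 2, 3, 5, 6, 7} : Finset (Fin 8)) := by decide
    have m6 : (6 : Fin 8) ∈ ({1, 2, 3, 5, 6, 7} : Finset (Fin 8)) := by decide
    have m7 : (7 : Fin 8) ∈ ({1, 2, 3, 5, 6, 7} : Finset (Fin 8)) := by decide
    rw [if_neg m0, if_pos m1, if_pos m2, if_pos m3, if_neg m4, if_pos m5, if_pos m6, if_pos m7,
      if_pos e0, if_neg e4, s0, s4, z1, z2, z3, z5, z6, z7]
    ring
  -- the sum with the weights
  have hW : ∑ e ∈ boxes b B, wt e * bf χ e n =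
      (4 * (Mz * Lo') - 6 * (Mz * Mz * Lo' * Z') + (4 * (Mz * Mz * Mz * Lo' * Z' * Z') -
        Mz * Mz * Mz * Mz * Lo' * Z' * Z' * Z')) n := by
    have h4 : ∀ e, wt e * bf χ e n = (-1) * bf χ e n +
        4 * (if e 3 = 0 ∧ e 7 = 0 then bf χ e else 0) n +
        (-6) * (if e 2 = 0 ∧ e 3 = 0 ∧ e 6 = 0 ∧ e 7 = 0 then bf χ e else 0) n +
        4 * (if e 1 = 0 ∧ e 2 = 0 ∧ e 3 = 0 ∧ e 5 = 0 ∧ e 6 = 0 ∧ e 7 = 0 then bf χ e else 0) n := by
      intro e
      have hz : ((0 : ArithmeticFunction ℂ) n) = 0 := rfl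
      unfold wt
      have p1 : ((if e 3 = 0 ∧ e 7 = 0 then bf χ e else 0 : ArithmeticFunction ℂ)) n =
          if e 3 = 0 ∧ e 7 = 0 then bf χ e n else 0 := by split_ifs <;> rfl
      have p2 : ((if e 2 = 0 ∧ e 3 = 0 ∧ e 6 = 0 ∧ e 7 = 0 then bf χ e else 0 :
          ArithmeticFunction ℂ)) n =
          if e 2 = 0 ∧ e 3 = 0 ∧ e 6 = 0 ∧ e 7 = 0 then bf χ e n else 0 := by split_ifs <;> rfl
      have p3 : ((if e 1 = 0 ∧ e 2 = 0 ∧ e 3 = 0 ∧ e 5 = 0 ∧ e 6 = 0 ∧ e 7 = 0 then bf χ e else 0 :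
          ArithmeticFunction ℂ)) n =
          if e 1 = 0 ∧ e 2 = 0 ∧ e 3 = 0 ∧ e 5 = 0 ∧ e 6 = 0 ∧ e 7 = 0 then bf χ e n else 0 := by
        split_ifs <;> rfl
      rw [p1, p2, p3, add_mul, add_mul, add_mul]
      simp only [ite_mul, mul_ite, zero_mul, mul_zero]
    rw [Finset.sum_congr rfl (fun e _ => h4 e), Finset.sum_add_distrib, Finset.sum_add_distrib,
      Finset.sum_add_distrib, ← Finset.mul_sum, ← Finset.mul_sum, ← Finset.mul_sum, ← Finset.mul_sum]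
    have app : ∀ g : (Fin 8 → ℕ) → ArithmeticFunction ℂ,
        ∑ e ∈ boxes b B, g e n = (∑ e ∈ boxes b B, g e) n := by
      intro g
      induction (boxes b B) using Finset.induction_on with
      | empty => simp
      | insert a s ha ih =>
        rw [Finset.sum_insert ha, Finset.sum_insert ha, ArithmeticFunction.add_apply, ih]
    rw [app, app, app, app, A1, A2, A3, A4]
    have t4 : ∀ g : ArithmeticFunction ℂ, (4 * g) n = 4 * g n := by
      intro g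
      have h5 : (4 : ArithmeticFunction ℂ) * g = g + g + g + g := by ring
      rw [h5, ArithmeticFunction.add_apply, ArithmeticFunction.add_apply,
        ArithmeticFunction.add_apply]
      ring
    have t6 : ∀ g : ArithmeticFunction ℂ, (6 * g) n = 6 * g n := by
      intro g
      have h5 : (6 : ArithmeticFunction ℂ) * g = g + g + g + g + g + g := by ring
      rw [h5, ArithmeticFunction.add_apply, ArithmeticFunction.add_apply,
        ArithmeticFunction.add_apply, ArithmeticFunction.add_apply, ArithmeticFunction.add_apply]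
      ring
    rw [ArithmeticFunction.add_apply, af_sub_apply, af_sub_apply, t4, t4, t6]
    ring
  have hz3 : n ≤ 2 ^ b * 2 ^ b * 2 ^ b * 2 ^ b := by
    refine h1.trans (le_of_eq ?_)
    rw [← pow_add, ← pow_add, ← pow_add]
    congr 1
    ring
  have hmain := hb_alg hZM hLaZ (Mz := Mz) (z := 2 ^ b)
    (fun k hk => by rw [hMz, tr_apply, if_pos hk]) hz3
  have hLL : ∀ k ≤ 2 ^ B, Lo' k = Lo k := fun k hk => by rw [hLo', tr_apply, if_pos hk]
  have hZZ : ∀ k ≤ 2 ^ B, Z' k = Z k := fun k hk => by rw [hZ', tr_apply, if_pos hk]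
  have hid : ∀ f : ArithmeticFunction ℂ, ∀ k ≤ 2 ^ B, f k = f k := fun _ _ _ => rfl
  have g1 := mul_agree (hid Mz) hLL
  have g2 := mul_agree (mul_agree (hid (Mz * Mz)) hLL) hZZ
  have g3 := mul_agree (mul_agree (mul_agree (hid (Mz * Mz * Mz)) hLL) hZZ) hZZ
  have g4 := mul_agree (mul_agree (mul_agree (mul_agree (hid (Mz * Mz * Mz * Mz)) hLL) hZZ) hZZ) hZZ
  have g1' := mul_agree (hid 4) g1 n h2
  have g2' := mul_agree (hid 6) g2 n h2
  have g3' := mul_agree (hid 4) g3 n h2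
  rw [hW, ArithmeticFunction.add_apply, af_sub_apply, af_sub_apply, g1', g2', g3', g4 n h2]
  rw [ArithmeticFunction.add_apply, af_sub_apply, af_sub_apply] at hmain
  rw [← hmain, hLaDef, tw_apply, mul_comm]
  rfl

end Pool.Agent.H67.PS
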