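import Pool.Agent.H67.PS.Par
import Pool.Agent.H98.PR.Low

/-!
# [H67 PS LOW] Lower bound at the short scale

As `H98.PR.Low`, eight factors.
-/

namespace Pool.Agent.H67.PS

open Finset
open Pool.Agent.H98.PK (tup mv Bx)
open Pool.Agent.H98.PR (Px WR tl)

private theorem low_inner (κ : ℝ) (N : ℕ) (T y : ℝ) (hκT : 100 ≤ κ * T)
    (hN : 100 * (κ * T) ≤ N) (hy1 : 6 / 5 * N < y) (hy2 : y ≤ 9 / 5 * N) :
    (N : ℝ) / (10 * (κ * T)) ≤
      ∑ m ∈ Ioc N (2 * N), Real.exp (-(T * (κ * Real.log y - κ * Real.log m)) ^ 2) := by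
  set Q : ℝ := κ * T with hQ
  have hQ0 : 0 < Q := by linarith
  have hN0 : (0 : ℝ) < N := by nlinarith
  have hy0 : 0 < y := by nlinarith
  have hd0 : 0 < 1 / (4 * Q) := by positivity
  have hd1 : 1 / (4 * Q) ≤ 1 / 400 := by
    apply one_div_le_one_div_of_le (by norm_num)
    linarith
  set d : ℝ := 1 / (4 * Q) with hd
  have hTd : Q * d = 1 / 4 := by
    rw [hd]
    field_simp
  set a : ℝ := y * (1 - d) with ha
  set b : ℝ := y * (1 + d) with hb
  have ha0 : 0 ≤ a := by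
    rw [ha]
    apply mul_nonneg hy0.le
    linarith
  have haN : (N : ℝ) ≤ a := by
    rw [ha]
    nlinarith
  have hbN : b ≤ 2 * N := by
    rw [hb]
    nlinarith
  have hab : a ≤ b := by
    rw [ha, hb]
    nlinarith
  have hsub : Ioc ⌊a⌋₊ ⌊b⌋₊ ⊆ Ioc N (2 * N) := by
    apply Ioc_subset_Ioc
    · exact Nat.le_floor haN
    · have h1 : (⌊b⌋₊ : ℝ) ≤ ((2 * N : ℕ) : ℝ) := by
        push_cast
        exact (Nat.floor_le (ha0.trans hab)).trans hbN
      exact_mod_cast h1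
  have hterm : ∀ m ∈ Ioc ⌊a⌋₊ ⌊b⌋₊,
      (1 / 2 : ℝ) ≤ Real.exp (-(T * (κ * Real.log y - κ * Real.log m)) ^ 2) := by
    intro m hm
    rw [mem_Ioc] at hm
    have h1 : a < m := (Nat.floor_lt ha0).1 hm.1
    have h2 : (m : ℝ) ≤ b := (Nat.le_floor_iff (ha0.trans hab)).1 hm.2
    have hm0 : (0 : ℝ) < m := lt_of_le_of_lt ha0 h1
    set z : ℝ := m / y with hz
    have hz0 : 0 < z := div_pos hm0 hy0
    have hz1 : z ≤ 1 + d := by
      rw [hz, div_le_iff₀ hy0]
      rw [hb] at h2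
      linarith
    have hz2 : 1 - d ≤ z := by
      rw [hz, le_div_iff₀ hy0]
      rw [ha] at h1
      linarith
    have hl : T * (κ * Real.log y - κ * Real.log m) = -(Q * Real.log z) := by
      rw [hz, Real.log_div hm0.ne' hy0.ne', hQ]
      ring
    have hu : Real.log z ≤ d := by
      have := Real.log_le_sub_one_of_pos hz0
      linarith
    have hlo : -(4 / 3 * d) ≤ Real.log z := by
      have h3 := Real.one_sub_inv_le_log_of_pos hz0
      have h4 : z⁻¹ ≤ 1 + 4 / 3 * d := by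
        rw [inv_le_comm₀ hz0 (by positivity)]
        refine le_trans ?_ hz2
        rw [inv_le_iff_one_le_mul₀ (by positivity)]
        nlinarith
      linarith
    have h5 : |-(Q * Real.log z)| ≤ 1 / 2 := by
      rw [abs_le]
      constructor
      · nlinarith
      · nlinarith
    rw [hl]
    have h6 : (-(Q * Real.log z)) ^ 2 ≤ 1 / 4 := by
      rw [← sq_abs]
      nlinarith [abs_nonneg (-(Q * Real.log z))]
    have h7 := Real.add_one_le_exp (-(-(Q * Real.log z)) ^ 2)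
    linarith
  have hcard : (2 / 10 : ℝ) * (N / Q) ≤ ((Ioc ⌊a⌋₊ ⌊b⌋₊).card : ℝ) := by
    rw [Nat.card_Ioc, Nat.cast_sub (Nat.floor_le_floor hab)]
    have h1 := Nat.sub_one_lt_floor b
    have h2 := Nat.floor_le ha0
    have h3 : b - a = y * (2 * d) := by
      rw [ha, hb]
      ring
    have h4 : 100 ≤ (N : ℝ) / Q := by
      rw [le_div_iff₀ hQ0]
      exact hN
    have h5 : 6 / 5 * (N / Q) * (1 / 2) ≤ y * (2 * d) := by
      have h6 : y * (2 * d) = y / Q * (1 / 2) := by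
        rw [hd]
        field_simp
        try norm_num
      rw [h6]
      have h7 : 6 / 5 * (N / Q) ≤ y / Q := by
        rw [← mul_div_assoc]
        exact div_le_div_of_nonneg_right hy1.le hQ0.le
      linarith
    linarith
  calc (N : ℝ) / (10 * Q) = (2 / 10 : ℝ) * (N / Q) * (1 / 2) := by
        field_simp
        try norm_num
    _ ≤ ((Ioc ⌊a⌋₊ ⌊b⌋₊).card : ℝ) * (1 / 2) := by
        apply mul_le_mul_of_nonneg_right hcard (by norm_num)
    _ = ∑ m ∈ Ioc ⌊a⌋₊ ⌊b⌋₊, (1 / 2 : ℝ) := by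
        rw [sum_const, nsmul_eq_mul]
    _ ≤ ∑ m ∈ Ioc ⌊a⌋₊ ⌊b⌋₊, Real.exp (-(T * (κ * Real.log y - κ * Real.log m)) ^ 2) :=
        sum_le_sum hterm
    _ ≤ _ := sum_le_sum_of_subset_of_nonneg hsub (fun _ _ _ => (Real.exp_pos _).le)

private theorem low_psi (ρ : ℝ) (hρ : 1 < ρ) : ∃ c : ℝ, 0 < c ∧ ∃ Y : ℝ, 1 ≤ Y ∧ ∀ x : ℝ, Y ≤ x →
    c * (ρ * x) ≤ Chebyshev.psi (ρ * x) - Chebyshev.psi x := by
  have h := H5.PNT.psi_tendsto
  rw [Metric.tendsto_atTop] at h
  obtain ⟨e, he⟩ : ∃ e : ℝ, e = (ρ - 1) / (2 * (ρ + 1)) := ⟨_, rfl⟩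
  have he0 : 0 < e := by
    rw [he]
    exact div_pos (by linarith) (by linarith)
  have he1 : e * (ρ + 1) = (ρ - 1) / 2 := by
    rw [he]
    field_simp
  obtain ⟨Y, hY⟩ := h e he0
  refine ⟨(ρ - 1) / (2 * ρ), div_pos (by linarith) (by linarith), max 1 Y, le_max_left _ _,
    fun x hx => ?_⟩
  have hx1 : 1 ≤ x := (le_max_left _ _).trans hx
  have hx2 : Y ≤ x := (le_max_right _ _).trans hx
  have hρx : x ≤ ρ * x := le_mul_of_one_le_left (by linarith) (by linarith)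
  have h1 := hY x hx2
  have h2 := hY (ρ * x) (by linarith)
  rw [Real.dist_eq, abs_lt] at h1 h2
  have h3 : Chebyshev.psi x < (1 + e) * x := by
    have := h1.2
    have h4 : Chebyshev.psi x / x < 1 + e := by linarith
    rwa [div_lt_iff₀ (by linarith)] at h4
  have h5 : (1 - e) * (ρ * x) < Chebyshev.psi (ρ * x) := by
    have := h2.1
    have h4 : 1 - e < Chebyshev.psi (ρ * x) / (ρ * x) := by linarith
    rwa [lt_div_iff₀ (by linarith)] at h4
  have h6 : (ρ - 1) / (2 * ρ) * (ρ * x) = (ρ - 1) / 2 * x := by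
    field_simp
  rw [h6]
  have h7 : (1 - e) * (ρ * x) - (1 + e) * x = (ρ - 1 - e * (ρ + 1)) * x := by ring
  rw [he1] at h7
  linarith

private theorem low_alg (κ c1 N T C : ℝ) (hκ : 0 < κ) (hT : 0 < T) :
    c1 / (10 * κ) * (N * C) = T * (C * (N / (10 * (κ * T)) * c1)) := by
  field_simp

/-- the sum over `n` for a fixed product `u` -/
private theorem low_one (κ c1 Y : ℝ) (hκ0 : 0 < κ) (hY : ∀ x : ℝ, Y ≤ x →
      c1 * ((3 / 2 : ℝ) ^ κ * x) ≤ Chebyshev.psi ((3 / 2 : ℝ) ^ κ * x) - Chebyshev.psi x)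
    (N u Nm : ℕ) (T τ : ℝ) (hκT : 100 ≤ κ * T) (hN : 100 * (κ * T) ≤ N) (hu : 1 ≤ u)
    (hx0Y : Y ≤ Real.exp τ * (6 / 5 * ((N : ℝ) * u)) ^ κ)
    (hNm : Real.exp τ * (9 / 5 * ((N : ℝ) * u)) ^ κ ≤ Nm) :
    (N : ℝ) / (10 * (κ * T)) * c1 ≤ ∑ n ∈ Icc 1 Nm, ArithmeticFunction.vonMangoldt n / (n : ℝ) *
      ∑ m ∈ Ioc N (2 * N),
        Real.exp (-(T * (Real.log n - κ * Real.log ((m * u : ℕ) : ℝ) - τ)) ^ 2) := by
  have hN1 : (1 : ℝ) ≤ N := by linarith
  have hu1 : (1 : ℝ) ≤ u := by exact_mod_cast hu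
  have hu0 : (0 : ℝ) < u := by linarith
  have hv0 : (0 : ℝ) < N * u := by positivity
  set v : ℝ := (N : ℝ) * u with hv
  set x0 : ℝ := Real.exp τ * (6 / 5 * v) ^ κ with hx0
  have hx0p : 0 < x0 := by positivity
  set ρ : ℝ := (3 / 2 : ℝ) ^ κ with hρ
  have hρ1 : 1 ≤ ρ := Real.one_le_rpow (by norm_num) hκ0.le
  have hρx : ρ * x0 = Real.exp τ * (9 / 5 * v) ^ κ := by
    rw [hx0, hρ]
    calc (3 / 2 : ℝ) ^ κ * (Real.exp τ * (6 / 5 * v) ^ κ) =
          Real.exp τ * ((3 / 2 : ℝ) ^ κ * (6 / 5 * v) ^ κ) := by ring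
      _ = Real.exp τ * (3 / 2 * (6 / 5 * v)) ^ κ := by
          rw [Real.mul_rpow (x := 3 / 2) (y := 6 / 5 * v) (by norm_num) (by positivity)]
      _ = _ := by
          congr 2
          ring
  have hx0m : ρ * x0 ≤ Nm := by rw [hρx]; exact hNm
  have hρ0 : 0 < ρ := by linarith
  have hpsi := hY x0 hx0Y
  have hle : x0 ≤ ρ * x0 := le_mul_of_one_le_left hx0p.le hρ1
  have hfl : ⌊x0⌋₊ ≤ ⌊ρ * x0⌋₊ := Nat.floor_le_floor hle
  have hpsi2 : Chebyshev.psi (ρ * x0) - Chebyshev.psi x0 =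
      ∑ n ∈ Ioc ⌊x0⌋₊ ⌊ρ * x0⌋₊, ArithmeticFunction.vonMangoldt n := by
    unfold Chebyshev.psi
    rw [← Finset.sum_Ioc_consecutive _ (Nat.zero_le _) hfl]
    ring
  have hsub : Ioc ⌊x0⌋₊ ⌊ρ * x0⌋₊ ⊆ Icc 1 Nm := by
    intro n hn
    rw [mem_Ioc] at hn
    rw [mem_Icc]
    refine ⟨by omega, hn.2.trans ?_⟩
    have h1 : (⌊ρ * x0⌋₊ : ℝ) ≤ Nm := (Nat.floor_le (by positivity)).trans hx0m
    exact_mod_cast h1
  have hlx : Real.log x0 = τ + κ * Real.log (6 / 5 * v) := by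
    rw [hx0, Real.log_mul (Real.exp_pos _).ne' (by positivity), Real.log_exp,
      Real.log_rpow (by positivity)]
  have hlx' : Real.log (ρ * x0) = τ + κ * Real.log (9 / 5 * v) := by
    rw [hρx, Real.log_mul (Real.exp_pos _).ne' (by positivity), Real.log_exp,
      Real.log_rpow (by positivity)]
  have hin : ∀ n ∈ Ioc ⌊x0⌋₊ ⌊ρ * x0⌋₊,
      ArithmeticFunction.vonMangoldt n / (ρ * x0) * ((N : ℝ) / (10 * (κ * T))) ≤
      ArithmeticFunction.vonMangoldt n / (n : ℝ) *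
        ∑ m ∈ Ioc N (2 * N),
          Real.exp (-(T * (Real.log n - κ * Real.log ((m * u : ℕ) : ℝ) - τ)) ^ 2) := by
    intro n hn
    rw [mem_Ioc] at hn
    have h1 : x0 < n := (Nat.floor_lt hx0p.le).1 hn.1
    have h2 : (n : ℝ) ≤ ρ * x0 := (Nat.le_floor_iff (by positivity)).1 hn.2
    have hn0 : (0 : ℝ) < n := hx0p.trans h1
    have hΛ : 0 ≤ ArithmeticFunction.vonMangoldt n := ArithmeticFunction.vonMangoldt_nonneg
    set y : ℝ := Real.exp ((Real.log n - τ) / κ) / u with hy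
    have hy0 : 0 < y := by positivity
    have hly : κ * Real.log y = Real.log n - τ - κ * Real.log u := by
      rw [hy, Real.log_div (Real.exp_pos _).ne' (by positivity), Real.log_exp]
      field_simp
    have hy1 : 6 / 5 * N < y := by
      rw [hy, lt_div_iff₀ (by linarith)]
      have h3 : Real.log x0 < Real.log n := Real.log_lt_log hx0p h1
      rw [hlx] at h3
      have h4 : Real.log (6 / 5 * v) < (Real.log n - τ) / κ := by
        rw [lt_div_iff₀ hκ0]
        linarith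
      have h5 := (Real.log_lt_iff_lt_exp (by positivity)).1 h4
      calc 6 / 5 * (N : ℝ) * u = 6 / 5 * v := by rw [hv]; ring
        _ < _ := h5
    have hy2 : y ≤ 9 / 5 * N := by
      rw [hy, div_le_iff₀ (by linarith)]
      have h3 : Real.log n ≤ Real.log (ρ * x0) := Real.log_le_log hn0 h2
      rw [hlx'] at h3
      have h4 : (Real.log n - τ) / κ ≤ Real.log (9 / 5 * v) := by
        rw [div_le_iff₀ hκ0]
        linarith
      have h5 := (Real.le_log_iff_exp_le (by positivity)).1 h4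
      calc _ ≤ 9 / 5 * v := h5
        _ = 9 / 5 * (N : ℝ) * u := by rw [hv]; ring
    have h6 := low_inner κ N T y hκT hN hy1 hy2
    have h7 : ∑ m ∈ Ioc N (2 * N), Real.exp (-(T * (κ * Real.log y - κ * Real.log m)) ^ 2) =
        ∑ m ∈ Ioc N (2 * N),
          Real.exp (-(T * (Real.log n - κ * Real.log ((m * u : ℕ) : ℝ) - τ)) ^ 2) := by
      refine sum_congr rfl fun m hm => ?_
      rw [mem_Ioc] at hm
      have hm0 : (0 : ℝ) < m := by
        have : 0 < m := by omega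
        exact_mod_cast this
      rw [hly, Nat.cast_mul, Real.log_mul hm0.ne' (by linarith)]
      congr 2
      ring
    rw [h7] at h6
    apply mul_le_mul _ h6 (by positivity) (by positivity)
    exact div_le_div_of_nonneg_left hΛ hn0 h2
  calc (N : ℝ) / (10 * (κ * T)) * c1
      ≤ (∑ n ∈ Ioc ⌊x0⌋₊ ⌊ρ * x0⌋₊, ArithmeticFunction.vonMangoldt n) / (ρ * x0) *
          ((N : ℝ) / (10 * (κ * T))) := by
        rw [← hpsi2, mul_comm]
        apply mul_le_mul_of_nonneg_right _ (by positivity)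
        rw [le_div_iff₀ (by positivity)]
        exact hpsi
    _ = ∑ n ∈ Ioc ⌊x0⌋₊ ⌊ρ * x0⌋₊,
          ArithmeticFunction.vonMangoldt n / (ρ * x0) * ((N : ℝ) / (10 * (κ * T))) := by
        rw [sum_div, sum_mul]
    _ ≤ _ := sum_le_sum hin
    _ ≤ _ := by
        apply sum_le_sum_of_subset_of_nonneg hsub
        intro n _ _
        apply mul_nonneg (div_nonneg ArithmeticFunction.vonMangoldt_nonneg (Nat.cast_nonneg _))
        exact sum_nonneg fun _ _ => (Real.exp_pos _).le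

theorem low (κ β δ : ℝ) (k0 D r : ℕ) (hκ : 0 < κ) (hβ : 0 < β) (hδ : 0 ≤ δ) :
    ∃ c : ℝ, 0 < c ∧ ∃ M1 : ℕ, ∀ M : ℕ, M1 ≤ M → ∀ X : ℝ, Px κ δ k0 D M X →
    ∀ (N : ℕ) (F : Fin r → ℕ) (P : Fin r → Finset ℕ), Bx β M N F P →
    ∀ τ : ℝ, tl κ M X ≤ τ → τ ≤ tl κ M X + 1 →
    c * (N * ∏ i, ((P i).card : ℝ)) ≤ (M : ℝ) ^ (β / 4) *
      WR κ ArithmeticFunction.vonMangoldt (2 ^ (4 * bh k0 r X)) N P ((M : ℝ) ^ (β / 4)) τ := by
  obtain ⟨c1, hc1, Y, hY1, hY⟩ := low_psi ((3 / 2 : ℝ) ^ κ) (Real.one_lt_rpow (by norm_num) hκ)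
  refine ⟨c1 / (10 * κ), by positivity, ?_⟩
  have hlim : Filter.Tendsto (fun M : ℕ => (M : ℝ) ^ (β / 4)) Filter.atTop Filter.atTop :=
    (tendsto_rpow_atTop (by positivity)).comp tendsto_natCast_atTop_atTop
  obtain ⟨M1, hM1⟩ := Filter.eventually_atTop.1 (hlim.eventually_ge_atTop (max 100 (κ + 100 / κ)))
  refine ⟨max M1 (⌈Y * 2 ^ (k0 * (r + 2))⌉₊), fun M hM X hX N F P hB τ hτ0 hτ1 => ?_⟩
  have hT := hM1 M ((le_max_left _ _).trans hM)
  have hMY : Y * 2 ^ (k0 * (r + 2)) ≤ M := by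
    refine (Nat.le_ceil _).trans ?_
    exact_mod_cast (le_max_right _ _).trans hM
  set T : ℝ := (M : ℝ) ^ (β / 4) with hTd
  have hT100 : 100 ≤ T := (le_max_left _ _).trans hT
  have hTκ0 : κ + 100 / κ ≤ T := (le_max_right _ _).trans hT
  have hTκ : κ ≤ T := by
    have : 0 < 100 / κ := by positivity
    linarith
  have hκT : 100 ≤ κ * T := by
    have h1 : 100 / κ ≤ T := by linarith
    have h2 := mul_le_mul_of_nonneg_left h1 hκ.le
    refine le_trans (le_of_eq ?_) h2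
    field_simp
  have hT0 : (0 : ℝ) < T := by linarith
  have hM0 : 0 < M := by
    rcases Nat.eq_zero_or_pos M with h | h
    · rw [h, Nat.cast_zero, Real.zero_rpow (by positivity)] at hTd
      linarith
    · exact h
  have hMR : (0 : ℝ) < M := by exact_mod_cast hM0
  have hM1R : (1 : ℝ) ≤ M := by exact_mod_cast hM0
  have hX1 : 1 ≤ X := hX.X1 hM0 hδ
  have hX0 : 0 < X := by linarith
  have hXM : (M : ℝ) ≤ X := by
    refine le_trans ?_ hX.x1
    conv_lhs => rw [← Real.rpow_one (M : ℝ)]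
    exact Real.rpow_le_rpow_of_exponent_le hM1R (by linarith)
  have hNT : T ^ 4 / 2 ≤ N := by
    refine le_trans (le_of_eq ?_) hB.n0
    rw [hTd, ← Real.rpow_natCast, ← Real.rpow_mul (Nat.cast_nonneg _)]
    congr 2
    push_cast
    ring
  have hN100 : 100 * (κ * T) ≤ N := by
    refine le_trans ?_ hNT
    have h1 : (100 : ℝ) ^ 2 ≤ T ^ 2 := pow_le_pow_left₀ (by norm_num) hT100 2
    have h2 : T ^ 4 = T ^ 2 * (T * T) := by ring
    have h3 : κ * T ≤ T * T := mul_le_mul_of_nonneg_right hTκ hT0.le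
    rw [h2]
    have h4 : 0 ≤ T * T := by positivity
    nlinarith
  have hN1 : (1 : ℝ) ≤ N := by linarith
  -- one tuple
  have hone : ∀ p ∈ Fintype.piFinset P, (N : ℝ) / (10 * (κ * T)) * c1 ≤
      ∑ n ∈ Icc 1 (2 ^ (4 * bh k0 r X)), ArithmeticFunction.vonMangoldt n / (n : ℝ) *
        ∑ m ∈ Ioc N (2 * N),
          Real.exp (-(T * (Real.log n - κ * Real.log ((m * ∏ i, p i : ℕ) : ℝ) - τ)) ^ 2) := by
    intro p hp
    rw [Fintype.mem_piFinset] at hp
    have hu1 : 1 ≤ ∏ i, p i := by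
      apply Nat.one_le_iff_ne_zero.2
      rw [prod_ne_zero_iff]
      intro i _
      have := (hB.hp i _ (hp i)).1
      omega
    have hu2 : ∏ i, p i ≤ 2 ^ r * ∏ i, F i := by
      calc ∏ i, p i ≤ ∏ i : Fin r, (2 * F i) := prod_le_prod' fun i _ => (hB.hp i _ (hp i)).2
        _ = 2 ^ r * ∏ i, F i := by
            rw [prod_mul_distrib, prod_const, card_univ, Fintype.card_fin]
    have hu3 : ∏ i, F i ≤ ∏ i, p i := prod_le_prod' fun i _ => (hB.hp i _ (hp i)).1.le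
    have h3 : 2 * (N * ∏ i, p i) ≤ M := by
      refine le_trans ?_ hB.t1
      calc 2 * (N * ∏ i, p i) ≤ 2 * (N * (2 ^ r * ∏ i, F i)) := by gcongr
        _ = 2 ^ (r + 1) * (N * ∏ i, F i) := by ring
    have h4 : M ≤ 2 ^ (r + 2) * (N * ∏ i, p i) := by
      refine hB.t0.trans ?_
      exact Nat.mul_le_mul_left _ (Nat.mul_le_mul_left _ hu3)
    set u : ℕ := ∏ i, p i with hu
    have h3R : 2 * ((N : ℝ) * u) ≤ M := by exact_mod_cast h3
    have h4R : (M : ℝ) ≤ 2 ^ (r + 2) * ((N : ℝ) * u) := by exact_mod_cast h4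
    have hu1R : (1 : ℝ) ≤ u := by exact_mod_cast hu1
    have hv0 : (0 : ℝ) < (N : ℝ) * u := by positivity
    have hMκ : 0 < (M : ℝ) ^ κ := Real.rpow_pos_of_pos hMR _
    have hτlow : X / (M : ℝ) ^ κ ≤ Real.exp τ := by
      have h5 : Real.exp (tl κ M X) = X / (M : ℝ) ^ κ := by
        unfold tl
        rw [Real.exp_sub, Real.exp_log hX0, mul_comm, Real.exp_mul, Real.exp_log hMR]
      rw [← h5]
      exact Real.exp_le_exp.2 hτ0
    have hτup : Real.exp τ ≤ 3 * (X / (M : ℝ) ^ κ) := by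
      have h5 : Real.exp (tl κ M X) = X / (M : ℝ) ^ κ := by
        unfold tl
        rw [Real.exp_sub, Real.exp_log hX0, mul_comm, Real.exp_mul, Real.exp_log hMR]
      calc Real.exp τ ≤ Real.exp (tl κ M X + 1) := Real.exp_le_exp.2 hτ1
        _ = Real.exp 1 * (X / (M : ℝ) ^ κ) := by rw [Real.exp_add, h5, mul_comm]
        _ ≤ 3 * (X / (M : ℝ) ^ κ) := by
            apply mul_le_mul_of_nonneg_right _ (by positivity)
            have := Real.exp_one_lt_d9
            linarith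
    refine low_one κ c1 Y hκ hY N u (2 ^ (4 * bh k0 r X)) T τ hκT hN100 hu1 ?_ ?_
    · -- `x0` is large
      have h6 : (M : ℝ) ^ κ ≤ 2 ^ (k0 * (r + 2)) * (6 / 5 * ((N : ℝ) * u)) ^ κ := by
        calc (M : ℝ) ^ κ ≤ (2 ^ (r + 2) * (6 / 5 * ((N : ℝ) * u))) ^ κ := by
              apply Real.rpow_le_rpow hMR.le _ hκ.le
              refine h4R.trans ?_
              refine mul_le_mul_of_nonneg_left ?_ (by positivity)
              linarith
          _ = (2 ^ (r + 2) : ℝ) ^ κ * (6 / 5 * ((N : ℝ) * u)) ^ κ :=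
              Real.mul_rpow (by positivity) (by positivity)
          _ ≤ 2 ^ (k0 * (r + 2)) * (6 / 5 * ((N : ℝ) * u)) ^ κ := by
              refine mul_le_mul_of_nonneg_right ?_ (by positivity)
              rw [← Real.rpow_natCast, ← Real.rpow_natCast, ← Real.rpow_mul (by norm_num)]
              apply Real.rpow_le_rpow_of_exponent_le (by norm_num)
              push_cast
              have := hX.k2
              have h8 : (0 : ℝ) ≤ (r : ℝ) + 2 := by positivity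
              nlinarith
      have h7 : X / 2 ^ (k0 * (r + 2)) ≤ Real.exp τ * (6 / 5 * ((N : ℝ) * u)) ^ κ := by
        calc X / 2 ^ (k0 * (r + 2)) = X / (M : ℝ) ^ κ * ((M : ℝ) ^ κ / 2 ^ (k0 * (r + 2))) := by
              field_simp
          _ ≤ Real.exp τ * (6 / 5 * ((N : ℝ) * u)) ^ κ := by
              refine mul_le_mul hτlow ?_ (by positivity) (Real.exp_pos _).le
              rw [div_le_iff₀ (by positivity)]
              linarith
      refine le_trans ?_ h7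
      rw [le_div_iff₀ (by positivity)]
      linarith
    · -- the range of `n`
      have h6 : (9 / 5 * ((N : ℝ) * u)) ^ κ ≤ (M : ℝ) ^ κ := by
        apply Real.rpow_le_rpow (by positivity) _ hκ.le
        linarith
      have h7 : Real.exp τ * (9 / 5 * ((N : ℝ) * u)) ^ κ ≤ 3 * X := by
        calc Real.exp τ * (9 / 5 * ((N : ℝ) * u)) ^ κ ≤ 3 * (X / (M : ℝ) ^ κ) * (M : ℝ) ^ κ :=
              mul_le_mul hτup h6 (by positivity) (by positivity)
          _ = 3 * X := by field_simp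
      refine h7.trans ?_
      have h8 := bh_ge k0 r X hX1
      have h9 : (3 : ℝ) ≤ cc k0 r := by
        have h10 : 3 ≤ cc k0 r := by
          unfold cc
          calc 3 ≤ 2 ^ 9 := by norm_num
            _ ≤ _ := Nat.pow_le_pow_right (by norm_num) (by omega)
        exact_mod_cast h10
      push_cast
      refine le_trans ?_ h8
      exact mul_le_mul_of_nonneg_right h9 hX0.le
  -- rewrite `WR`
  have hWR : WR κ ArithmeticFunction.vonMangoldt (2 ^ (4 * bh k0 r X)) N P T τ =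
      ∑ p ∈ Fintype.piFinset P,
        ∑ n ∈ Icc 1 (2 ^ (4 * bh k0 r X)), ArithmeticFunction.vonMangoldt n / (n : ℝ) *
        ∑ m ∈ Ioc N (2 * N),
          Real.exp (-(T * (Real.log n - κ * Real.log ((m * ∏ i, p i : ℕ) : ℝ) - τ)) ^ 2) := by
    unfold WR tup
    rw [sum_comm]
    refine sum_congr rfl fun n _ => ?_
    rw [← mul_sum, sum_product_right]
    rfl
  rw [hWR]
  have hsum := sum_le_sum hone
  rw [sum_const, nsmul_eq_mul, Fintype.card_piFinset] at hsum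
  push_cast at hsum
  calc c1 / (10 * κ) * ((N : ℝ) * ∏ i, ((P i).card : ℝ))
      = T * ((∏ i, ((P i).card : ℝ)) * ((N : ℝ) / (10 * (κ * T)) * c1)) :=
        low_alg _ _ _ _ _ hκ hT0
    _ ≤ _ := by
        apply mul_le_mul_of_nonneg_left _ hT0.le
        push_cast
        exact hsum

end Pool.Agent.H67.PS
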