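import Pool.Agent.H67.PS.Defs

/-!
# [H67 PS TRIV] Trivial bound for the product of the eight factors
-/

namespace Pool.Agent.H67.PS

open Finset
open Pool.Agent.H43.SI (pol)
open Pool.Agent.H98.PK (c1)

theorem bp_triv (e : Fin 8 → ℕ) (t : ℝ) : ‖bp c1 e t‖ ≤ (1 + ((∑ i, e i : ℕ) : ℝ)) ^ 8 := by
  unfold bp
  rw [norm_prod]
  have h1 : ∀ i ∈ (univ : Finset (Fin 8)), ‖pol (cf c1 i) (e i) t‖ ≤
      1 + ((∑ i, e i : ℕ) : ℝ) := by
    intro i _
    refine (pw_triv8 c1 i (e i) t).trans ?_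
    have h2 : e i ≤ ∑ i, e i := single_le_sum (fun j _ => Nat.zero_le (e j)) (mem_univ i)
    have h3 : ((e i : ℕ) : ℝ) ≤ ((∑ i, e i : ℕ) : ℝ) := by exact_mod_cast h2
    linarith
  refine (prod_le_prod (fun i _ => norm_nonneg _) h1).trans (le_of_eq ?_)
  rw [prod_const, card_univ, Fintype.card_fin]

end Pool.Agent.H67.PS
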