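import Pool.Agent.H67.PS.Tri1
import Pool.Agent.H67.PS.Fw

/-!
# [H67 PS TRI] Two long factors

`i ≠ j`, `i` smooth, `2^(e j) <= 2^(e i)`, `2^(e i + e j) >= hi = X M^(1-δ/8)/V`. Frequencies `|t| <= 2^(e i)/2`: `tri_near`. The others: dyadic ranges
`T1 <= |t| <= 2 T1`, `T1 = 2^k 2^(e i)/2`; `fw` gives `∫ exp(-(t/2T)^2) |pol_i pol_j|^2 <= 2T C (1+e i)^8/2^(e i + e j)` on each; Cauchy-Schwarz with the product
of all other factors (`A = 2^(Σ rest)`, `Q = ∏ 2 F i`; `gmv`), and `|cp N| <= N`: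
`N^2 u1 u2 << M^(δ/4) (log)^11 (N^2 T^2 Q/(A Y) + N^2 T Q^2/Y) << M^(2-δ/8)`, `Y = 2^(e i + e j)`, `A Y >= X/C1`.
-/

namespace Pool.Agent.H67.PS

open Finset MeasureTheory
open Pool.Agent.H43.SI (pol)
open Pool.Agent.H98.PK (ex tup mv Bx c1 qd norm_ex tup_card tii_A tii_bA)
open Pool.Agent.H98.PR (Px cp cpx rng rng_meas gmv coi sup log_pow_le exp_small cp_triv cpx_triv)

private theorem tri_gint (T : ℝ) (hT : 0 < T) (f : ℝ → ℝ) (hf : Continuous f) (C : ℝ)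
    (hC : ∀ t, |f t| ≤ C) : Integrable (fun t => Real.exp (-(t / (2 * T)) ^ 2) * f t) := by
  have hb : 0 < 1 / (4 * T ^ 2) := by positivity
  have h1 : Integrable (fun t : ℝ => C * Real.exp (-(1 / (4 * T ^ 2)) * t ^ 2)) :=
    (integrable_exp_neg_mul_sq hb).const_mul _
  refine h1.mono' ?_ (Filter.Eventually.of_forall fun t => ?_)
  · exact (Continuous.mul (by fun_prop) hf).aestronglyMeasurable
  · rw [norm_mul, Real.norm_of_nonneg (Real.exp_pos _).le, Real.norm_eq_abs]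
    have e1 : -(t / (2 * T)) ^ 2 = -(1 / (4 * T ^ 2)) * t ^ 2 := by
      field_simp
      ring
    rw [e1, mul_comm]
    exact mul_le_mul_of_nonneg_right (hC t) (Real.exp_pos _).le

/-- Cauchy-Schwarz -/
private theorem tri_cs (T : ℝ) (hT : 0 < T) (s : Set ℝ) (hs : MeasurableSet s) (f g h : ℝ → ℝ)
    (hf : Continuous f) (hg : Continuous g) (Cf Cg : ℝ) (hf1 : ∀ t, |f t| ≤ Cf)
    (hg1 : ∀ t, |g t| ≤ Cg) (S : ℝ) (hS : 0 ≤ S) (hh0 : ∀ t, 0 ≤ h t)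
    (hh : ∀ t ∈ s, h t ≤ S * (f t * g t)) (U1 U2 : ℝ) (hU1 : 0 < U1) (hU2 : 0 < U2)
    (h1 : ∫ t in s, Real.exp (-(t / (2 * T)) ^ 2) * (f t) ^ 2 ≤ U1)
    (h2 : ∫ t : ℝ, Real.exp (-(t / (2 * T)) ^ 2) * (g t) ^ 2 ≤ U2) :
    ∫ t in s, Real.exp (-(t / (2 * T)) ^ 2) * h t ≤ S * Real.sqrt (U1 * U2) := by
  set w : ℝ → ℝ := fun t => Real.exp (-(t / (2 * T)) ^ 2) with hw
  have hw0 : ∀ t, 0 ≤ w t := fun t => (Real.exp_pos _).le
  have i1 : Integrable (fun t => w t * (f t) ^ 2) := by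
    refine tri_gint T hT (fun t => (f t) ^ 2) (hf.pow 2) (Cf ^ 2) fun t => ?_
    rw [abs_pow]
    exact pow_le_pow_left₀ (abs_nonneg _) (hf1 t) 2
  have i2 : Integrable (fun t => w t * (g t) ^ 2) := by
    refine tri_gint T hT (fun t => (g t) ^ 2) (hg.pow 2) (Cg ^ 2) fun t => ?_
    rw [abs_pow]
    exact pow_le_pow_left₀ (abs_nonneg _) (hg1 t) 2
  set l : ℝ := Real.sqrt (U2 / U1) with hl
  have hl0 : 0 < l := Real.sqrt_pos.2 (by positivity)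
  have hl2 : l ^ 2 = U2 / U1 := Real.sq_sqrt (by positivity)
  set G : ℝ → ℝ := fun t => S * (l * (w t * (f t) ^ 2) + l⁻¹ * (w t * (g t) ^ 2)) / 2 with hG
  have iG : Integrable G := by
    apply Integrable.div_const
    apply Integrable.const_mul
    exact (i1.const_mul l).add (i2.const_mul l⁻¹)
  have key : ∀ t ∈ s, w t * h t ≤ G t := by
    intro t ht
    have h3 : 2 * (f t * g t) ≤ l * (f t) ^ 2 + l⁻¹ * (g t) ^ 2 := by
      have h4 : 0 ≤ l⁻¹ * (l * f t - g t) ^ 2 := by positivity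
      have h5 : l⁻¹ * (l * f t - g t) ^ 2 = l * (f t) ^ 2 + l⁻¹ * (g t) ^ 2 - 2 * (f t * g t) := by
        field_simp
        ring
      linarith
    have h6 : w t * h t ≤ w t * (S * (f t * g t)) := mul_le_mul_of_nonneg_left (hh t ht) (hw0 t)
    have h7 : w t * (S * (f t * g t)) ≤ w t * (S * ((l * (f t) ^ 2 + l⁻¹ * (g t) ^ 2) / 2)) := by
      refine mul_le_mul_of_nonneg_left ?_ (hw0 t)
      refine mul_le_mul_of_nonneg_left ?_ hS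
      linarith
    refine h6.trans (h7.trans (le_of_eq ?_))
    simp only [hG]
    ring
  have step1 : ∫ t in s, w t * h t ≤ ∫ t in s, G t := by
    apply integral_mono_of_nonneg
    · exact Filter.Eventually.of_forall fun t => mul_nonneg (hw0 t) (hh0 t)
    · exact iG.integrableOn
    · exact (ae_restrict_iff' hs).2 (Filter.Eventually.of_forall key)
  have step3 : ∫ t in s, G t = S * (l * (∫ t in s, w t * (f t) ^ 2) +
      l⁻¹ * (∫ t in s, w t * (g t) ^ 2)) / 2 := by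
    simp only [hG]
    rw [integral_div, integral_const_mul, integral_add (i1.integrableOn.const_mul l)
      (i2.integrableOn.const_mul l⁻¹), integral_const_mul, integral_const_mul]
  have step2 : ∫ t in s, w t * (g t) ^ 2 ≤ U2 :=
    (setIntegral_le_integral i2 (Filter.Eventually.of_forall fun t => by
      have := hw0 t
      positivity)).trans h2
  have step4 : l * U1 = Real.sqrt (U1 * U2) := by
    have h8 : (l * U1) ^ 2 = U1 * U2 := by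
      rw [mul_pow, hl2]
      field_simp
    rw [← h8, Real.sqrt_sq (by positivity)]
  have step5 : l⁻¹ * U2 = Real.sqrt (U1 * U2) := by
    have h8 : (l⁻¹ * U2) ^ 2 = U1 * U2 := by
      rw [mul_pow, inv_pow, hl2]
      field_simp
    rw [← h8, Real.sqrt_sq (by positivity)]
  calc ∫ t in s, w t * h t ≤ ∫ t in s, G t := step1
    _ = S * (l * (∫ t in s, w t * (f t) ^ 2) + l⁻¹ * (∫ t in s, w t * (g t) ^ 2)) / 2 := step3
    _ ≤ S * (l * U1 + l⁻¹ * U2) / 2 := by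
        have h9 : l * (∫ t in s, w t * (f t) ^ 2) ≤ l * U1 := mul_le_mul_of_nonneg_left h1 hl0.le
        have h10 : l⁻¹ * (∫ t in s, w t * (g t) ^ 2) ≤ l⁻¹ * U2 :=
          mul_le_mul_of_nonneg_left step2 (by positivity)
        have h11 := mul_le_mul_of_nonneg_left (add_le_add h9 h10) hS
        linarith
    _ = S * Real.sqrt (U1 * U2) := by rw [step4, step5]; ring

theorem pol_cont (c : ℕ → ℂ) (a : ℕ) : Continuous (fun t : ℝ => pol c a t) := by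
  unfold pol H43.LF.ds
  refine continuous_finsetSum _ fun n hn => ?_
  refine continuous_const.mul ?_
  have hn0 : (n : ℂ) ≠ 0 := by
    rw [mem_Ioc] at hn
    have : n ≠ 0 := by omega
    exact_mod_cast this
  have h1 : (fun t : ℝ => (n : ℂ) ^ (-(1 + (t : ℂ) * Complex.I))) =
      fun t : ℝ => Complex.exp (Complex.log n * (-(1 + (t : ℂ) * Complex.I))) := by
    funext t
    rw [Complex.cpow_def_of_ne_zero hn0]
  rw [h1]
  fun_prop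

/-- the mean square over all high frequencies -/
private theorem tri_u1 : ∃ C : ℝ, 0 < C ∧ ∀ (i j : Fin 8) (a b : ℕ), 4 ≤ (i : ℕ) → b ≤ a → 1 ≤ a →
    ∀ (T : ℝ), 0 < T → ∀ K : ℕ,
    ∫ t in {t : ℝ | (2 : ℝ) ^ a / 2 ≤ |t| ∧ |t| ≤ 2 ^ (K + 1) * ((2 : ℝ) ^ a / 2)},
      Real.exp (-(t / (2 * T)) ^ 2) * ‖pol (cf c1 i) a t * pol (cf c1 j) b t‖ ^ 2 ≤
      (K + 1) * (C * (1 + (a : ℝ)) ^ 8 * (T / 2 ^ (a + b))) := by
  obtain ⟨C, hC, hfw⟩ := fw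
  refine ⟨2 * C, by positivity, ?_⟩
  intro i j a b hi hab ha T hT K
  have hcont : Continuous (fun t : ℝ => Real.exp (-(t / (2 * T)) ^ 2) *
      ‖pol (cf c1 i) a t * pol (cf c1 j) b t‖ ^ 2) := by
    refine Continuous.mul (by fun_prop) ?_
    exact (((pol_cont _ a).mul (pol_cont _ b)).norm).pow 2
  have hp : (1 : ℝ) ≤ (2 : ℝ) ^ a / 2 := by
    rw [le_div_iff₀ (by norm_num), one_mul]
    calc (2 : ℝ) = 2 ^ 1 := (pow_one _).symm
      _ ≤ 2 ^ a := pow_le_pow_right₀ (by norm_num) ha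
  have hcont2 : Continuous (fun t : ℝ => ‖pol (cf c1 i) a t * pol (cf c1 j) b t‖ ^ 2) :=
    (((pol_cont _ a).mul (pol_cont _ b)).norm).pow 2
  refine tri_dy _ (fun t => by positivity) hcont ((2 : ℝ) ^ a / 2) _ (by linarith) ?_ K
  intro k
  set T1 : ℝ := 2 ^ k * ((2 : ℝ) ^ a / 2) with hT1
  have hk1 : (1 : ℝ) ≤ 2 ^ k := one_le_pow₀ (by norm_num)
  have hT1a : (2 : ℝ) ^ a / 2 ≤ T1 := by
    rw [hT1]
    nlinarith
  have hT11 : 1 ≤ T1 := hp.trans hT1a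
  have hT10 : 0 < T1 := by linarith
  have h1 := hfw i j a b hi hab T1 hT11 hT1a
  have h2 : ∀ t ∈ {t : ℝ | T1 ≤ |t| ∧ |t| ≤ 2 * T1}, Real.exp (-(t / (2 * T)) ^ 2) *
      ‖pol (cf c1 i) a t * pol (cf c1 j) b t‖ ^ 2 ≤ Real.exp (-(T1 / (2 * T)) ^ 2) *
      ‖pol (cf c1 i) a t * pol (cf c1 j) b t‖ ^ 2 := by
    intro t ht
    refine mul_le_mul_of_nonneg_right ?_ (by positivity)
    rw [Real.exp_le_exp]
    have h3 : (T1 / (2 * T)) ^ 2 ≤ (t / (2 * T)) ^ 2 := by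
      rw [div_pow, div_pow, ← sq_abs t]
      apply div_le_div_of_nonneg_right _ (by positivity)
      exact pow_le_pow_left₀ hT10.le ht.1 2
    linarith
  have h3 : ∫ t in {t : ℝ | T1 ≤ |t| ∧ |t| ≤ 2 * T1}, Real.exp (-(t / (2 * T)) ^ 2) *
      ‖pol (cf c1 i) a t * pol (cf c1 j) b t‖ ^ 2 ≤
      ∫ t in {t : ℝ | T1 ≤ |t| ∧ |t| ≤ 2 * T1}, Real.exp (-(T1 / (2 * T)) ^ 2) *
      ‖pol (cf c1 i) a t * pol (cf c1 j) b t‖ ^ 2 :=
    setIntegral_mono_on (abs_int _ hcont _ _) (abs_int _ (continuous_const.mul hcont2) _ _)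
      (abs_meas _ _) h2
  rw [integral_const_mul] at h3
  have h4 : T1 * Real.exp (-(T1 / (2 * T)) ^ 2) ≤ 2 * T := by
    have h5 : T1 / (2 * T) ≤ Real.exp ((T1 / (2 * T)) ^ 2) := by
      have h6 := Real.add_one_le_exp ((T1 / (2 * T)) ^ 2)
      nlinarith [sq_nonneg (T1 / (2 * T) - 1)]
    rw [Real.exp_neg, ← div_eq_mul_inv, div_le_iff₀ (Real.exp_pos _)]
    rw [div_le_iff₀ (by positivity)] at h5
    linarith
  calc _ ≤ Real.exp (-(T1 / (2 * T)) ^ 2) *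
        ∫ t in {t : ℝ | T1 ≤ |t| ∧ |t| ≤ 2 * T1}, ‖pol (cf c1 i) a t * pol (cf c1 j) b t‖ ^ 2 := h3
    _ ≤ Real.exp (-(T1 / (2 * T)) ^ 2) * (C * (1 + (a : ℝ)) ^ 8 * (T1 / 2 ^ (a + b))) :=
        mul_le_mul_of_nonneg_left h1 (Real.exp_pos _).le
    _ = (C * (1 + (a : ℝ)) ^ 8 / 2 ^ (a + b)) * (T1 * Real.exp (-(T1 / (2 * T)) ^ 2)) := by ring
    _ ≤ (C * (1 + (a : ℝ)) ^ 8 / 2 ^ (a + b)) * (2 * T) :=
        mul_le_mul_of_nonneg_left h4 (by positivity)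
    _ = _ := by ring

private theorem tri_alg (A Q Y T N m Xx C1 Ca Cc Cf ε ℓ E Kr s δ : ℝ) (hA : 1 ≤ A) (hQ : 1 ≤ Q)
    (hY : 0 < Y) (hT : 0 < T) (hN : 0 < N) (hm : 1 ≤ m) (hXx : 0 < Xx) (hC1 : 0 < C1)
    (hCa : 0 < Ca) (hCc : 0 < Cc) (hCf : 0 < Cf) (hε : 0 < ε) (hℓ : 1 ≤ ℓ) (hE : 0 ≤ E)
    (hKr : 0 ≤ Kr) (hs : 0 ≤ s)
    (hNR : 2 * N * Q ≤ m) (hNT : N * T ^ 2 * C1 ≤ 2 * (Xx * m ^ (1 - δ / 2)))
    (hZ1 : Xx ≤ C1 * (A * Y)) (hTY : T ≤ Y * m ^ (-(δ / 2))) (hAQ : (A * Q) ^ (2 * ε) ≤ E)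
    (hl1 : Real.log A ≤ 4 * ℓ) (hl3 : Real.log Q ≤ ℓ) :
    N ^ 2 * ((Kr * (Cf * s * (T / Y))) * (400 * (Ca * A ^ (ε - 1)) ^ 2 * (Cc * Q ^ ε) ^ 2 *
        (T * A * Q * (1 + Real.log A) * (1 + Real.log Q) + (A * Q) ^ 2))) ≤
      8000 * Cf * Ca ^ 2 * Cc ^ 2 * Kr * s * ℓ ^ 2 * E * m ^ (2 - δ / 2) := by
  have hA0 : 0 < A := by linarith
  have hQ0 : 0 < Q := by linarith
  have hm0 : 0 < m := by linarith
  have lA : 0 ≤ Real.log A := Real.log_nonneg hA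
  have lQ : 0 ≤ Real.log Q := Real.log_nonneg hQ
  have h1 : T * A * Q * (1 + Real.log A) * (1 + Real.log Q) + (A * Q) ^ 2 ≤
      10 * ℓ ^ 2 * (T * (A * Q) + (A * Q) ^ 2) := by
    have h5 : (1 + Real.log A) * (1 + Real.log Q) ≤ 10 * ℓ ^ 2 := by
      calc (1 + Real.log A) * (1 + Real.log Q) ≤ (5 * ℓ) * (2 * ℓ) :=
            mul_le_mul (by linarith) (by linarith) (by linarith) (by linarith)
        _ = 10 * ℓ ^ 2 := by ring
    have h6 : T * A * Q * (1 + Real.log A) * (1 + Real.log Q) ≤ 10 * ℓ ^ 2 * (T * (A * Q)) := by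
      calc T * A * Q * (1 + Real.log A) * (1 + Real.log Q) =
            (T * (A * Q)) * ((1 + Real.log A) * (1 + Real.log Q)) := by ring
        _ ≤ (T * (A * Q)) * (10 * ℓ ^ 2) := mul_le_mul_of_nonneg_left h5 (by positivity)
        _ = _ := by ring
    have h7 : (A * Q) ^ 2 ≤ 10 * ℓ ^ 2 * (A * Q) ^ 2 := by
      have h8 : 0 ≤ (A * Q) ^ 2 := sq_nonneg _
      have h9 : 1 ≤ ℓ ^ 2 := one_le_pow₀ hℓ
      nlinarith
    linarith
  -- the powers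
  have h2 : (A ^ (ε - 1)) ^ 2 * (Q ^ ε) ^ 2 * A ^ 2 = (A * Q) ^ (2 * ε) := by
    have e1 : A ^ (ε - 1) * A = A ^ ε := by
      rw [Real.rpow_sub_one hA0.ne']
      field_simp
    have e2 : (A * Q) ^ (2 * ε) = ((A * Q) ^ ε) ^ 2 := by
      rw [← Real.rpow_natCast, ← Real.rpow_mul (by positivity)]
      congr 1
      push_cast
      ring
    rw [e2, Real.mul_rpow hA0.le hQ0.le, ← e1]
    ring
  have h3 : N ^ 2 * (T / Y) * (T * (A * Q) + (A * Q) ^ 2) ≤ 2 * m ^ (2 - δ / 2) * A ^ 2 := by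
    have e1 : N ^ 2 * (T / Y) * (T * (A * Q)) ≤ m ^ (2 - δ / 2) * A ^ 2 := by
      have e2 : N * Q * (N * T ^ 2 * C1) ≤ (m / 2) * (2 * (Xx * m ^ (1 - δ / 2))) :=
        mul_le_mul (by linarith) hNT (by positivity) (by positivity)
      have e3 : m * m ^ (1 - δ / 2) = m ^ (2 - δ / 2) := by
        have : m ^ (2 - δ / 2) = m ^ ((1 : ℝ) + (1 - δ / 2)) := by
          congr 1
          ring
        rw [this, Real.rpow_add hm0, Real.rpow_one]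
      have e4 : N ^ 2 * T ^ 2 * Q * C1 ≤ m ^ (2 - δ / 2) * Xx := by
        calc N ^ 2 * T ^ 2 * Q * C1 = N * Q * (N * T ^ 2 * C1) := by ring
          _ ≤ (m / 2) * (2 * (Xx * m ^ (1 - δ / 2))) := e2
          _ = m * m ^ (1 - δ / 2) * Xx := by ring
          _ = _ := by rw [e3]
      have e5 : N ^ 2 * T ^ 2 * Q * C1 ≤ m ^ (2 - δ / 2) * (C1 * (A * Y)) :=
        e4.trans (mul_le_mul_of_nonneg_left hZ1 (by positivity))
      have e6 : N ^ 2 * T ^ 2 * Q ≤ m ^ (2 - δ / 2) * (A * Y) := by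
        have e7 : N ^ 2 * T ^ 2 * Q * C1 ≤ m ^ (2 - δ / 2) * (A * Y) * C1 := by
          calc _ ≤ m ^ (2 - δ / 2) * (C1 * (A * Y)) := e5
            _ = _ := by ring
        exact le_of_mul_le_mul_right e7 hC1
      have e8 : N ^ 2 * (T / Y) * (T * (A * Q)) = (N ^ 2 * T ^ 2 * Q) * (A / Y) := by
        field_simp
      rw [e8]
      calc (N ^ 2 * T ^ 2 * Q) * (A / Y) ≤ (m ^ (2 - δ / 2) * (A * Y)) * (A / Y) :=
            mul_le_mul_of_nonneg_right e6 (by positivity)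
        _ = _ := by field_simp
    have e2 : N ^ 2 * (T / Y) * (A * Q) ^ 2 ≤ m ^ (2 - δ / 2) * A ^ 2 := by
      have e3 : T / Y ≤ m ^ (-(δ / 2)) := by
        rw [div_le_iff₀ hY]
        linarith
      have e4 : (N * Q) ^ 2 ≤ m ^ 2 := by
        apply pow_le_pow_left₀ (by positivity)
        have : 0 < N * Q := by positivity
        linarith
      have e5 : m ^ 2 * m ^ (-(δ / 2)) = m ^ (2 - δ / 2) := by
        rw [← Real.rpow_natCast, ← Real.rpow_add hm0]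
        congr 1
      calc N ^ 2 * (T / Y) * (A * Q) ^ 2 = (N * Q) ^ 2 * (T / Y) * A ^ 2 := by ring
        _ ≤ m ^ 2 * m ^ (-(δ / 2)) * A ^ 2 := by gcongr
        _ = _ := by rw [e5]
    calc _ = N ^ 2 * (T / Y) * (T * (A * Q)) + N ^ 2 * (T / Y) * (A * Q) ^ 2 := by ring
      _ ≤ _ := by linarith
  have hPA : 0 < A ^ (ε - 1) := Real.rpow_pos_of_pos hA0 _
  have hPQ : 0 < Q ^ ε := Real.rpow_pos_of_pos hQ0 _
  have hmp : 0 < m ^ (2 - δ / 2) := Real.rpow_pos_of_pos hm0 _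
  calc _ ≤ N ^ 2 * ((Kr * (Cf * s * (T / Y))) * (400 * (Ca * A ^ (ε - 1)) ^ 2 * (Cc * Q ^ ε) ^ 2 *
        (10 * ℓ ^ 2 * (T * (A * Q) + (A * Q) ^ 2)))) := by gcongr
    _ = 4000 * Cf * Ca ^ 2 * Cc ^ 2 * Kr * s * ℓ ^ 2 * ((A ^ (ε - 1)) ^ 2 * (Q ^ ε) ^ 2) *
        (N ^ 2 * (T / Y) * (T * (A * Q) + (A * Q) ^ 2)) := by ring
    _ ≤ 4000 * Cf * Ca ^ 2 * Cc ^ 2 * Kr * s * ℓ ^ 2 * ((A ^ (ε - 1)) ^ 2 * (Q ^ ε) ^ 2) *
        (2 * m ^ (2 - δ / 2) * A ^ 2) := mul_le_mul_of_nonneg_left h3 (by positivity)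
    _ = 8000 * Cf * Ca ^ 2 * Cc ^ 2 * Kr * s * ℓ ^ 2 * ((A ^ (ε - 1)) ^ 2 * (Q ^ ε) ^ 2 * A ^ 2) *
        m ^ (2 - δ / 2) := by ring
    _ ≤ _ := by
        rw [h2]
        gcongr

private theorem tri_ev (C c κ1 : ℝ) (k : ℕ) (hC : 0 ≤ C) (hκ : 0 < κ1) : ∃ M1 : ℕ, ∀ M : ℕ, M1 ≤ M →
    1 ≤ M ∧ 1 ≤ Real.log M ∧ c ≤ M ∧ c ≤ (M : ℝ) ^ κ1 ∧ C * (1 + Real.log M) ^ k ≤ (M : ℝ) ^ κ1 := by
  obtain ⟨M2, hM2⟩ := log_pow_le C κ1 k hκ hC
  have hcast : Filter.Tendsto (fun M : ℕ => (M : ℝ)) Filter.atTop Filter.atTop :=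
    tendsto_natCast_atTop_atTop
  have hlog : Filter.Tendsto (fun M : ℕ => Real.log M) Filter.atTop Filter.atTop :=
    Real.tendsto_log_atTop.comp hcast
  have h1 := (tendsto_rpow_atTop hκ).comp hcast
  have h5 : ∀ᶠ M : ℕ in Filter.atTop, 1 ≤ M ∧ 1 ≤ Real.log M ∧ c ≤ M ∧ c ≤ (M : ℝ) ^ κ1 ∧
      C * (1 + Real.log M) ^ k ≤ (M : ℝ) ^ κ1 := by
    filter_upwards [Filter.eventually_ge_atTop 1, hlog.eventually_ge_atTop 1,
      hcast.eventually_ge_atTop c, h1.eventually_ge_atTop c, Filter.eventually_ge_atTop M2] with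
      M a1 a2 a3 a4 a5
    exact ⟨a1, a2, a3, a4, hM2 M a5⟩
  obtain ⟨M1, hM1⟩ := Filter.eventually_atTop.1 h5
  exact ⟨M1, hM1⟩

private theorem tri_C {κ : ℝ} {c : ℕ → ℂ} {Q : ℕ} :
    Continuous (fun t : ℝ => ‖∑ m ∈ Icc 1 Q, c m * ex (κ * t * Real.log m)‖) := by
  unfold ex
  fun_prop

private theorem tri_bC (κ : ℝ) (c : ℕ → ℂ) (Q : ℕ) (t : ℝ) :
    ‖∑ m ∈ Icc 1 Q, c m * ex (κ * t * Real.log m)‖ ≤ ∑ m ∈ Icc 1 Q, ‖c m‖ := by
  refine (norm_sum_le _ _).trans (Finset.sum_le_sum fun n _ => ?_)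
  rw [norm_mul, norm_ex, mul_one]

theorem tri_far (κ β δ : ℝ) (k0 D r : ℕ) (hκ : 0 < κ) (hβ : 0 < β) (hδ : 40 * β ≤ δ) (hδ1 : δ ≤ 1) :
    ∃ M1 : ℕ, ∀ M : ℕ, M1 ≤ M → ∀ X : ℝ, Px κ δ k0 D M X →
    ∀ (N : ℕ) (F : Fin r → ℕ) (P : Fin r → Finset ℕ), Bx β M N F P →
    ∀ (e : Fin 8 → ℕ) (i j : Fin 8), 4 ≤ (i : ℕ) → i ≠ j → e j ≤ e i →
    X * (M : ℝ) ^ (1 - δ / 8) / vv δ M X ≤ (2 : ℝ) ^ (e i + e j) →
    X ≤ cc k0 r * 2 ^ (∑ i, e i) → 2 ^ (∑ i, e i) ≤ cc k0 r * X →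
    ∀ T : ℝ, 1 ≤ T → T ≤ vv δ M X * (M : ℝ) ^ (-(δ / 4)) →
    ∫ t in rng β D M ∩ {t : ℝ | (2 : ℝ) ^ (e i) / 2 ≤ |t|},
      Real.exp (-(t / (2 * T)) ^ 2) * (‖bp c1 e t‖ * ‖cpx κ N P t‖) ≤ (M : ℝ) ^ (1 - δ / 16) := by
  have hδ0 : 0 < δ := by linarith
  have hD0 : (0 : ℝ) ≤ D := Nat.cast_nonneg D
  set ε : ℝ := δ / (16 * (D + 2)) with hε
  have hε0 : 0 < ε := by positivity
  obtain ⟨Ca0, hCa0, hcoj⟩ := coj ε hε0
  obtain ⟨ι, hι, hικ⟩ : ∃ ι : ℝ, 1 ≤ ι ∧ 1 ≤ ι * κ := by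
    refine ⟨max 1 (1 / κ), le_max_left _ _, ?_⟩
    calc (1 : ℝ) = 1 / κ * κ := by field_simp
      _ ≤ max 1 (1 / κ) * κ := mul_le_mul_of_nonneg_right (le_max_right _ _) hκ.le
  have hι0 : 0 < ι := by linarith
  obtain ⟨Ca, hCaι⟩ : ∃ Ca : ℝ, Ca = Ca0 * Real.sqrt ι := ⟨_, rfl⟩
  have hCa : 0 < Ca := by
    rw [hCaι]
    exact mul_pos hCa0 (Real.sqrt_pos.2 hι0)
  have hCa2 : ι * Ca0 ^ 2 = Ca ^ 2 := by
    rw [hCaι, mul_pow, Real.sq_sqrt hι0.le]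
    ring
  obtain ⟨Cc, hCc, hcoi⟩ := coi κ r ε hε0
  obtain ⟨Cf, hCf, hu1⟩ := tri_u1
  set C1 : ℝ := (cc k0 r : ℝ) with hC1d
  have hC11 : 1 ≤ C1 := cc_pos k0 r
  have hC1 : 0 < C1 := by linarith
  have hlc : 0 ≤ Real.log C1 := Real.log_nonneg hC11
  obtain ⟨D', hD'⟩ : ∃ D' : ℝ, D' = 1 + 2 * Real.log C1 + 2 * D := ⟨_, rfl⟩
  have hD'0 : 1 ≤ D' := by
    rw [hD']
    linarith
  set K1 : ℝ := 8000 * Cf * Ca ^ 2 * Cc ^ 2 * (2 * D + 4) * D' ^ 8 * ((D : ℝ) + 1) ^ 2 with hK1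
  have hK10 : 0 < K1 := by positivity
  obtain ⟨M1, hM1⟩ := tri_ev K1 C1 (δ / 4) 11 hK10.le (by positivity)
  refine ⟨M1, ?_⟩
  intro M hM X hX N F P hB e i j hi hij hji hY1 hS1 hS2 T hT1 hT2
  obtain ⟨hMone, hlog1, hC1M, hC1M', hKM⟩ := hM1 M hM
  have hm1 : (1 : ℝ) ≤ M := by exact_mod_cast hMone
  have hm0 : (0 : ℝ) < M := by linarith
  have hX1 : 1 ≤ X := hX.X1 hMone hδ0.le
  have hX0 : 0 < X := by linarith
  have hVM : (M : ℝ) ≤ vv δ M X := vv_ge hX hMone hδ0 hδ1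
  have hV0 : 0 < vv δ M X := by linarith
  have hN0 : (0 : ℝ) < N := by
    have h1 := hB.n0
    have h2 : 0 < (M : ℝ) ^ β := Real.rpow_pos_of_pos hm0 _
    linarith
  have hN1 : (1 : ℝ) ≤ N := by
    have : 0 < N := by exact_mod_cast hN0
    exact_mod_cast this
  have hT0 : 0 < T := by linarith
  -- the sets of indices
  set J : Finset (Fin 8) := {i, j} with hJ
  have hJs : ∑ l ∈ J, e l = e i + e j := Finset.sum_pair hij
  have hSsum : (∑ l ∈ J, e l) + (∑ l ∈ Jᶜ, e l) = ∑ l, e l := Finset.sum_add_sum_compl J e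
  obtain ⟨a, ha1, ha2⟩ := hcoj e Jᶜ
  obtain ⟨c, hc1, hc2⟩ := hcoi F P univ hB.f0 hB.hp
  set A : ℕ := 2 ^ (∑ l ∈ Jᶜ, e l) with hAd
  set Q : ℕ := ∏ l, 2 * F l with hQd
  set Y : ℝ := (2 : ℝ) ^ (e i + e j) with hYd
  have hAr : ((A : ℕ) : ℝ) = (2 : ℝ) ^ (∑ l ∈ Jᶜ, e l) := by rw [hAd]; push_cast; rfl
  have hA1 : 1 ≤ A := Nat.one_le_two_pow
  have hA1r : (1 : ℝ) ≤ A := by exact_mod_cast hA1
  have hAY : (A : ℝ) * Y = 2 ^ (∑ l, e l) := by rw [hAr, hYd, ← hJs, ← pow_add, add_comm, hSsum]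
  have hY0 : 0 < Y := by positivity
  have hZ1 : X ≤ C1 * ((A : ℝ) * Y) := by
    rw [hAY]; exact hS1
  have hZ2 : (A : ℝ) * Y ≤ C1 * X := by
    rw [hAY]; exact hS2
  have hY1' : (1 : ℝ) ≤ Y := one_le_pow₀ (by norm_num)
  have hAle : (A : ℝ) ≤ C1 * X := by
    refine le_trans ?_ hZ2
    exact le_mul_of_one_le_right (by linarith) hY1'
  have hQ1 : 1 ≤ Q := by
    rw [hQd]
    exact Nat.succ_le_of_lt (Finset.prod_pos (fun l _ => by have := hB.f0 l; omega))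
  have hQ1r : (1 : ℝ) ≤ Q := by exact_mod_cast hQ1
  have hNR : 2 * (N : ℝ) * (Q : ℝ) ≤ M := by
    have h1 := hB.t1
    have h2 : 2 * N * Q ≤ M := by
      rw [hQd, Finset.prod_mul_distrib, Finset.prod_const, Finset.card_univ, Fintype.card_fin]
      calc 2 * N * (2 ^ r * ∏ l, F l) = 2 ^ (r + 1) * (N * ∏ l, F l) := by ring
        _ ≤ M := h1
    exact_mod_cast h2
  -- the exponent of the smooth factor is positive
  have hei1 : 1 ≤ e i := by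
    by_contra hcon
    have h0 : e i = 0 := by omega
    have h1 : e j = 0 := by omega
    rw [hYd, h0, h1] at hY1
    have h2 := vv_hi hX hMone hδ0 hδ1
    have h3 : (M : ℝ) * (M : ℝ) ^ (3 * δ / 8) ≤ 1 := by
      calc (M : ℝ) * (M : ℝ) ^ (3 * δ / 8) ≤ vv δ M X * (M : ℝ) ^ (3 * δ / 8) := by gcongr
        _ ≤ _ := h2
        _ ≤ (2 : ℝ) ^ (0 + 0) := hY1
        _ = 1 := by norm_num
    have h4 : (1 : ℝ) ≤ (M : ℝ) ^ (3 * δ / 8) := Real.one_le_rpow hm1 (by positivity)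
    have h5 : (M : ℝ) ≤ 1 := by nlinarith
    have h6 : Real.log M ≤ 0 := Real.log_nonpos (by linarith) h5
    linarith
  -- mean values
  obtain ⟨K, hK⟩ : ∃ K : ℕ, K = Nat.log 2 (M ^ (D + 1)) := ⟨_, rfl⟩
  have hK1' : (M : ℝ) ^ (D + 1) ≤ 2 ^ (K + 1) := by
    have h1 := Nat.lt_pow_succ_log_self (b := 2) (by norm_num) (M ^ (D + 1))
    rw [← hK] at h1
    exact_mod_cast h1.le
  have hK2' : (K : ℝ) + 1 ≤ (2 * D + 4) * (1 + Real.log M) := by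
    have h1 : (2 : ℝ) ^ K ≤ (M : ℝ) ^ (D + 1) := by
      have h2 := Nat.pow_log_le_self 2 (x := M ^ (D + 1)) (by positivity)
      rw [← hK] at h2
      exact_mod_cast h2
    have h3 := Real.log_le_log (by positivity) h1
    rw [Real.log_pow, Real.log_pow] at h3
    push_cast at h3
    have h4 := Real.log_two_gt_d9
    have h5 : (K : ℝ) * (1 / 2) ≤ K * Real.log 2 :=
      mul_le_mul_of_nonneg_left (by linarith) (Nat.cast_nonneg K)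
    nlinarith
  set α : ℝ := Ca * (A : ℝ) ^ (ε - 1) with hα
  set γ : ℝ := Cc * (Q : ℝ) ^ ε with hγ
  have g2 := gmv κ ι hκ hι hικ A Q a c (Ca0 * (A : ℝ) ^ (ε - 1)) γ T hA1 hQ1 hT0 (fun n hn => by
    have := ha1 n hn
    rw [← hAr] at this
    exact this) (fun m hm => hc1 m hm)
  have e1 : 400 * ι * (Ca0 * (A : ℝ) ^ (ε - 1)) ^ 2 = 400 * α ^ 2 := by
    rw [hα, mul_pow, mul_pow, ← hCa2]
    ring
  rw [e1] at g2
  have lA : 0 ≤ Real.log A := Real.log_nonneg hA1r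
  have lQ : 0 ≤ Real.log Q := Real.log_nonneg hQ1r
  have hA0 : (0 : ℝ) < A := by linarith
  have hQ0 : (0 : ℝ) < Q := by linarith
  have hα0 : 0 < α := mul_pos hCa (Real.rpow_pos_of_pos hA0 _)
  have hγ0 : 0 < γ := mul_pos hCc (Real.rpow_pos_of_pos hQ0 _)
  obtain ⟨U2, hU2⟩ : ∃ U2 : ℝ, U2 = 400 * α ^ 2 * γ ^ 2 *
    (T * A * Q * (1 + Real.log A) * (1 + Real.log Q) + (A * Q) ^ 2) := ⟨_, rfl⟩
  rw [← hU2] at g2
  have hU20 : 0 < U2 := by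
    rw [hU2]
    positivity
  have g1 := hu1 i j (e i) (e j) hi hji hei1 T hT0 K
  obtain ⟨U1, hU1⟩ : ∃ U1 : ℝ, U1 = ((K : ℝ) + 1) * (Cf * (1 + (e i : ℝ)) ^ 8 * (T / Y)) := ⟨_, rfl⟩
  rw [← hYd, ← hU1] at g1
  have hU10 : 0 < U1 := by
    rw [hU1]
    positivity
  -- the region
  obtain ⟨R, hR⟩ : ∃ R : Set ℝ, R = {t : ℝ | (2 : ℝ) ^ (e i) / 2 ≤ |t| ∧
    |t| ≤ 2 ^ (K + 1) * ((2 : ℝ) ^ (e i) / 2)} := ⟨_, rfl⟩
  rw [← hR] at g1
  have hRm : MeasurableSet R := by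
    rw [hR]
    exact abs_meas _ _
  have hp1 : (1 : ℝ) ≤ (2 : ℝ) ^ (e i) / 2 := by
    rw [le_div_iff₀ (by norm_num), one_mul]
    calc (2 : ℝ) = 2 ^ 1 := (pow_one _).symm
      _ ≤ 2 ^ (e i) := pow_le_pow_right₀ (by norm_num) hei1
  have hsubR : rng β D M ∩ {t : ℝ | (2 : ℝ) ^ (e i) / 2 ≤ |t|} ⊆ R := by
    intro t ht
    rw [hR]
    refine ⟨ht.2, ?_⟩
    have h1 : |t| ≤ (M : ℝ) ^ (D + 1) := ht.1.2
    calc |t| ≤ 2 ^ (K + 1) := h1.trans hK1'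
      _ = 2 ^ (K + 1) * 1 := (mul_one _).symm
      _ ≤ _ := by gcongr
  have hint : Integrable (fun t : ℝ => Real.exp (-(t / (2 * T)) ^ 2) *
      (‖bp c1 e t‖ * ‖cpx κ N P t‖)) := by
    refine ((trf_int κ e N P T 0 hT0).norm).congr (Filter.Eventually.of_forall fun t => ?_)
    simp only
    rw [norm_mul, Complex.norm_real, Real.norm_of_nonneg (Real.exp_pos _).le, norm_mul,
      norm_mul, norm_ex, one_mul]
  have hstep : ∫ t in rng β D M ∩ {t : ℝ | (2 : ℝ) ^ (e i) / 2 ≤ |t|},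
      Real.exp (-(t / (2 * T)) ^ 2) * (‖bp c1 e t‖ * ‖cpx κ N P t‖) ≤
      ∫ t in R, Real.exp (-(t / (2 * T)) ^ 2) * (‖bp c1 e t‖ * ‖cpx κ N P t‖) :=
    setIntegral_mono_set hint.integrableOn (Filter.Eventually.of_forall fun t => by positivity)
      (Filter.Eventually.of_forall hsubR)
  refine hstep.trans ?_
  have hcs := tri_cs T hT0 R hRm
    (fun t => ‖pol (cf c1 i) (e i) t * pol (cf c1 j) (e j) t‖)
    (fun t => ‖∑ n ∈ Icc 1 A, a n * ex (-(t * Real.log n))‖ * ‖∑ m ∈ Icc 1 Q, c m * ex (κ * t * Real.log m)‖)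
    (fun t => ‖bp c1 e t‖ * ‖cpx κ N P t‖)
    (((pol_cont _ _).mul (pol_cont _ _)).norm) (tii_A.mul tri_C)
    ((1 + (e i : ℝ)) * (1 + (e j : ℝ))) ((∑ n ∈ Icc 1 A, ‖a n‖) * ∑ m ∈ Icc 1 Q, ‖c m‖)
    (fun t => by
      rw [abs_of_nonneg (norm_nonneg _), norm_mul]
      exact mul_le_mul (pw_triv8 c1 i (e i) t) (pw_triv8 c1 j (e j) t) (norm_nonneg _)
        (by positivity))
    (fun t => by
      rw [abs_of_nonneg (by positivity)]
      exact mul_le_mul (tii_bA a A t) (tri_bC κ c Q t) (norm_nonneg _)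
        (Finset.sum_nonneg fun _ _ => norm_nonneg _))
    (N : ℝ) hN0.le (fun t => by positivity)
    (fun t _ => by
      have h1 : bp c1 e t = (pol (cf c1 i) (e i) t * pol (cf c1 j) (e j) t) *
          ∑ n ∈ Icc 1 A, a n * ex (-(t * Real.log n)) := by
        unfold bp
        rw [← Finset.prod_mul_prod_compl J, ha2 t, hJ, Finset.prod_pair hij]
      have h2 : cpx κ N P t = cp κ (Ioc N (2 * N)) t *
          ∑ m ∈ Icc 1 Q, c m * ex (κ * t * Real.log m) := by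
        unfold cpx
        rw [hc2 t]
      have h3 : ‖cp κ (Ioc N (2 * N)) t‖ ≤ (N : ℝ) := by
        refine (cp_triv _ _ t).trans (le_of_eq ?_)
        rw [Nat.card_Ioc, two_mul, Nat.add_sub_cancel]
      rw [h1, h2]
      simp only [norm_mul]
      set x1 := ‖pol (cf c1 i) (e i) t‖
      set x2 := ‖pol (cf c1 j) (e j) t‖
      set x3 := ‖∑ n ∈ Icc 1 A, a n * ex (-(t * Real.log n))‖
      set x4 := ‖∑ m ∈ Icc 1 Q, c m * ex (κ * t * Real.log m)‖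
      have h4 : x1 * x2 * x3 * (‖cp κ (Ioc N (2 * N)) t‖ * x4) =
          ‖cp κ (Ioc N (2 * N)) t‖ * (x1 * x2 * (x3 * x4)) := by ring
      rw [h4]
      exact mul_le_mul_of_nonneg_right h3 (by positivity))
    U1 U2 hU10 hU20 g1 g2
  refine hcs.trans ?_
  -- the final computation
  have hT2V : T ^ 2 ≤ X * (M : ℝ) ^ (1 - δ) := by
    calc T ^ 2 ≤ (vv δ M X * (M : ℝ) ^ (-(δ / 4))) ^ 2 := pow_le_pow_left₀ hT0.le hT2 2
      _ = (vv δ M X) ^ 2 * ((M : ℝ) ^ (-(δ / 4))) ^ 2 := mul_pow _ _ _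
      _ ≤ (X * (M : ℝ) ^ (1 - δ / 2)) * ((M : ℝ) ^ (-(δ / 4))) ^ 2 :=
          mul_le_mul_of_nonneg_right (vv_sq hX0.le hMone) (by positivity)
      _ = X * (M : ℝ) ^ (1 - δ) := by
          rw [← Real.rpow_natCast ((M : ℝ) ^ (-(δ / 4))), ← Real.rpow_mul hm0.le, mul_assoc,
            ← Real.rpow_add hm0]
          congr 2
          push_cast
          ring
  have hNT : (N : ℝ) * T ^ 2 * C1 ≤ 2 * (X * (M : ℝ) ^ (1 - δ / 2)) := by
    have h3 : (M : ℝ) ^ (2 * β) * (M : ℝ) ^ (1 - δ) * (M : ℝ) ^ (δ / 4) ≤ (M : ℝ) ^ (1 - δ / 2) := by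
      rw [← Real.rpow_add hm0, ← Real.rpow_add hm0]
      exact Real.rpow_le_rpow_of_exponent_le hm1 (by linarith)
    calc (N : ℝ) * T ^ 2 * C1 ≤ (2 * (M : ℝ) ^ (2 * β)) * (X * (M : ℝ) ^ (1 - δ)) * (M : ℝ) ^ (δ / 4) := by
          refine mul_le_mul (mul_le_mul hB.n1 hT2V (by positivity) (by positivity)) hC1M' hC1.le ?_
          positivity
      _ = 2 * (X * ((M : ℝ) ^ (2 * β) * (M : ℝ) ^ (1 - δ) * (M : ℝ) ^ (δ / 4))) := by ring
      _ ≤ 2 * (X * (M : ℝ) ^ (1 - δ / 2)) := by gcongr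
  have hTY : T ≤ Y * (M : ℝ) ^ (-(δ / 2)) := by
    have h1 : X * (M : ℝ) ^ (1 - δ / 8) ≤ Y * vv δ M X := by
      rwa [div_le_iff₀ hV0] at hY1
    have h2 : T * vv δ M X ≤ X * (M : ℝ) ^ (1 - δ / 2 - δ / 4) := by
      calc T * vv δ M X ≤ (vv δ M X * (M : ℝ) ^ (-(δ / 4))) * vv δ M X :=
            mul_le_mul_of_nonneg_right hT2 hV0.le
        _ = (vv δ M X) ^ 2 * (M : ℝ) ^ (-(δ / 4)) := by ring
        _ ≤ (X * (M : ℝ) ^ (1 - δ / 2)) * (M : ℝ) ^ (-(δ / 4)) :=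
            mul_le_mul_of_nonneg_right (vv_sq hX0.le hMone) (by positivity)
        _ = _ := by
            rw [mul_assoc, ← Real.rpow_add hm0]
            congr 2
    have h3 : (M : ℝ) ^ (1 - δ / 2 - δ / 4) ≤ (M : ℝ) ^ (1 - δ / 8) * (M : ℝ) ^ (-(δ / 2)) := by
      rw [← Real.rpow_add hm0]
      exact Real.rpow_le_rpow_of_exponent_le hm1 (by linarith)
    have h4 : T * vv δ M X ≤ (Y * (M : ℝ) ^ (-(δ / 2))) * vv δ M X := by
      calc T * vv δ M X ≤ X * (M : ℝ) ^ (1 - δ / 2 - δ / 4) := h2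
        _ ≤ X * ((M : ℝ) ^ (1 - δ / 8) * (M : ℝ) ^ (-(δ / 2))) := by gcongr
        _ = (X * (M : ℝ) ^ (1 - δ / 8)) * (M : ℝ) ^ (-(δ / 2)) := by ring
        _ ≤ (Y * vv δ M X) * (M : ℝ) ^ (-(δ / 2)) := by gcongr
        _ = _ := by ring
    exact le_of_mul_le_mul_right h4 hV0
  have hlX : Real.log X ≤ D * Real.log M := by
    have h1 := Real.log_le_log hX0 hX.x2
    rwa [Real.log_pow] at h1
  have hlA : Real.log A ≤ (D + 1) * Real.log M := by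
    have h1 := Real.log_le_log hA0 hAle
    rw [Real.log_mul hC1.ne' hX0.ne'] at h1
    have h2 := Real.log_le_log hC1 hC1M
    linarith
  have hQM : (Q : ℝ) ≤ M := by
    have h1 : 1 * (Q : ℝ) ≤ 2 * (N : ℝ) * (Q : ℝ) := mul_le_mul_of_nonneg_right (by linarith) hQ0.le
    linarith
  have hlQ : Real.log Q ≤ Real.log M := Real.log_le_log hQ0 hQM
  have hℓ1 : Real.log M ≤ (D + 1) * Real.log M :=
    le_mul_of_one_le_left (by linarith) (by linarith)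
  have hℓ4 : (D + 1) * Real.log M ≤ 4 * ((D + 1) * Real.log M) := by
    have : 0 ≤ (D + 1) * Real.log M := by positivity
    linarith
  have hAQ : ((A : ℝ) * Q) ^ (2 * ε) ≤ (M : ℝ) ^ (δ / 8) := by
    have h1 : (A : ℝ) * Q ≤ (M : ℝ) ^ ((D : ℝ) + 2) := by
      calc (A : ℝ) * Q ≤ (C1 * X) * M := mul_le_mul hAle hQM hQ0.le (by positivity)
        _ ≤ ((M : ℝ) * (M : ℝ) ^ D) * M := by
            have := hX.x2
            gcongr
        _ = (M : ℝ) ^ (D + 2) := by ring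
        _ = (M : ℝ) ^ ((D : ℝ) + 2) := by
            rw [← Real.rpow_natCast]
            congr 1
            push_cast
            ring
    calc ((A : ℝ) * Q) ^ (2 * ε) ≤ ((M : ℝ) ^ ((D : ℝ) + 2)) ^ (2 * ε) :=
          Real.rpow_le_rpow (by positivity) h1 (by positivity)
      _ = (M : ℝ) ^ (δ / 8) := by
          rw [← Real.rpow_mul hm0.le]
          congr 1
          rw [hε]
          field_simp
          norm_num
  have hei : 1 + (e i : ℝ) ≤ D' * (1 + Real.log M) := by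
    have h1 := size_S k0 D r M (∑ l, e l) X hMone hX1 hX.x2 hS2
    rw [← hC1d, ← hD'] at h1
    have h2 : e i ≤ ∑ l, e l := Finset.single_le_sum (fun _ _ => Nat.zero_le _) (Finset.mem_univ i)
    have h3 : (e i : ℝ) ≤ ((∑ l, e l : ℕ) : ℝ) := by exact_mod_cast h2
    linarith
  have halg := tri_alg A Q Y T N M X C1 Ca Cc Cf ε ((D + 1) * Real.log M) ((M : ℝ) ^ (δ / 8))
    ((K : ℝ) + 1) ((1 + (e i : ℝ)) ^ 8) δ hA1r hQ1r hY0 hT0 hN0 hm1 hX0 hC1 hCa hCc hCf hε0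
    (by linarith) (by positivity) (by positivity) (by positivity) hNR hNT hZ1 hTY hAQ (by linarith)
    (by linarith)
  have hL1 : (1 : ℝ) ≤ 1 + Real.log M := by linarith
  have hfin : (N : ℝ) ^ 2 * (U1 * U2) ≤ ((M : ℝ) ^ (1 - δ / 16)) ^ 2 := by
    have h1 : (N : ℝ) ^ 2 * (U1 * U2) ≤ 8000 * Cf * Ca ^ 2 * Cc ^ 2 * ((K : ℝ) + 1) *
        (1 + (e i : ℝ)) ^ 8 * ((D + 1) * Real.log M) ^ 2 * (M : ℝ) ^ (δ / 8) *
        (M : ℝ) ^ (2 - δ / 2) := by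
      rw [hU1, hU2, hα, hγ]
      exact halg
    have h2 : 8000 * Cf * Ca ^ 2 * Cc ^ 2 * ((K : ℝ) + 1) *
        (1 + (e i : ℝ)) ^ 8 * ((D + 1) * Real.log M) ^ 2 ≤ (M : ℝ) ^ (δ / 4) := by
      calc _ ≤ 8000 * Cf * Ca ^ 2 * Cc ^ 2 * ((2 * D + 4) * (1 + Real.log M)) *
          (D' * (1 + Real.log M)) ^ 8 * ((D + 1) * (1 + Real.log M)) ^ 2 := by
            gcongr
            linarith
        _ = K1 * (1 + Real.log M) ^ 11 := by
            rw [hK1]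
            ring
        _ ≤ _ := hKM
    have h3 : ((M : ℝ) ^ (1 - δ / 16)) ^ 2 =
        (M : ℝ) ^ (δ / 4) * (M : ℝ) ^ (δ / 8) * (M : ℝ) ^ (2 - δ / 2) := by
      rw [← Real.rpow_natCast, ← Real.rpow_mul hm0.le, ← Real.rpow_add hm0, ← Real.rpow_add hm0]
      congr 1
      push_cast
      ring
    rw [h3]
    refine h1.trans ?_
    gcongr
  calc (N : ℝ) * Real.sqrt (U1 * U2) = Real.sqrt ((N : ℝ) ^ 2 * (U1 * U2)) := by
        rw [Real.sqrt_mul (sq_nonneg (N : ℝ)) (U1 * U2), Real.sqrt_sq hN0.le]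
    _ ≤ Real.sqrt (((M : ℝ) ^ (1 - δ / 16)) ^ 2) := Real.sqrt_le_sqrt hfin
    _ = (M : ℝ) ^ (1 - δ / 16) := Real.sqrt_sq (by positivity)

theorem tri (κ β δ : ℝ) (k0 D r : ℕ) (hκ : 0 < κ) (hβ : 0 < β) (hδ : 40 * β ≤ δ) (hδ1 : δ ≤ 1) :
    ∃ η : ℝ, 0 < η ∧ ∃ M1 : ℕ, ∀ M : ℕ, M1 ≤ M → ∀ X : ℝ, Px κ δ k0 D M X →
    ∀ (N : ℕ) (F : Fin r → ℕ) (P : Fin r → Finset ℕ), Bx β M N F P →
    ∀ (e : Fin 8 → ℕ) (i j : Fin 8), 4 ≤ (i : ℕ) → i ≠ j → e j ≤ e i →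
    X * (M : ℝ) ^ (1 - δ / 8) / vv δ M X ≤ (2 : ℝ) ^ (e i + e j) →
    X ≤ cc k0 r * 2 ^ (∑ i, e i) → 2 ^ (∑ i, e i) ≤ cc k0 r * X →
    ∀ T : ℝ, 1 ≤ T → T ≤ vv δ M X * (M : ℝ) ^ (-(δ / 4)) →
    ∫ t in rng β D M, Real.exp (-(t / (2 * T)) ^ 2) * (‖bp c1 e t‖ * ‖cpx κ N P t‖) ≤
      (M : ℝ) ^ (1 - η) := by
  have hδ0 : 0 < δ := by linarith
  obtain ⟨η1, hη1, M1, h1⟩ := tri_near κ β δ k0 D r hκ hβ hδ hδ1
  obtain ⟨M2, h2⟩ := tri_far κ β δ k0 D r hκ hβ hδ hδ1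
  obtain ⟨η, hη, hηa, hηb⟩ : ∃ η : ℝ, 0 < η ∧ η ≤ η1 ∧ η ≤ δ / 16 :=
    ⟨min η1 (δ / 16), lt_min hη1 (by positivity), min_le_left _ _, min_le_right _ _⟩
  obtain ⟨M3, h3⟩ := log_pow_le 2 (η / 2) 0 (by positivity) (by norm_num)
  refine ⟨η / 2, by positivity, max (max M1 M2) (max M3 1), ?_⟩
  intro M hM X hX N F P hB e i j hi hij hji hY1 hS1 hS2 T hT1 hT2
  have hMM1 : M1 ≤ M := ((le_max_left _ _).trans (le_max_left _ _)).trans hM
  have hMM2 : M2 ≤ M := ((le_max_right _ _).trans (le_max_left _ _)).trans hM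
  have hMM3 : M3 ≤ M := ((le_max_left _ _).trans (le_max_right _ _)).trans hM
  have hM1 : 1 ≤ M := ((le_max_right _ _).trans (le_max_right _ _)).trans hM
  have hm1 : (1 : ℝ) ≤ M := by exact_mod_cast hM1
  have hm0 : (0 : ℝ) < M := by linarith
  have hT0 : 0 < T := by linarith
  have hc := h3 M hMM3
  rw [pow_zero, mul_one] at hc
  have hint : Integrable (fun t : ℝ => Real.exp (-(t / (2 * T)) ^ 2) *
      (‖bp c1 e t‖ * ‖cpx κ N P t‖)) := by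
    refine ((trf_int κ e N P T 0 hT0).norm).congr (Filter.Eventually.of_forall fun t => ?_)
    simp only
    rw [norm_mul, Complex.norm_real, Real.norm_of_nonneg (Real.exp_pos _).le, norm_mul,
      norm_mul, norm_ex, one_mul]
  have a1 := h1 M hMM1 X hX N F P hB e i hi hS2 T
  have a2 := h2 M hMM2 X hX N F P hB e i j hi hij hji hY1 hS1 hS2 T hT1 hT2
  have hsplit : rng β D M = (rng β D M ∩ {t : ℝ | |t| ≤ (2 : ℝ) ^ (e i) / 2}) ∪
      (rng β D M ∩ {t : ℝ | (2 : ℝ) ^ (e i) / 2 ≤ |t|}) := by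
    rw [← Set.inter_union_distrib_left]
    refine (Set.inter_eq_left.2 fun t _ => ?_).symm
    exact le_total |t| ((2 : ℝ) ^ (e i) / 2)
  have a3 := tri_union (fun t : ℝ => Real.exp (-(t / (2 * T)) ^ 2) *
      (‖bp c1 e t‖ * ‖cpx κ N P t‖)) (rng β D M ∩ {t : ℝ | |t| ≤ (2 : ℝ) ^ (e i) / 2})
      (rng β D M ∩ {t : ℝ | (2 : ℝ) ^ (e i) / 2 ≤ |t|})
      ((rng_meas β D M).inter (measurableSet_le measurable_norm measurable_const))
      ((rng_meas β D M).inter (measurableSet_le measurable_const measurable_norm))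
      (fun t => by positivity) hint.integrableOn hint.integrableOn
  rw [← hsplit] at a3
  have b1 : (M : ℝ) ^ (1 - η1) ≤ (M : ℝ) ^ (1 - η) :=
    Real.rpow_le_rpow_of_exponent_le hm1 (by linarith)
  have b2 : (M : ℝ) ^ (1 - δ / 16) ≤ (M : ℝ) ^ (1 - η) :=
    Real.rpow_le_rpow_of_exponent_le hm1 (by linarith)
  calc _ ≤ (M : ℝ) ^ (1 - η) + (M : ℝ) ^ (1 - η) := by linarith
    _ = 2 * (M : ℝ) ^ (1 - η) := by ring
    _ ≤ (M : ℝ) ^ (η / 2) * (M : ℝ) ^ (1 - η) := by gcongr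
    _ = (M : ℝ) ^ (1 - η / 2) := by
        rw [← Real.rpow_add hm0]
        congr 1
        ring

end Pool.Agent.H67.PS
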