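import Pool.Agent.H67.PS.Ti
import Pool.Agent.H67.PS.Trf

/-!
# [H67 PS TRI1] Two long factors: the frequencies below the length of the smooth factor

For a smooth factor `i` and `|t| <= 2^(e i)/2`: first case of `H98.PR.Ti`. Also: splitting of integrals and the dyadic decomposition.
-/

namespace Pool.Agent.H67.PS

open Finset MeasureTheory
open Pool.Agent.H43.SI (pol)
open Pool.Agent.H98.PK (ex tup mv Bx c1 qd norm_ex tup_card ti_int)
open Pool.Agent.H98.PR (Px cp cpx rng rng_meas sup log_pow_le exp_small cp_triv cpx_triv)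

theorem tri_union (f : ℝ → ℝ) (A B : Set ℝ) (hA : MeasurableSet A) (hB : MeasurableSet B)
    (h0 : ∀ t, 0 ≤ f t) (hfA : IntegrableOn f A) (hfB : IntegrableOn f B) :
    ∫ t in A ∪ B, f t ≤ (∫ t in A, f t) + ∫ t in B, f t := by
  have h1 : A ∪ B = A ∪ (B \ A) := Set.union_diff_self.symm
  rw [h1, setIntegral_union Set.disjoint_sdiff_right (hB.diff hA) hfA
    (hfB.mono_set Set.diff_subset)]
  have h2 : ∫ t in B \ A, f t ≤ ∫ t in B, f t :=
    setIntegral_mono_set hfB (Filter.Eventually.of_forall h0)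
      (Filter.Eventually.of_forall (fun _ hx => hx.1))
  linarith

theorem abs_meas (p q : ℝ) : MeasurableSet {t : ℝ | p ≤ |t| ∧ |t| ≤ q} :=
  (measurableSet_le measurable_const measurable_norm).inter
    (measurableSet_le measurable_norm measurable_const)

theorem abs_int (φ : ℝ → ℝ) (hφ : Continuous φ) (p q : ℝ) :
    IntegrableOn φ {t : ℝ | p ≤ |t| ∧ |t| ≤ q} := by
  have h1 : IntegrableOn φ (Set.Icc (-q) q) := hφ.continuousOn.integrableOn_compact isCompact_Icc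
  refine h1.mono_set fun t ht => ?_
  exact abs_le.1 ht.2

theorem tri_dy (φ : ℝ → ℝ) (h0 : ∀ t, 0 ≤ φ t) (hφ : Continuous φ) (p V : ℝ) (hp : 0 < p)
    (hk : ∀ k : ℕ, ∫ t in {t : ℝ | 2 ^ k * p ≤ |t| ∧ |t| ≤ 2 * (2 ^ k * p)}, φ t ≤ V) :
    ∀ K : ℕ, ∫ t in {t : ℝ | p ≤ |t| ∧ |t| ≤ 2 ^ (K + 1) * p}, φ t ≤ (K + 1) * V := by
  intro K
  induction K with
  | zero =>
    have h1 := hk 0
    have h2 : {t : ℝ | 2 ^ 0 * p ≤ |t| ∧ |t| ≤ 2 * (2 ^ 0 * p)} =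
        {t : ℝ | p ≤ |t| ∧ |t| ≤ 2 ^ (0 + 1) * p} := by
      ext t
      simp
    rw [h2] at h1
    simpa using h1
  | succ K ih =>
    have h1 : {t : ℝ | p ≤ |t| ∧ |t| ≤ 2 ^ (K + 1 + 1) * p} ⊆
        {t : ℝ | p ≤ |t| ∧ |t| ≤ 2 ^ (K + 1) * p} ∪
          {t : ℝ | 2 ^ (K + 1) * p ≤ |t| ∧ |t| ≤ 2 * (2 ^ (K + 1) * p)} := by
      intro t ht
      rcases le_total |t| (2 ^ (K + 1) * p) with h | h
      · exact Or.inl ⟨ht.1, h⟩
      · refine Or.inr ⟨h, ht.2.trans (le_of_eq ?_)⟩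
        rw [pow_succ (2 : ℝ) (K + 1)]
        ring
    have h2 := tri_union φ _ _ (abs_meas p (2 ^ (K + 1) * p))
      (abs_meas (2 ^ (K + 1) * p) (2 * (2 ^ (K + 1) * p))) h0 (abs_int φ hφ _ _) (abs_int φ hφ _ _)
    have h3 : ∫ t in {t : ℝ | p ≤ |t| ∧ |t| ≤ 2 ^ (K + 1 + 1) * p}, φ t ≤
        ∫ t in {t : ℝ | p ≤ |t| ∧ |t| ≤ 2 ^ (K + 1) * p} ∪
          {t : ℝ | 2 ^ (K + 1) * p ≤ |t| ∧ |t| ≤ 2 * (2 ^ (K + 1) * p)}, φ t :=
      setIntegral_mono_set ((abs_int φ hφ _ _).union (abs_int φ hφ _ _))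
        (Filter.Eventually.of_forall h0) (Filter.Eventually.of_forall h1)
    have h4 := hk (K + 1)
    push_cast
    linarith

theorem tri_near (κ β δ : ℝ) (k0 D r : ℕ) (hκ : 0 < κ) (hβ : 0 < β) (hδ : 40 * β ≤ δ) (_hδ1 : δ ≤ 1) :
    ∃ η : ℝ, 0 < η ∧ ∃ M1 : ℕ, ∀ M : ℕ, M1 ≤ M → ∀ X : ℝ, Px κ δ k0 D M X →
    ∀ (N : ℕ) (F : Fin r → ℕ) (P : Fin r → Finset ℕ), Bx β M N F P →
    ∀ (e : Fin 8 → ℕ) (i0 : Fin 8), 4 ≤ (i0 : ℕ) → 2 ^ (∑ i, e i) ≤ cc k0 r * X →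
    ∀ T : ℝ, ∫ t in rng β D M ∩ {t : ℝ | |t| ≤ (2 : ℝ) ^ (e i0) / 2},
      Real.exp (-(t / (2 * T)) ^ 2) * (‖bp c1 e t‖ * ‖cpx κ N P t‖) ≤ (M : ℝ) ^ (1 - η) := by
  have hδ0 : 0 < δ := by linarith
  obtain ⟨η0, hη0, M0, hsup⟩ := sup κ β (β / 16) D hκ hβ (by positivity)
  obtain ⟨Cs, hCs, hsmo⟩ := smo8
  obtain ⟨η1, hη1, hη1le, hη1le'⟩ : ∃ η1 : ℝ, 0 < η1 ∧ η1 ≤ 1 ∧ η1 ≤ η0 :=
    ⟨min η0 1, lt_min hη0 one_pos, min_le_right _ _, min_le_left _ _⟩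
  have hD0 : (0 : ℝ) ≤ D := Nat.cast_nonneg D
  have hlc : 0 ≤ Real.log (cc k0 r) := Real.log_nonneg (cc_pos k0 r)
  obtain ⟨D', hD'⟩ : ∃ D' : ℝ, D' = 1 + 2 * Real.log (cc k0 r) + 2 * D := ⟨_, rfl⟩
  have hD'0 : 1 ≤ D' := by
    rw [hD']
    linarith
  -- the conditions on `M`
  obtain ⟨M2, hM2⟩ := log_pow_le (Cs * D' ^ 8 * (2 * (D + 1))) (η1 / 2) 9 (by positivity)
    (by positivity)
  refine ⟨η1 / 2, by positivity, max (max M0 M2) 1, ?_⟩
  intro M hM X hX N F P hB e i0 hi0 hS T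
  have hM0 : M0 ≤ M := ((le_max_left _ _).trans (le_max_left _ _)).trans hM
  have hMM2 : M2 ≤ M := ((le_max_right _ _).trans (le_max_left _ _)).trans hM
  have hM1 : 1 ≤ M := (le_max_right _ _).trans hM
  have hM1R : (1 : ℝ) ≤ M := by exact_mod_cast hM1
  have hMpos : (0 : ℝ) < M := by linarith
  have hc1 := hM2 M hMM2
  have hX1 : 1 ≤ X := hX.X1 hM1 hδ0.le
  have hlog0 : 0 ≤ Real.log M := Real.log_nonneg hM1R
  -- the size of `S`
  obtain ⟨S, hSdef⟩ : ∃ S : ℝ, S = ((∑ i, e i : ℕ) : ℝ) := ⟨_, rfl⟩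
  have hS0 : 0 ≤ S := by rw [hSdef]; exact Nat.cast_nonneg _
  have hSle : 1 + S ≤ D' * (1 + Real.log M) := by
    rw [hSdef, hD']
    exact size_S k0 D r M _ X hM1 hX1 hX.x2 hS
  -- the bound for `cpx` on `rng`
  have hprod : (N : ℝ) * ∏ i, (F i : ℝ) ≤ M := by
    have h1 := hB.t1
    have h2 : N * ∏ i, F i ≤ M := le_trans (Nat.le_mul_of_pos_left _ (by positivity)) h1
    exact_mod_cast h2
  have hcard : ∀ i, ((P i).card : ℝ) ≤ F i := by
    intro i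
    have h1 : P i ⊆ Ioc (F i) (2 * F i) := fun p hp => Finset.mem_Ioc.2 (hB.hp i p hp)
    have h2 := Finset.card_le_card h1
    rw [Nat.card_Ioc] at h2
    have h3 : (P i).card ≤ F i := by omega
    exact_mod_cast h3
  have hcpx : ∀ t ∈ rng β D M, ‖cpx κ N P t‖ ≤ (M : ℝ) ^ (1 - η1) := by
    intro t ht
    unfold cpx
    rw [norm_mul, norm_prod]
    have h1 := hsup M hM0 N hB.n0 t ht.1 ht.2
    have h2 : ∏ i, ‖cp κ (P i) t‖ ≤ ∏ i, (F i : ℝ) :=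
      Finset.prod_le_prod (fun i _ => norm_nonneg _) fun i _ => (cp_triv κ (P i) t).trans (hcard i)
    have h3 : (M : ℝ) ^ (-η0) ≤ (M : ℝ) ^ (-η1) :=
      Real.rpow_le_rpow_of_exponent_le hM1R (by linarith)
    calc ‖cp κ (Ioc N (2 * N)) t‖ * ∏ i, ‖cp κ (P i) t‖
        ≤ (N * (M : ℝ) ^ (-η0)) * ∏ i, (F i : ℝ) :=
          mul_le_mul h1 h2 (Finset.prod_nonneg fun i _ => norm_nonneg _) (by positivity)
      _ ≤ (N * (M : ℝ) ^ (-η1)) * ∏ i, (F i : ℝ) := by gcongr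
      _ = (N * ∏ i, (F i : ℝ)) * (M : ℝ) ^ (-η1) := by ring
      _ ≤ M * (M : ℝ) ^ (-η1) := by gcongr
      _ = (M : ℝ) ^ (1 - η1) := by
          rw [sub_eq_add_neg, Real.rpow_add hMpos, Real.rpow_one]
  -- the bound for the integrand
  have hXM : (1 : ℝ) ≤ (M : ℝ) ^ (D + 1) := one_le_pow₀ hM1R
  have hsub : ∀ t ∈ rng β D M ∩ {t : ℝ | |t| ≤ (2 : ℝ) ^ (e i0) / 2},
      1 ≤ |t| ∧ |t| ≤ (M : ℝ) ^ (D + 1) := by
    intro t ht
    exact ⟨(Real.one_le_rpow hM1R (by positivity)).trans ht.1.1, ht.1.2⟩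
  have hint := ti_int ((M : ℝ) ^ (D + 1)) (Cs * (1 + S) ^ 8 * (M : ℝ) ^ (1 - η1))
    0 hXM (by positivity) le_rfl
    (rng β D M ∩ {t : ℝ | |t| ≤ (2 : ℝ) ^ (e i0) / 2})
    ((rng_meas β D M).inter (measurableSet_le measurable_norm measurable_const)) hsub
    (fun t => Real.exp (-(t / (2 * T)) ^ 2) * (‖bp c1 e t‖ * ‖cpx κ N P t‖))
    (fun t => by positivity) (by
      intro t ht
      obtain ⟨ht1, -⟩ := hsub t ht
      have htpos : 0 < |t| := by linarith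
      have hcx := hcpx t ht.1
      have h3 := hsmo i0 (e i0) t hi0 ht1 ht.2
      have hei : ∀ i, (1 : ℝ) + (e i : ℝ) ≤ 1 + S := by
        intro i
        rw [hSdef]
        have : e i ≤ ∑ i, e i := Finset.single_le_sum (fun _ _ => Nat.zero_le _) (Finset.mem_univ i)
        have h4 : (e i : ℝ) ≤ ((∑ i, e i : ℕ) : ℝ) := by exact_mod_cast this
        linarith
      have hbp : ‖bp c1 e t‖ ≤ Cs * (1 + S) ^ 8 * |t|⁻¹ := by
        unfold bp
        rw [norm_prod, ← Finset.mul_prod_erase Finset.univ _ (Finset.mem_univ i0)]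
        have h4 : ∏ i ∈ Finset.univ.erase i0, ‖pol (cf c1 i) (e i) t‖ ≤
            (1 + S) ^ 7 := by
          calc ∏ i ∈ Finset.univ.erase i0, ‖pol (cf c1 i) (e i) t‖ ≤
                ∏ i ∈ (Finset.univ : Finset (Fin 8)).erase i0, (1 + S) :=
                Finset.prod_le_prod (fun i _ => norm_nonneg _) fun i _ =>
                  (pw_triv8 c1 i (e i) t).trans (hei i)
            _ = (1 + S) ^ 7 := by
                rw [Finset.prod_const, Finset.card_erase_of_mem (Finset.mem_univ i0),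
                  Finset.card_univ, Fintype.card_fin]
        calc ‖pol (cf c1 i0) (e i0) t‖ *
              ∏ i ∈ Finset.univ.erase i0, ‖pol (cf c1 i) (e i) t‖ ≤
              (Cs * (1 + e i0) / |t|) * (1 + S) ^ 7 :=
              mul_le_mul h3 h4 (Finset.prod_nonneg fun i _ => norm_nonneg _) (by positivity)
          _ ≤ (Cs * (1 + S) / |t|) * (1 + S) ^ 7 := by
              have := hei i0
              gcongr
          _ = _ := by
              rw [div_eq_mul_inv]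
              ring
      have hexp : Real.exp (-(t / (2 * T)) ^ 2) ≤ 1 := by
        rw [Real.exp_le_one_iff]
        have := sq_nonneg (t / (2 * T))
        linarith
      calc Real.exp (-(t / (2 * T)) ^ 2) * (‖bp c1 e t‖ * ‖cpx κ N P t‖)
          ≤ 1 * ((Cs * (1 + S) ^ 8 * |t|⁻¹) * (M : ℝ) ^ (1 - η1)) := by
            gcongr
        _ = Cs * (1 + S) ^ 8 * (M : ℝ) ^ (1 - η1) * |t|⁻¹ + 0 := by ring)
  refine hint.trans ?_
  -- numerics
  have hlog3 : Real.log ((M : ℝ) ^ (D + 1)) = (D + 1) * Real.log M := by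
    rw [Real.log_pow]
    push_cast
    ring
  rw [hlog3, zero_mul, add_zero]
  have hS8 : (1 + S) ^ 8 ≤ D' ^ 8 * (1 + Real.log M) ^ 8 := by
    rw [← mul_pow]
    exact pow_le_pow_left₀ (by linarith) hSle 8
  calc Cs * (1 + S) ^ 8 * (M : ℝ) ^ (1 - η1) * (2 * ((D + 1) * Real.log M)) ≤
        Cs * (D' ^ 8 * (1 + Real.log M) ^ 8) * (M : ℝ) ^ (1 - η1) *
          (2 * ((D + 1) * (1 + Real.log M))) := by
        gcongr
        linarith
    _ = (Cs * D' ^ 8 * (2 * (D + 1)) * (1 + Real.log M) ^ 9) * (M : ℝ) ^ (1 - η1) := by ring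
    _ ≤ (M : ℝ) ^ (η1 / 2) * (M : ℝ) ^ (1 - η1) := by gcongr
    _ = (M : ℝ) ^ (1 - η1 / 2) := by
        rw [← Real.rpow_add hMpos]
        congr 1
        ring

end Pool.Agent.H67.PS
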